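import Mathlib

/-!
# Covered partial labellings

A labelling with values in `0..n` of a graph with `n` edges and `n` vertices is graceful as soon as
every `1..n` is a difference of an edge, i.e. every label different from `0` and the missing label
are differences.
-/

namespace Pool.Agent.Helper67.Gr

/-- `G` is graceful -/
def Graceful {V : Type} [Fintype V] [DecidableEq V] (G : SimpleGraph V) [DecidableRel G.Adj] :
    Prop :=
  ∃ f : V → ℕ, Function.Injective f ∧ (∀ v, f v ≤ G.edgeFinset.card) ∧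
      ∀ u v u' v' : V, G.Adj u v → G.Adj u' v' →
        Int.natAbs ((f u : ℤ) - (f v : ℤ)) = Int.natAbs ((f u' : ℤ) - (f v' : ℤ)) →
        s(u, v) = s(u', v')

/-- a partial labelling with domain `S`: injective, `v` has label `0`, every nonzero label is the
difference of an edge inside `S`, and so is the number `d0`, which is not a label -/
structure Cov {V : Type} (G : SimpleGraph V) (v : V) (d0 : ℕ) (f : V → ℕ) (S : Finset V) :
    Prop where
  fv : f v = 0
  vS : v ∈ S
  inj : Set.InjOn f S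
  cov : ∀ u ∈ S, u ≠ v → ∃ x ∈ S, ∃ y ∈ S, G.Adj x y ∧
    Int.natAbs ((f x : ℤ) - (f y : ℤ)) = f u
  d0pos : 0 < d0
  d0S : ∀ u ∈ S, f u ≠ d0
  d0cov : ∃ x ∈ S, ∃ y ∈ S, G.Adj x y ∧ Int.natAbs ((f x : ℤ) - (f y : ℤ)) = d0

/-- all numbers `1..n` are differences: the labelling is graceful -/
theorem graceful_of_surj {V : Type} [Fintype V] [DecidableEq V] (G : SimpleGraph V)
    [DecidableRel G.Adj] (f : V → ℕ) (hinj : Function.Injective f)
    (hB : ∀ u, f u ≤ G.edgeFinset.card)
    (h : ∀ d, 1 ≤ d → d ≤ G.edgeFinset.card →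
      ∃ x y, G.Adj x y ∧ Int.natAbs ((f x : ℤ) - (f y : ℤ)) = d) : Graceful G := by
  classical
  refine ⟨f, hinj, hB, ?_⟩
  let φ : Sym2 V → ℕ := Sym2.lift ⟨fun x y => Int.natAbs ((f x : ℤ) - (f y : ℤ)), by
    intro x y
    change Int.natAbs ((f x : ℤ) - (f y : ℤ)) = Int.natAbs ((f y : ℤ) - (f x : ℤ))
    omega⟩
  have hφ : ∀ x y, φ s(x, y) = Int.natAbs ((f x : ℤ) - (f y : ℤ)) := fun x y => rfl
  have h1 : (Finset.Icc 1 G.edgeFinset.card) ⊆ G.edgeFinset.image φ := by
    intro d hd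
    rw [Finset.mem_Icc] at hd
    obtain ⟨x, y, hxy, h2⟩ := h d hd.1 hd.2
    rw [Finset.mem_image]
    exact ⟨s(x, y), by rw [SimpleGraph.mem_edgeFinset, SimpleGraph.mem_edgeSet]; exact hxy,
      by rw [hφ, h2]⟩
  have h2 : (G.edgeFinset.image φ).card = G.edgeFinset.card := by
    apply le_antisymm Finset.card_image_le
    have h3 := Finset.card_le_card h1
    rw [Nat.card_Icc] at h3
    omega
  have h3 : Set.InjOn φ G.edgeFinset := Finset.injOn_of_card_image_eq h2
  intro x y x' y' hxy hxy' heq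
  apply h3
  · exact_mod_cast SimpleGraph.mem_edgeFinset.2 ((SimpleGraph.mem_edgeSet G).2 hxy)
  · exact_mod_cast SimpleGraph.mem_edgeFinset.2 ((SimpleGraph.mem_edgeSet G).2 hxy')
  · rw [hφ, hφ]; exact heq

/-- the leaves at `v` take all the remaining labels -/
theorem Cov.finish {V : Type} [Fintype V] [DecidableEq V] {G : SimpleGraph V}
    [DecidableRel G.Adj] (hE : G.edgeFinset.card = Fintype.card V) {v : V} {d0 : ℕ} {f : V → ℕ}
    {T : Finset V} (h : Cov G v d0 f T) (hT : ∀ u, u ∉ T → G.Adj v u)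
    (hB : ∀ u ∈ T, f u ≤ Fintype.card V) : Graceful G := by
  classical
  set n := Fintype.card V with hn
  have hd0n : d0 ≤ n := by
    obtain ⟨x, hx, y, hy, _, h1⟩ := h.d0cov
    have := hB x hx
    have := hB y hy
    omega
  have hd0p := h.d0pos
  set A := insert d0 ((T.erase v).image f) with hA
  have hd0A : d0 ∉ (T.erase v).image f := by
    intro h1
    rw [Finset.mem_image] at h1
    obtain ⟨u, hu, h2⟩ := h1
    exact h.d0S u (Finset.mem_of_mem_erase hu) h2
  have hpos : ∀ u ∈ T, u ≠ v → 0 < f u := by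
    intro u hu huv
    rcases Nat.eq_zero_or_pos (f u) with h1 | h1
    · exact absurd (h.inj (by exact_mod_cast hu) (by exact_mod_cast h.vS) (by rw [h1, h.fv])) huv
    · exact h1
  have hcard : ((T.erase v).image f).card = T.card - 1 := by
    rw [Finset.card_image_of_injOn, Finset.card_erase_of_mem h.vS]
    exact h.inj.mono (by exact_mod_cast Finset.erase_subset _ _)
  have hAcard : A.card = T.card := by
    rw [hA, Finset.card_insert_of_notMem hd0A, hcard]
    have : 0 < T.card := Finset.card_pos.2 ⟨v, h.vS⟩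
    omega
  have hAsub : A ⊆ Finset.Icc 1 n := by
    intro l hl
    rw [hA, Finset.mem_insert, Finset.mem_image] at hl
    rw [Finset.mem_Icc]
    rcases hl with hl | ⟨u, hu, hl⟩
    · omega
    · rw [Finset.mem_erase] at hu
      have := hpos u hu.2 hu.1
      have := hB u hu.2
      omega
  have hWcard : (Finset.univ \ T).card = (Finset.Icc 1 n \ A).card := by
    rw [Finset.card_sdiff_of_subset (Finset.subset_univ _), Finset.card_sdiff_of_subset hAsub,
      hAcard, Finset.card_univ, Nat.card_Icc]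
    omega
  let e : (Finset.univ \ T : Finset V) ≃ (Finset.Icc 1 n \ A : Finset ℕ) :=
    Finset.equivOfCardEq hWcard
  have hmemW : ∀ u, u ∉ T → u ∈ (Finset.univ \ T : Finset V) := fun u hu => by simp [hu]
  let f' : V → ℕ := fun u => if hu : u ∈ T then f u else (e ⟨u, hmemW u hu⟩ : ℕ)
  have f1 : ∀ u ∈ T, f' u = f u := fun u hu => dif_pos hu
  have f2 : ∀ u (hu : u ∉ T), f' u = (e ⟨u, hmemW u hu⟩ : ℕ) := fun u hu => dif_neg hu
  have f4 : ∀ u, u ∉ T → f' u ∉ (T.erase v).image f ∧ f' u ≠ d0 ∧ 1 ≤ f' u ∧ f' u ≤ n := by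
    intro u hu
    have h1 : f' u ∈ Finset.Icc 1 n \ A := by
      rw [f2 u hu]
      exact (e ⟨u, hmemW u hu⟩).2
    rw [Finset.mem_sdiff, Finset.mem_Icc, hA, Finset.mem_insert, not_or] at h1
    exact ⟨h1.2.2, h1.2.1, h1.1.1, h1.1.2⟩
  have f5 : ∀ u w, u ∉ T → w ∉ T → f' u = f' w → u = w := by
    intro u w hu hw huw
    rw [f2 u hu, f2 w hw] at huw
    have h1 := e.injective (Subtype.ext huw)
    exact congrArg Subtype.val h1
  have hfv : f' v = 0 := by rw [f1 v h.vS, h.fv]
  apply graceful_of_surj G f'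
  · intro u w huw
    by_cases hu : u ∈ T <;> by_cases hw : w ∈ T
    · rw [f1 u hu, f1 w hw] at huw
      exact h.inj (by exact_mod_cast hu) (by exact_mod_cast hw) huw
    · exfalso
      have h1 := f4 w hw
      by_cases huv : u = v
      · rw [huv, hfv] at huw; omega
      · apply h1.1
        rw [← huw, f1 u hu]
        exact Finset.mem_image.2 ⟨u, Finset.mem_erase.2 ⟨huv, hu⟩, rfl⟩
    · exfalso
      have h1 := f4 u hu
      by_cases hwv : w = v
      · rw [hwv, hfv] at huw; omega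
      · apply h1.1
        rw [huw, f1 w hw]
        exact Finset.mem_image.2 ⟨w, Finset.mem_erase.2 ⟨hwv, hw⟩, rfl⟩
    · exact f5 u w hu hw huw
  · intro u
    rw [hE]
    by_cases hu : u ∈ T
    · rw [f1 u hu]; exact hB u hu
    · exact (f4 u hu).2.2.2
  · intro d hd1 hd2
    rw [hE] at hd2
    by_cases hd : d ∈ A
    · rw [hA, Finset.mem_insert, Finset.mem_image] at hd
      rcases hd with hd | ⟨u, hu, hd⟩
      · obtain ⟨x, hx, y, hy, hxy, h1⟩ := h.d0cov
        exact ⟨x, y, hxy, by rw [f1 x hx, f1 y hy, h1, hd]⟩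
      · rw [Finset.mem_erase] at hu
        obtain ⟨x, hx, y, hy, hxy, h1⟩ := h.cov u hu.2 hu.1
        exact ⟨x, y, hxy, by rw [f1 x hx, f1 y hy, h1, hd]⟩
    · have hmem : d ∈ Finset.Icc 1 n \ A := by
        rw [Finset.mem_sdiff, Finset.mem_Icc]
        exact ⟨⟨hd1, hd2⟩, hd⟩
      set w := e.symm ⟨d, hmem⟩ with hw
      have hwT : (w : V) ∉ T := (Finset.mem_sdiff.1 w.2).2
      refine ⟨w, v, (hT _ hwT).symm, ?_⟩
      have h1 : f' (w : V) = d := by
        rw [f2 _ hwT]
        have h2 : (⟨(w : V), hmemW _ hwT⟩ : (Finset.univ \ T : Finset V)) = w := rfl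
        rw [h2, hw, Equiv.apply_symm_apply]
      rw [h1, hfv]
      omega

/-- adding leaves of a vertex `p` with prescribed labels `L` -/
theorem add_leaves {V : Type} [DecidableEq V] {f : V → ℕ}
    {S W : Finset V} {L : Finset ℕ} (hW : Disjoint W S) (hL : W.card = L.card)
    (hfL : ∀ u ∈ S, f u ∉ L) (hinj : Set.InjOn f S) :
    ∃ f' : V → ℕ, (∀ u ∈ S, f' u = f u) ∧ Set.InjOn f' (S ∪ W : Finset V) ∧
      (∀ w ∈ W, f' w ∈ L) ∧ (∀ l ∈ L, ∃ w ∈ W, f' w = l) := by
  classical
  let e : W ≃ L := Finset.equivOfCardEq hL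
  let f' : V → ℕ := fun u => if hu : u ∈ W then (e ⟨u, hu⟩ : ℕ) else f u
  have f1 : ∀ u ∈ S, f' u = f u := by
    intro u hu
    have h1 : u ∉ W := fun h => (Finset.disjoint_left.1 hW h) hu
    exact dif_neg h1
  have f2 : ∀ u (hu : u ∈ W), f' u = (e ⟨u, hu⟩ : ℕ) := fun u hu => dif_pos hu
  have f3 : ∀ u ∈ W, f' u ∈ L := by
    intro u hu
    rw [f2 u hu]
    exact (e ⟨u, hu⟩).2
  refine ⟨f', f1, ?_, f3, ?_⟩
  · intro u hu w hw huw
    simp only [Finset.coe_union, Set.mem_union, Finset.mem_coe] at hu hw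
    rcases hu with hu | hu <;> rcases hw with hw | hw
    · rw [f1 u hu, f1 w hw] at huw
      exact hinj (by exact_mod_cast hu) (by exact_mod_cast hw) huw
    · exfalso
      rw [f1 u hu] at huw
      exact hfL u hu (by rw [huw]; exact f3 w hw)
    · exfalso
      rw [f1 w hw] at huw
      exact hfL w hw (by rw [← huw]; exact f3 u hu)
    · rw [f2 u hu, f2 w hw] at huw
      have h1 := e.injective (Subtype.ext huw)
      exact congrArg Subtype.val h1
  · intro l hl
    refine ⟨e.symm ⟨l, hl⟩, (e.symm ⟨l, hl⟩).2, ?_⟩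
    rw [f2 _ (e.symm ⟨l, hl⟩).2]
    simp

end Pool.Agent.Helper67.Gr
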