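import Mathlib

/-!
# Generic splittings of a rooted tree

A rooted tree on `Fin k` is given by the root `v`, the parent function `par` and the depth `dep`.
The children of a vertex different from the root are paired by `σ` (with at most one fixed point).
We look for positive integers `g` with `g u + g (σ u) = g (par u)`.
-/

open Polynomial

namespace Pool.Agent.Helper67.Gr

/-- a rooted tree with paired children -/
structure Paired {K : Type*} (v : K) (par σ : K → K) (dep : K → ℕ) : Prop where
  dep_zero : ∀ u, dep u = 0 ↔ u = v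
  dep_par : ∀ u, u ≠ v → dep (par u) + 1 = dep u
  par_sig : ∀ u, u ≠ v → par u ≠ v → par (σ u) = par u
  sig_ne : ∀ u, u ≠ v → par u ≠ v → σ u ≠ v
  sig_sig : ∀ u, u ≠ v → par u ≠ v → σ (σ u) = u
  fix : ∀ u u', u ≠ v → u' ≠ v → par u ≠ v → par u = par u' → σ u = u → σ u' = u' → u = u'

namespace Paired

variable {K : Type*} {v : K} {par σ : K → K} {dep : K → ℕ} (H : Paired v par σ dep)
include H

theorem dep_iter (i : ℕ) (u : K) (hi : i ≤ dep u) : dep (par^[i] u) = dep u - i := by
  induction i with
  | zero => simp
  | succ i ih =>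
    rw [Function.iterate_succ_apply']
    have h1 := ih (by omega)
    have h2 : par^[i] u ≠ v := by
      intro h
      have := (H.dep_zero _).2 h
      omega
    have h3 := H.dep_par _ h2
    omega

/-- the ancestor of `u` at depth `d` -/
def anc (par : K → K) (dep : K → ℕ) (u : K) (d : ℕ) : K := par^[dep u - d] u

theorem dep_anc (u : K) (d : ℕ) (hd : d ≤ dep u) : dep (anc par dep u d) = d := by
  unfold anc
  rw [H.dep_iter _ _ (by omega)]
  omega

theorem anc_self (u : K) : anc par dep u (dep u) = u := by simp [anc]

theorem anc_zero (u : K) : anc par dep u 0 = v := by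
  have := H.dep_anc u 0 (Nat.zero_le _)
  exact (H.dep_zero _).1 this

theorem par_anc (u : K) (d : ℕ) (hd : d + 1 ≤ dep u) :
    par (anc par dep u (d + 1)) = anc par dep u d := by
  unfold anc
  rw [← Function.iterate_succ_apply' par]
  congr 1
  omega

/-- two vertices of the same depth: the first place where their ancestors differ -/
theorem exists_branch (u u' : K) (hd : dep u = dep u') (hne : u ≠ u') :
    ∃ e, 1 ≤ e ∧ e ≤ dep u ∧ anc par dep u e ≠ anc par dep u' e ∧
      par (anc par dep u e) = par (anc par dep u' e) := by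
  classical
  have hex : ∃ e, anc par dep u e ≠ anc par dep u' e := ⟨dep u, by
    rw [H.anc_self, hd, H.anc_self]; exact hne⟩
  have h1 := Nat.find_spec hex
  set e := Nat.find hex with he
  have h2 : 1 ≤ e := by
    by_contra h
    have h0 : e = 0 := by omega
    rw [h0, H.anc_zero, H.anc_zero] at h1
    exact h1 rfl
  have h3 : e ≤ dep u := by
    by_contra h
    refine Nat.find_min hex (m := dep u) (by omega) ?_
    rw [H.anc_self, hd, H.anc_self]
    exact hne
  refine ⟨e, h2, h3, h1, ?_⟩
  obtain ⟨d, hd'⟩ : ∃ d, e = d + 1 := ⟨e - 1, by omega⟩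
  have h4 : anc par dep u d = anc par dep u' d := by
    by_contra h
    exact Nat.find_min hex (m := d) (by omega) h
  rw [hd', H.par_anc u d (by omega), H.par_anc u' d (by omega), h4]

end Paired

section poly

variable {k : ℕ} {v : Fin k} {par σ : Fin k → Fin k} {dep : Fin k → ℕ}

/-- exponent of a vertex -/
def ex (v : Fin k) (par σ : Fin k → Fin k) (y : Fin k) : ℕ :=
  if par y = v then y.val + 1 else (min y (σ y)).val + 1

/-- sign of a vertex -/
def sg (v : Fin k) (par σ : Fin k → Fin k) (y : Fin k) : ℚ :=
  if par y = v then 1 else if σ y = y then 0 else if y < σ y then 1 else -1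

/-- increment of a vertex -/
noncomputable def De (v : Fin k) (par σ : Fin k → Fin k) (y : Fin k) : ℚ[X] :=
  (if par y = v then 1 else 0) + C (sg v par σ y) * X ^ ex v par σ y

/-- label polynomials -/
noncomputable def LP (v : Fin k) (par σ : Fin k → Fin k) (dep : Fin k → ℕ) (u : Fin k) : ℚ[X] :=
  ∑ i ∈ Finset.range (dep u), C ((1 / 2 : ℚ) ^ i) * De v par σ (par^[i] u)

variable (H : Paired v par σ dep)
include H

theorem LP_root : LP v par σ dep v = 0 := by
  have := (H.dep_zero v).2 rfl
  simp [LP, this]

theorem LP_rec (u : Fin k) (hu : u ≠ v) :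
    LP v par σ dep u = C (1 / 2 : ℚ) * LP v par σ dep (par u) + De v par σ u := by
  unfold LP
  rw [← H.dep_par u hu, Finset.sum_range_succ', Finset.mul_sum]
  congr 1
  · refine Finset.sum_congr rfl fun i _ => ?_
    rw [Function.iterate_succ_apply, pow_succ, C_mul]
    ring
  · simp

theorem De_add (u : Fin k) (hu : u ≠ v) (hp : par u ≠ v) :
    De v par σ u + De v par σ (σ u) = 0 := by
  have h1 := H.par_sig u hu hp
  have h2 := H.sig_sig u hu hp
  unfold De
  rw [h1, if_neg hp, zero_add, zero_add]
  have e1 : ex v par σ (σ u) = ex v par σ u := by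
    unfold ex
    rw [h1, if_neg hp, if_neg hp, h2, min_comm]
  have e2 : sg v par σ (σ u) = - sg v par σ u := by
    unfold sg
    rw [h1, if_neg hp, if_neg hp, h2]
    by_cases h3 : σ u = u
    · rw [if_pos h3, if_pos h3.symm, neg_zero]
    · rw [if_neg h3, if_neg (fun h => h3 h.symm)]
      rcases lt_or_gt_of_ne h3 with h4 | h4
      · rw [if_pos h4, if_neg (not_lt.2 h4.le), neg_neg]
      · rw [if_neg (not_lt.2 h4.le), if_pos h4]
  rw [e1, e2, C_neg]
  ring

theorem LP_split (u : Fin k) (hu : u ≠ v) (hp : par u ≠ v) :
    LP v par σ dep u + LP v par σ dep (σ u) = LP v par σ dep (par u) := by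
  rw [LP_rec H u hu, LP_rec H (σ u) (H.sig_ne u hu hp), H.par_sig u hu hp]
  have h1 := De_add H u hu hp
  have h2 : (C (1 / 2 : ℚ) : ℚ[X]) + C (1 / 2) = 1 := by
    rw [← C_add]; norm_num
  linear_combination h1 + (LP v par σ dep (par u)) * h2

theorem coeff_De_zero (y : Fin k) : (De v par σ y).coeff 0 = if par y = v then 1 else 0 := by
  unfold De
  have : ex v par σ y ≠ 0 := by unfold ex; split_ifs <;> omega
  rw [coeff_add, coeff_C_mul, coeff_X_pow, if_neg (Ne.symm this), mul_zero, add_zero]
  split_ifs <;> simp

/-- constant coefficient -/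
theorem coeff_LP_zero (u : Fin k) (hu : u ≠ v) :
    (LP v par σ dep u).coeff 0 = (1 / 2 : ℚ) ^ (dep u - 1) := by
  induction hn : dep u using Nat.strong_induction_on generalizing u with
  | _ n ih =>
    rw [LP_rec H u hu, coeff_add, coeff_C_mul, coeff_De_zero H]
    have h1 := H.dep_par u hu
    by_cases hp : par u = v
    · rw [if_pos hp, hp, LP_root H, coeff_zero, mul_zero, zero_add]
      have : dep (par u) = 0 := (H.dep_zero _).2 hp
      rw [show n - 1 = 0 by omega, pow_zero]
    · have h2 : dep (par u) ≠ 0 := fun h => hp ((H.dep_zero _).1 h)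
      rw [if_neg hp, add_zero, ih (dep (par u)) (by omega) (par u) hp rfl]
      obtain ⟨d, hd⟩ : ∃ d, dep (par u) = d + 1 := ⟨dep (par u) - 1, by omega⟩
      rw [hd, show n - 1 = d + 1 by omega, Nat.add_sub_cancel, pow_succ]
      ring

/-- coefficient of an increment at the exponent of another vertex -/
theorem coeff_De (x y : Fin k) (hx : x ≠ v) (hy : y ≠ v) (hy2 : par y = v ∨ σ y ≠ y)
    (hne : (De v par σ x).coeff (ex v par σ y) ≠ 0) : x = y ∨ (par y ≠ v ∧ x = σ y) := by
  have h0 : ex v par σ y ≠ 0 := by unfold ex; split_ifs <;> omega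
  have h1 : (if par x = v then (1 : ℚ[X]) else 0).coeff (ex v par σ y) = 0 := by
    split_ifs
    · rw [coeff_one, if_neg h0]
    · rw [coeff_zero]
  unfold De at hne
  rw [coeff_add, h1, zero_add, coeff_C_mul, coeff_X_pow] at hne
  have h2 : ex v par σ y = ex v par σ x := by
    by_contra h
    rw [if_neg h, mul_zero] at hne
    exact hne rfl
  have h3 : sg v par σ x ≠ 0 := by
    intro h
    rw [h, zero_mul] at hne
    exact hne rfl
  unfold ex at h2
  by_cases p1 : par y = v <;> by_cases p2 : par x = v
  · rw [if_pos p1, if_pos p2] at h2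
    left
    exact Fin.ext (by omega)
  · rw [if_pos p1, if_neg p2] at h2
    have h4 : y = min x (σ x) := Fin.ext (by omega)
    exfalso
    rcases min_choice x (σ x) with h5 | h5
    · rw [h5] at h4; rw [h4] at p1; exact p2 p1
    · rw [h5] at h4; rw [h4, H.par_sig x hx p2] at p1; exact p2 p1
  · rw [if_neg p1, if_pos p2] at h2
    have h4 : min y (σ y) = x := Fin.ext (by omega)
    exfalso
    rcases min_choice y (σ y) with h5 | h5
    · rw [h5] at h4; rw [← h4] at p2; exact p1 p2
    · rw [h5] at h4; rw [← h4, H.par_sig y hy p1] at p2; exact p1 p2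
  · rw [if_neg p1, if_neg p2] at h2
    have h4 : min y (σ y) = min x (σ x) := Fin.ext (by omega)
    have s1 := H.sig_sig x hx p2
    have s2 := H.sig_sig y hy p1
    rcases min_choice y (σ y) with h5 | h5 <;> rcases min_choice x (σ x) with h6 | h6 <;>
      rw [h5, h6] at h4
    · exact Or.inl h4.symm
    · right; exact ⟨p1, by rw [h4, s1]⟩
    · right; exact ⟨p1, h4.symm⟩
    · left
      rw [← s1, ← s2, h4]

theorem coeff_De_self (y : Fin k) (hy : y ≠ v) :
    (De v par σ y).coeff (ex v par σ y) = sg v par σ y := by
  have h0 : ex v par σ y ≠ 0 := by unfold ex; split_ifs <;> omega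
  have h1 : (if par y = v then (1 : ℚ[X]) else 0).coeff (ex v par σ y) = 0 := by
    split_ifs
    · rw [coeff_one, if_neg h0]
    · rw [coeff_zero]
  unfold De
  rw [coeff_add, h1, zero_add, coeff_C_mul, coeff_X_pow, if_pos rfl, mul_one]

theorem coeff_De_sig (y : Fin k) (hy : y ≠ v) (hp : par y ≠ v) :
    (De v par σ (σ y)).coeff (ex v par σ y) = - sg v par σ y := by
  have h1 := congrArg (fun p => coeff p (ex v par σ y)) (De_add H y hy hp)
  simp only [coeff_add, coeff_zero] at h1
  rw [coeff_De_self H y hy] at h1
  linarith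

/-- coefficient of a label polynomial at the exponent of a vertex -/
theorem coeff_LP (u y : Fin k) (hy : y ≠ v) (hy2 : par y = v ∨ σ y ≠ y) :
    (LP v par σ dep u).coeff (ex v par σ y) = if dep y ≤ dep u then
      (1 / 2 : ℚ) ^ (dep u - dep y) *
        (De v par σ (Paired.anc par dep u (dep y))).coeff (ex v par σ y) else 0 := by
  have hdy : dep y ≠ 0 := fun h => hy ((H.dep_zero y).1 h)
  have hdep : ∀ x, x ≠ v → (De v par σ x).coeff (ex v par σ y) ≠ 0 → dep x = dep y := by
    intro x hx h
    rcases coeff_De H x y hx hy hy2 h with h1 | ⟨h1, h2⟩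
    · rw [h1]
    · rw [h2, ← H.dep_par (σ y) (H.sig_ne y hy h1), H.par_sig y hy h1, H.dep_par y hy]
  unfold LP
  rw [finset_sum_coeff]
  simp only [coeff_C_mul]
  split_ifs with h
  · rw [Finset.sum_eq_single (dep u - dep y)]
    · rfl
    · intro i hi hne
      rw [Finset.mem_range] at hi
      by_contra hc
      have h1 : (De v par σ (par^[i] u)).coeff (ex v par σ y) ≠ 0 := right_ne_zero_of_mul hc
      have h3 := H.dep_iter i u hi.le
      have h2 : par^[i] u ≠ v := by
        intro h4
        have := (H.dep_zero _).2 h4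
        omega
      have := hdep _ h2 h1
      omega
    · intro h1
      rw [Finset.mem_range] at h1
      omega
  · apply Finset.sum_eq_zero
    intro i hi
    rw [Finset.mem_range] at hi
    by_contra hc
    have h1 : (De v par σ (par^[i] u)).coeff (ex v par σ y) ≠ 0 := right_ne_zero_of_mul hc
    have h3 := H.dep_iter i u hi.le
    have h2 : par^[i] u ≠ v := by
      intro h4
      have := (H.dep_zero _).2 h4
      omega
    have := hdep _ h2 h1
    omega

theorem sg_ne_zero (y : Fin k) (hy2 : par y = v ∨ σ y ≠ y) : sg v par σ y ≠ 0 := by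
  unfold sg
  split_ifs with h1 h2 h3
  · norm_num
  · exact absurd h2 (hy2.resolve_left h1)
  · norm_num
  · norm_num

/-- different vertices have different polynomials -/
theorem LP_inj (u u' : Fin k) (hne : u ≠ u') : LP v par σ dep u ≠ LP v par σ dep u' := by
  intro heq
  have hpow : ∀ n : ℕ, (1 / 2 : ℚ) ^ n ≠ 0 := fun n => by positivity
  by_cases hd : dep u = dep u'
  · obtain ⟨e, he1, he2, he3, he4⟩ := H.exists_branch u u' hd hne
    -- symmetric statement
    have key : ∀ x x' : Fin k, dep x = dep x' → e ≤ dep x →
        LP v par σ dep x = LP v par σ dep x' →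
        Paired.anc par dep x e ≠ Paired.anc par dep x' e →
        par (Paired.anc par dep x e) = v ∨
          σ (Paired.anc par dep x e) ≠ Paired.anc par dep x e → False := by
      intro x x' hdx hex hxx hne' hnf
      set y := Paired.anc par dep x e with hy
      set y' := Paired.anc par dep x' e with hy'
      have hdy : dep y = e := H.dep_anc x e hex
      have hdy' : dep y' = e := H.dep_anc x' e (by omega)
      have hyv : y ≠ v := by
        intro h
        have := (H.dep_zero _).2 h
        omega
      have hyv' : y' ≠ v := by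
        intro h
        have := (H.dep_zero _).2 h
        omega
      have c1 := coeff_LP H x y hyv hnf
      have c2 := coeff_LP H x' y hyv hnf
      rw [hdy] at c1 c2
      rw [if_pos hex, ← hy, coeff_De_self H y hyv] at c1
      rw [if_pos (by omega), ← hy'] at c2
      rw [hxx, c2, hdx] at c1
      have c3 := mul_left_cancel₀ (hpow _) c1
      have s0 := sg_ne_zero H y hnf
      have c4 : (De v par σ y').coeff (ex v par σ y) ≠ 0 := by rw [c3]; exact s0
      rcases coeff_De H y' y hyv' hyv hnf c4 with h1 | ⟨h1, h2⟩
      · exact hne' h1.symm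
      · rw [h2, coeff_De_sig H y hyv h1] at c3
        apply s0
        linarith
    set y := Paired.anc par dep u e with hy
    set y' := Paired.anc par dep u' e with hy'
    by_cases hnf : par y = v ∨ σ y ≠ y
    · exact key u u' hd he2 heq he3 hnf
    · push Not at hnf
      refine key u' u hd.symm (by omega) heq.symm he3.symm ?_
      by_contra hnf'
      push Not at hnf'
      have hdy : dep y = e := H.dep_anc u e he2
      have hdy' : dep y' = e := H.dep_anc u' e (by omega)
      have hyv : y ≠ v := by
        intro h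
        have := (H.dep_zero _).2 h
        omega
      have hyv' : y' ≠ v := by
        intro h
        have := (H.dep_zero _).2 h
        omega
      exact he3 (H.fix y y' hyv hyv' hnf.1 he4 hnf.2 hnf'.2)
  · have c : (LP v par σ dep u).coeff 0 = (LP v par σ dep u').coeff 0 := by rw [heq]
    by_cases h1 : u = v
    · have h2 : u' ≠ v := fun h => hne (h1.trans h.symm)
      rw [h1, LP_root H, coeff_LP_zero H u' h2, coeff_zero] at c
      exact hpow _ c.symm
    · by_cases h2 : u' = v
      · rw [h2, LP_root H, coeff_LP_zero H u h1, coeff_zero] at c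
        exact hpow _ c
      · rw [coeff_LP_zero H u h1, coeff_LP_zero H u' h2] at c
        have h3 : dep u ≠ 0 := fun h => h1 ((H.dep_zero _).1 h)
        have h4 : dep u' ≠ 0 := fun h => h2 ((H.dep_zero _).1 h)
        have h5 : dep u - 1 = dep u' - 1 :=
          (pow_right_injective₀ (by norm_num : (0 : ℚ) < 1 / 2) (by norm_num)) c
        omega

end poly

end Pool.Agent.Helper67.Gr
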