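import Mathlib
import Pool.Agent.Helper67.Gr.Split

/-!
# Generic splittings of a rooted tree, numerical form
-/

open Polynomial

namespace Pool.Agent.Helper67.Gr

section poly

variable {k : ℕ} {v : Fin k} {par σ : Fin k → Fin k} {dep : Fin k → ℕ}

theorem coeff_cases (H : Paired v par σ dep) (c x : Fin k) (hc : c ≠ v)
    (hc2 : par c = v ∨ σ c ≠ c) :
    (LP v par σ dep x).coeff (ex v par σ c) = 0 ∨
    (∃ t : ℕ, (LP v par σ dep x).coeff (ex v par σ c) = (1 / 2 : ℚ) ^ t * sg v par σ c) ∨
    (par c ≠ v ∧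
      ∃ t : ℕ, (LP v par σ dep x).coeff (ex v par σ c) = - ((1 / 2 : ℚ) ^ t * sg v par σ c)) := by
  rw [coeff_LP H x c hc hc2]
  split_ifs with h
  · set y := Paired.anc par dep x (dep c) with hy
    by_cases h0 : (De v par σ y).coeff (ex v par σ c) = 0
    · left; rw [h0, mul_zero]
    · right
      have hyv : y ≠ v := by
        intro h1
        have h2 : dep y = dep c := H.dep_anc x _ h
        have h3 := (H.dep_zero _).2 h1
        have h4 : dep c ≠ 0 := fun h => hc ((H.dep_zero c).1 h)
        omega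
      rcases coeff_De H y c hyv hc hc2 h0 with h1 | ⟨h1, h2⟩
      · left
        exact ⟨_, by rw [h1, coeff_De_self H c hc]⟩
      · right
        exact ⟨h1, _, by rw [h2, coeff_De_sig H c hc h1, mul_neg]⟩
  · left; rfl

theorem coeff_below (H : Paired v par σ dep) (c a : Fin k) (hc : c ≠ v)
    (hc2 : par c = v ∨ σ c ≠ c) (hd : dep c ≤ dep a) (ha : Paired.anc par dep a (dep c) = c) :
    (LP v par σ dep a).coeff (ex v par σ c) = (1 / 2 : ℚ) ^ (dep a - dep c) * sg v par σ c := by
  rw [coeff_LP H a c hc hc2, if_pos hd, ha, coeff_De_self H c hc]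

/-- the configuration of the two ends of the extra edge -/
structure Ends {K : Type*} (v : K) (par σ : K → K) (dep : K → ℕ) (a b c c' : K) :
    Prop where
  cv : c ≠ v
  cv' : c' ≠ v
  ne : c ≠ c'
  par_eq : par c = par c'
  dep_eq : dep c = dep c'
  sig : par c ≠ v → σ c = c'
  da : dep c ≤ dep a
  db : dep c ≤ dep b
  ha : Paired.anc par dep a (dep c) = c
  hb : Paired.anc par dep b (dep c) = c'
  d1 : dep a ≤ dep b + 1
  d2 : dep b ≤ dep a + 1

theorem Ends.symm (H : Paired v par σ dep) {a b c c' : Fin k} (h : Ends v par σ dep a b c c') :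
    Ends v par σ dep b a c' c where
  cv := h.cv'
  cv' := h.cv
  ne := h.ne.symm
  par_eq := h.par_eq.symm
  dep_eq := h.dep_eq.symm
  sig := fun hp => by
    rw [← h.par_eq] at hp
    rw [← h.sig hp, H.sig_sig c h.cv hp]
  da := h.dep_eq ▸ h.db
  db := h.dep_eq ▸ h.da
  ha := h.dep_eq ▸ h.hb
  hb := h.dep_eq ▸ h.ha
  d1 := h.d2
  d2 := h.d1

theorem Ends.a_ne_b {a b c c' : Fin k} (h : Ends v par σ dep a b c c') : a ≠ b := by
  intro hab
  have h1 := h.ha
  have h2 := h.hb
  rw [← hab] at h2
  exact h.ne (h1.symm.trans h2)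

theorem pow_ne (s t : ℕ) (x : ℚ) (hx : x = 1 ∨ x = -1) :
    (1 / 2 : ℚ) ^ (s + 1) + (1 / 2 : ℚ) ^ s ≠ x * (1 / 2 : ℚ) ^ t := by
  intro h
  have h1 : x = 1 := by
    rcases hx with h1 | h1
    · exact h1
    · exfalso
      rw [h1] at h
      have p1 : (0 : ℚ) < (1 / 2) ^ (s + 1) := by positivity
      have p2 : (0 : ℚ) < (1 / 2) ^ s := by positivity
      have p3 : (0 : ℚ) < (1 / 2) ^ t := by positivity
      linarith
  rw [h1, one_mul] at h
  have h2 : (3 : ℚ) * 2 ^ t = 2 ^ (s + 1) := by
    have p2 : (2 : ℚ) ^ (s + 1) ≠ 0 := by positivity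
    have p3 : (2 : ℚ) ^ t ≠ 0 := by positivity
    rw [one_div, inv_pow, inv_pow, inv_pow] at h
    have h3 : ((2 : ℚ) ^ s)⁻¹ = 2 * ((2 : ℚ) ^ (s + 1))⁻¹ := by
      rw [pow_succ, mul_inv]
      field_simp
    rw [h3] at h
    field_simp at h
    linarith
  have h4 : 3 * 2 ^ t = 2 ^ (s + 1) := by exact_mod_cast h2
  have h5 : 3 ∣ 2 ^ (s + 1) := ⟨_, h4.symm⟩
  have h6 := Nat.Prime.dvd_of_dvd_pow Nat.prime_three h5
  omega

theorem LP_ends (H : Paired v par σ dep) {a b c c' : Fin k} (h : Ends v par σ dep a b c c')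
    (x : Fin k) : LP v par σ dep a ≠ LP v par σ dep b + LP v par σ dep x := by
  intro heq
  have hcoe : ∀ i, (LP v par σ dep a).coeff i =
      (LP v par σ dep b).coeff i + (LP v par σ dep x).coeff i := by
    intro i; rw [heq, coeff_add]
  by_cases hp : par c = v
  · -- the two subtrees hang at the root
    have hp' : par c' = v := by rw [← h.par_eq]; exact hp
    have h' := h.symm H
    have e1 := hcoe (ex v par σ c')
    rw [coeff_below H c' b h.cv' (Or.inl hp') h'.da h'.ha] at e1
    have s1 : sg v par σ c' = 1 := by unfold sg; rw [if_pos hp']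
    rw [s1] at e1
    have e2 : (LP v par σ dep a).coeff (ex v par σ c') = 0 := by
      rw [coeff_LP H a c' h.cv' (Or.inl hp')]
      split_ifs with h1
      · rw [← h.dep_eq, h.ha]
        have : (De v par σ c).coeff (ex v par σ c') = 0 := by
          by_contra h2
          rcases coeff_De H c c' h.cv h.cv' (Or.inl hp') h2 with h3 | ⟨h3, _⟩
          · exact h.ne h3
          · exact h3 hp'
        rw [this, mul_zero]
      · rfl
    rw [e2] at e1
    have p1 : (0 : ℚ) < (1 / 2) ^ (dep b - dep c') := by positivity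
    rcases coeff_cases H c' x h.cv' (Or.inl hp') with h3 | ⟨t, h3⟩ | ⟨h3, _⟩
    · rw [h3] at e1
      linarith
    · rw [h3, s1] at e1
      have p2 : (0 : ℚ) < (1 / 2) ^ t := by positivity
      linarith
    · exact h3 hp'
  · -- the two subtrees hang at another vertex
    have hs := h.sig hp
    have hc2 : par c = v ∨ σ c ≠ c := Or.inr (by rw [hs]; exact h.ne.symm)
    have s0 := sg_ne_zero H c hc2
    have e1 := hcoe (ex v par σ c)
    rw [coeff_below H c a h.cv hc2 h.da h.ha] at e1
    have e2 : (LP v par σ dep b).coeff (ex v par σ c) =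
        - ((1 / 2 : ℚ) ^ (dep b - dep c) * sg v par σ c) := by
      rw [coeff_LP H b c h.cv hc2, if_pos h.db, h.hb, ← hs, coeff_De_sig H c h.cv hp, mul_neg]
    rw [e2] at e1
    -- unify the value at `x`
    obtain ⟨z, t, hz, h3⟩ : ∃ (z : ℚ) (t : ℕ), (z = 0 ∨ z = 1 ∨ z = -1) ∧
        (LP v par σ dep x).coeff (ex v par σ c) = z * (1 / 2 : ℚ) ^ t * sg v par σ c := by
      rcases coeff_cases H c x h.cv hc2 with h3 | ⟨t, h3⟩ | ⟨_, t, h3⟩
      · exact ⟨0, 0, Or.inl rfl, by rw [h3]; ring⟩
      · exact ⟨1, t, Or.inr (Or.inl rfl), by rw [h3]; ring⟩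
      · exact ⟨-1, t, Or.inr (Or.inr rfl), by rw [h3]; ring⟩
    rw [h3] at e1
    have e3 : (1 / 2 : ℚ) ^ (dep a - dep c) + (1 / 2 : ℚ) ^ (dep b - dep c) =
        z * (1 / 2 : ℚ) ^ t := by
      have : ((1 / 2 : ℚ) ^ (dep a - dep c) + (1 / 2 : ℚ) ^ (dep b - dep c)) * sg v par σ c =
        (z * (1 / 2 : ℚ) ^ t) * sg v par σ c := by linarith
      exact mul_right_cancel₀ s0 this
    have pa : (0 : ℚ) < (1 / 2) ^ (dep a - dep c) := by positivity
    have pb : (0 : ℚ) < (1 / 2) ^ (dep b - dep c) := by positivity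
    have da := h.da
    have db := h.db
    have d1 := h.d1
    have d2 := h.d2
    rcases hz with hz | hz
    · rw [hz, zero_mul] at e3
      linarith
    · rcases Nat.lt_trichotomy (dep a) (dep b) with h4 | h4 | h4
      · rw [show dep b - dep c = (dep a - dep c) + 1 by omega, add_comm] at e3
        exact pow_ne _ _ _ hz e3
      · have av : a ≠ v := by
          intro h5
          have h6 := (H.dep_zero _).2 h5
          exact h.cv ((H.dep_zero c).1 (by omega))
        have bv : b ≠ v := by
          intro h5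
          have h6 := (H.dep_zero _).2 h5
          exact h.cv ((H.dep_zero c).1 (by omega))
        by_cases hx : x = v
        · rw [hx, LP_root H, add_zero] at heq
          exact LP_inj H a b h.a_ne_b heq
        · have e4 := hcoe 0
          rw [coeff_LP_zero H a av, coeff_LP_zero H b bv, coeff_LP_zero H x hx, h4] at e4
          have p3 : (0 : ℚ) < (1 / 2) ^ (dep x - 1) := by positivity
          linarith
      · rw [show dep a - dep c = (dep b - dep c) + 1 by omega] at e3
        exact pow_ne _ _ _ hz e3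

/-- a rational point where finitely many nonzero polynomials do not vanish -/
theorem exists_eta {ι κ : Type*} [Finite ι] [Finite κ] (P : ι → ℚ[X]) (Q : κ → ℚ[X])
    (hP : ∀ i, 0 < (P i).coeff 0) (hQ : ∀ j, Q j ≠ 0) :
    ∃ η : ℚ, (∀ i, 0 < (P i).eval η) ∧ (∀ j, (Q j).eval η ≠ 0) := by
  have hlim : Filter.Tendsto (fun n : ℕ => (1 : ℚ) / ((n : ℚ) + 1)) Filter.atTop (nhds 0) :=
    tendsto_one_div_add_atTop_nhds_zero_nat
  have h1 : ∀ i, ∀ᶠ n : ℕ in Filter.atTop, 0 < (P i).eval ((1 : ℚ) / ((n : ℚ) + 1)) := by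
    intro i
    have h2 : Filter.Tendsto (fun n : ℕ => (P i).eval ((1 : ℚ) / ((n : ℚ) + 1))) Filter.atTop
        (nhds ((P i).eval 0)) := ((P i).continuous.tendsto 0).comp hlim
    have h3 : 0 < (P i).eval 0 := by
      rw [← coeff_zero_eq_eval_zero]
      exact hP i
    exact h2.eventually (lt_mem_nhds h3)
  have hinj : Function.Injective (fun n : ℕ => (1 : ℚ) / ((n : ℚ) + 1)) := by
    intro m n h
    have h' : (1 : ℚ) / ((m : ℚ) + 1) = 1 / ((n : ℚ) + 1) := h
    rw [one_div, one_div, inv_inj] at h'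
    have : (m : ℚ) = n := by linarith
    exact_mod_cast this
  have h4 : ∀ j, ∀ᶠ n : ℕ in Filter.atTop, (Q j).eval ((1 : ℚ) / ((n : ℚ) + 1)) ≠ 0 := by
    intro j
    rw [← Nat.cofinite_eq_atTop]
    rw [Filter.eventually_cofinite]
    have h5 : {n : ℕ | ¬ (Q j).eval ((1 : ℚ) / ((n : ℚ) + 1)) ≠ 0} ⊆
        (fun n : ℕ => (1 : ℚ) / ((n : ℚ) + 1)) ⁻¹' ((Q j).roots.toFinset : Set ℚ) := by
      intro n hn
      simp only [ne_eq, not_not, Set.mem_setOf_eq] at hn
      simp only [Set.mem_preimage, Finset.mem_coe, Multiset.mem_toFinset]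
      rw [mem_roots (hQ j)]
      exact hn
    exact Set.Finite.subset (Set.Finite.preimage hinj.injOn (Finset.finite_toSet _)) h5
  have h6 : ∀ᶠ n : ℕ in Filter.atTop, ∀ i, 0 < (P i).eval ((1 : ℚ) / ((n : ℚ) + 1)) :=
    Filter.eventually_all.2 h1
  have h7 : ∀ᶠ n : ℕ in Filter.atTop, ∀ j, (Q j).eval ((1 : ℚ) / ((n : ℚ) + 1)) ≠ 0 :=
    Filter.eventually_all.2 h4
  obtain ⟨n, h8, h9⟩ := (h6.and h7).exists
  exact ⟨_, h8, h9⟩

/-- clearing denominators -/
theorem exists_denom {ι : Type*} [Fintype ι] (q : ι → ℚ) :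
    ∃ N : ℕ, 0 < N ∧ ∀ i, ∃ z : ℤ, (N : ℚ) * q i = z := by
  classical
  refine ⟨∏ i, (q i).den, Finset.prod_pos fun i _ => (q i).pos, fun i => ?_⟩
  rw [← Finset.mul_prod_erase Finset.univ (fun i => (q i).den) (Finset.mem_univ i)]
  refine ⟨(q i).num * (∏ j ∈ Finset.univ.erase i, (q j).den : ℕ), ?_⟩
  have h1 : ((q i).den : ℚ) * q i = (q i).num := Rat.den_mul_eq_num (q i)
  push_cast
  linear_combination (∏ j ∈ Finset.univ.erase i, ((q j).den : ℚ)) * h1

/-- the required integer labels -/
structure Good {K : Type*} (v : K) (par σ : K → K) (a b : K) (g : K → ℕ) : Prop where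
  root : g v = 0
  pos : ∀ u, u ≠ v → 0 < g u
  inj : Function.Injective g
  split : ∀ u, u ≠ v → par u ≠ v → g u + g (σ u) = g (par u)
  ab : ∀ x, g a ≠ g b + g x
  ba : ∀ x, g b ≠ g a + g x

theorem exists_good (H : Paired v par σ dep) {a b c c' : Fin k} (h : Ends v par σ dep a b c c') :
    ∃ g, Good v par σ a b g := by
  classical
  obtain ⟨η, h1, h2⟩ := exists_eta (ι := {u : Fin k // u ≠ v})
    (κ := {p : Fin k × Fin k // p.1 ≠ p.2} ⊕ (Fin k ⊕ Fin k))
    (fun u => LP v par σ dep u.1)
    (fun j => match j with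
      | Sum.inl p => LP v par σ dep p.1.1 - LP v par σ dep p.1.2
      | Sum.inr (Sum.inl x) => LP v par σ dep a - (LP v par σ dep b + LP v par σ dep x)
      | Sum.inr (Sum.inr x) => LP v par σ dep b - (LP v par σ dep a + LP v par σ dep x))
    (by
      intro u
      rw [coeff_LP_zero H u.1 u.2]
      positivity)
    (by
      rintro (p | x | x)
      · exact sub_ne_zero.2 (LP_inj H _ _ p.2)
      · exact sub_ne_zero.2 (LP_ends H h x)
      · exact sub_ne_zero.2 (LP_ends H (h.symm H) x))
  obtain ⟨N, hN, hz⟩ := exists_denom (fun u => (LP v par σ dep u).eval η)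
  choose z hz using hz
  have hNq : (0 : ℚ) < N := by exact_mod_cast hN
  have hNq0 : (N : ℚ) ≠ 0 := hNq.ne'
  have hroot : z v = 0 := by
    have := hz v
    rw [LP_root H, eval_zero, mul_zero] at this
    exact_mod_cast this.symm
  have hpos : ∀ u, u ≠ v → 0 < z u := by
    intro u hu
    have h3 := h1 ⟨u, hu⟩
    have h4 : (0 : ℚ) < z u := by rw [← hz u]; exact mul_pos hNq h3
    exact_mod_cast h4
  have hnn : ∀ u, 0 ≤ z u := by
    intro u
    by_cases hu : u = v
    · rw [hu, hroot]
    · exact (hpos u hu).le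
  have hcast : ∀ u, ((z u).toNat : ℤ) = z u := fun u => Int.toNat_of_nonneg (hnn u)
  have htr : ∀ u w, (z u : ℚ) = z w → (LP v par σ dep u).eval η = (LP v par σ dep w).eval η := by
    intro u w h3
    rw [← hz u, ← hz w] at h3
    exact mul_left_cancel₀ hNq0 h3
  refine ⟨fun u => (z u).toNat, ?_, ?_, ?_, ?_, ?_, ?_⟩
  · change (z v).toNat = 0
    rw [hroot]; rfl
  · intro u hu
    have := hpos u hu
    change 0 < (z u).toNat
    omega
  · intro u w huw
    by_contra hne
    have h3 : z u = z w := by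
      have h4 : (z u).toNat = (z w).toNat := huw
      rw [← hcast u, ← hcast w, h4]
    have h5 := htr u w (by exact_mod_cast h3)
    have h6 := h2 (Sum.inl ⟨(u, w), hne⟩)
    apply h6
    change (LP v par σ dep u - LP v par σ dep w).eval η = 0
    rw [eval_sub, h5, sub_self]
  · intro u hu hp
    change (z u).toNat + (z (σ u)).toNat = (z (par u)).toNat
    have h3 : (z u : ℚ) + z (σ u) = z (par u) := by
      rw [← hz, ← hz, ← hz, ← mul_add, ← eval_add, LP_split H u hu hp]
    have h4 : z u + z (σ u) = z (par u) := by exact_mod_cast h3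
    have := hcast u
    have := hcast (σ u)
    have := hcast (par u)
    omega
  · intro x hx
    have h3 : z a = z b + z x := by
      have h4 : (z a).toNat = (z b).toNat + (z x).toNat := hx
      have := hcast a
      have := hcast b
      have := hcast x
      omega
    have h4 : (z a : ℚ) = z b + z x := by exact_mod_cast h3
    rw [← hz, ← hz, ← hz, ← mul_add] at h4
    have h5 := mul_left_cancel₀ hNq0 h4
    apply h2 (Sum.inr (Sum.inl x))
    change (LP v par σ dep a - (LP v par σ dep b + LP v par σ dep x)).eval η = 0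
    rw [eval_sub, eval_add, h5, sub_self]
  · intro x hx
    have h3 : z b = z a + z x := by
      have h4 : (z b).toNat = (z a).toNat + (z x).toNat := hx
      have := hcast a
      have := hcast b
      have := hcast x
      omega
    have h4 : (z b : ℚ) = z a + z x := by exact_mod_cast h3
    rw [← hz, ← hz, ← hz, ← mul_add] at h4
    have h5 := mul_left_cancel₀ hNq0 h4
    apply h2 (Sum.inr (Sum.inr x))
    change (LP v par σ dep b - (LP v par σ dep a + LP v par σ dep x)).eval η = 0
    rw [eval_sub, eval_add, h5, sub_self]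

end poly

/-- uniform version -/
theorem split_bound (m : ℕ) : ∃ D : ℕ, ∀ k ≤ m, ∀ (v : Fin k) (par σ : Fin k → Fin k)
    (a b : Fin k), (∃ g, Good v par σ a b g) → ∃ g, Good v par σ a b g ∧ ∀ u, g u ≤ D := by
  classical
  have h1 : ∀ k : ℕ, ∃ D : ℕ, ∀ (v : Fin k) (par σ : Fin k → Fin k)
      (a b : Fin k), (∃ g, Good v par σ a b g) → ∃ g, Good v par σ a b g ∧ ∀ u, g u ≤ D := by
    intro k
    let T := Fin k × (Fin k → Fin k) × (Fin k → Fin k) × Fin k × Fin k
    let G : T → (Fin k → ℕ) := fun t =>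
      if h : ∃ g, Good t.1 t.2.1 t.2.2.1 t.2.2.2.1 t.2.2.2.2 g then h.choose else fun _ => 0
    refine ⟨∑ t : T, ∑ u, G t u, fun v par σ a b h => ?_⟩
    have e : G (v, par, σ, a, b) = h.choose := dif_pos h
    refine ⟨G (v, par, σ, a, b), by rw [e]; exact h.choose_spec, fun u => ?_⟩
    calc G (v, par, σ, a, b) u ≤ ∑ w, G (v, par, σ, a, b) w :=
          Finset.single_le_sum (f := fun w => G (v, par, σ, a, b) w)
            (fun _ _ => Nat.zero_le _) (Finset.mem_univ u)
      _ ≤ _ := Finset.single_le_sum (f := fun t : T => ∑ w, G t w)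
            (fun _ _ => Nat.zero_le _) (Finset.mem_univ (v, par, σ, a, b))
  choose D hD using h1
  refine ⟨∑ k ∈ Finset.range (m + 1), D k, fun k hk v par σ a b h => ?_⟩
  obtain ⟨g, h2, h3⟩ := hD k v par σ a b h
  refine ⟨g, h2, fun u => (h3 u).trans ?_⟩
  exact Finset.single_le_sum (f := D) (fun _ _ => Nat.zero_le _)
    (Finset.mem_range.2 (by omega))

/-- the numerical splitting, for an arbitrary finite type -/
theorem split_type (m : ℕ) : ∃ D : ℕ, ∀ (K : Type) [Fintype K], Fintype.card K ≤ m →
    ∀ (v : K) (par σ : K → K) (dep : K → ℕ) (a b c c' : K), Paired v par σ dep →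
      Ends v par σ dep a b c c' → ∃ g, Good v par σ a b g ∧ ∀ u, g u ≤ D := by
  obtain ⟨D, hD⟩ := split_bound m
  refine ⟨D, fun K _ hK v par σ dep a b c c' H h => ?_⟩
  set k := Fintype.card K with hk
  let e : K ≃ Fin k := Fintype.equivFin K
  let par' : Fin k → Fin k := fun x => e (par (e.symm x))
  let σ' : Fin k → Fin k := fun x => e (σ (e.symm x))
  let dep' : Fin k → ℕ := fun x => dep (e.symm x)
  have hit : ∀ (i : ℕ) (x : Fin k), par'^[i] x = e (par^[i] (e.symm x)) := by
    intro i
    induction i with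
    | zero => intro x; simp
    | succ i ih =>
      intro x
      rw [Function.iterate_succ_apply, ih, Function.iterate_succ_apply]
      simp [par']
  have hanc : ∀ (x : K) (d : ℕ), Paired.anc par' dep' (e x) d = e (Paired.anc par dep x d) := by
    intro x d
    unfold Paired.anc
    rw [hit]
    simp [dep']
  have H' : Paired (e v) par' σ' dep' := by
    refine ⟨?_, ?_, ?_, ?_, ?_, ?_⟩
    · intro u
      simp only [dep']
      rw [H.dep_zero, Equiv.symm_apply_eq]
    · intro u hu
      have h1 : e.symm u ≠ v := fun h => hu (by rw [← h, Equiv.apply_symm_apply])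
      have h2 := H.dep_par _ h1
      simpa [dep', par'] using h2
    · intro u hu hp
      have h1 : e.symm u ≠ v := fun h => hu (by rw [← h, Equiv.apply_symm_apply])
      have h2 : par (e.symm u) ≠ v := fun h => hp (by simp only [par']; rw [h])
      have h3 := H.par_sig _ h1 h2
      simp only [par', σ', Equiv.symm_apply_apply]
      rw [h3]
    · intro u hu hp
      have h1 : e.symm u ≠ v := fun h => hu (by rw [← h, Equiv.apply_symm_apply])
      have h2 : par (e.symm u) ≠ v := fun h => hp (by simp only [par']; rw [h])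
      have h3 := H.sig_ne _ h1 h2
      intro h4
      exact h3 (e.injective h4)
    · intro u hu hp
      have h1 : e.symm u ≠ v := fun h => hu (by rw [← h, Equiv.apply_symm_apply])
      have h2 : par (e.symm u) ≠ v := fun h => hp (by simp only [par']; rw [h])
      have h3 := H.sig_sig _ h1 h2
      simp only [σ', Equiv.symm_apply_apply]
      rw [h3, Equiv.apply_symm_apply]
    · intro u u' hu hu' hp hpp hf hf'
      have h1 : e.symm u ≠ v := fun h => hu (by rw [← h, Equiv.apply_symm_apply])
      have h1' : e.symm u' ≠ v := fun h => hu' (by rw [← h, Equiv.apply_symm_apply])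
      have h2 : par (e.symm u) ≠ v := fun h => hp (by simp only [par']; rw [h])
      have h3 : par (e.symm u) = par (e.symm u') := e.injective hpp
      have h4 : σ (e.symm u) = e.symm u := by
        rw [Equiv.eq_symm_apply]; exact hf
      have h5 : σ (e.symm u') = e.symm u' := by
        rw [Equiv.eq_symm_apply]; exact hf'
      exact e.symm.injective (H.fix _ _ h1 h1' h2 h3 h4 h5)
  have E' : Ends (e v) par' σ' dep' (e a) (e b) (e c) (e c') := by
    refine ⟨?_, ?_, ?_, ?_, ?_, ?_, ?_, ?_, ?_, ?_, ?_, ?_⟩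
    · exact fun h1 => h.cv (e.injective h1)
    · exact fun h1 => h.cv' (e.injective h1)
    · exact fun h1 => h.ne (e.injective h1)
    · simp only [par', Equiv.symm_apply_apply]; rw [h.par_eq]
    · simp only [dep', Equiv.symm_apply_apply]; exact h.dep_eq
    · intro hp
      have h1 : par c ≠ v := fun h2 => hp (by simp only [par', Equiv.symm_apply_apply]; rw [h2])
      simp only [σ', Equiv.symm_apply_apply]; rw [h.sig h1]
    · simp only [dep', Equiv.symm_apply_apply]; exact h.da
    · simp only [dep', Equiv.symm_apply_apply]; exact h.db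
    · rw [hanc]
      simp only [dep', Equiv.symm_apply_apply]; rw [h.ha]
    · rw [hanc]
      simp only [dep', Equiv.symm_apply_apply]; rw [h.hb]
    · simp only [dep', Equiv.symm_apply_apply]; exact h.d1
    · simp only [dep', Equiv.symm_apply_apply]; exact h.d2
  obtain ⟨g, hg, hgD⟩ := hD k hK (e v) par' σ' (e a) (e b) (exists_good H' E')
  refine ⟨fun x => g (e x), ⟨hg.root, ?_, ?_, ?_, ?_, ?_⟩, fun u => hgD _⟩
  · intro u hu
    exact hg.pos _ (fun h => hu (e.injective h))
  · exact hg.inj.comp e.injective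
  · intro u hu hp
    have h1 := hg.split (e u) (fun h => hu (e.injective h)) (by
      simp only [par', Equiv.symm_apply_apply]
      exact fun h => hp (e.injective h))
    simpa [par', σ'] using h1
  · intro x; exact hg.ab (e x)
  · intro x; exact hg.ba (e x)

/-- a pairing of a finite set, at most one element is left alone -/
def IsPairing {K : Type*} (S : Finset K) (τ : K → K) : Prop :=
  (∀ x ∈ S, τ x ∈ S ∧ τ (τ x) = x) ∧ ∀ x ∈ S, ∀ y ∈ S, τ x = x → τ y = y → x = y

theorem pairing_add {K : Type*} [DecidableEq K] (S : Finset K) (c c' : K) (hc : c ∈ S)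
    (hc' : c' ∈ S) (hne : c ≠ c') (τ : K → K) (h : IsPairing ((S.erase c).erase c') τ) :
    ∃ τ', IsPairing S τ' ∧ τ' c = c' := by
  obtain ⟨h1, h2⟩ := h
  have hne' : c' ≠ c := hne.symm
  refine ⟨fun x => if x = c then c' else if x = c' then c else τ x, ⟨?_, ?_⟩, ?_⟩
  · intro x hx
    by_cases e1 : x = c
    · subst e1
      simp [hne', hc']
    · by_cases e2 : x = c'
      · subst e2
        simp [hne', hc]
      · have h3 := h1 x (by simp [e1, e2, hx])
        have h4 : τ x ∈ S ∧ τ x ≠ c ∧ τ x ≠ c' := by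
          have := h3.1
          simp only [Finset.mem_erase] at this
          exact ⟨this.2.2, this.2.1, this.1⟩
        simp [e1, e2, h4.1, h4.2.1, h4.2.2, h3.2]
  · intro x hx y hy
    by_cases e1 : x = c
    · subst e1
      simp only [if_true]
      intro h3
      exact absurd h3 hne'
    · by_cases e2 : x = c'
      · subst e2
        simp only [if_neg e1, if_true]
        intro h3
        exact absurd h3 hne
      · simp only [if_neg e1, if_neg e2]
        by_cases e3 : y = c
        · subst e3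
          simp only [if_true]
          intro _ h3
          exact absurd h3 hne'
        · by_cases e4 : y = c'
          · subst e4
            simp only [if_neg e3, if_true]
            intro _ h3
            exact absurd h3 hne
          · simp only [if_neg e3, if_neg e4]
            exact h2 x (by simp [e1, e2, hx]) y (by simp [e3, e4, hy])
  · simp

theorem exists_pairing {K : Type*} [DecidableEq K] (S : Finset K) : ∃ τ, IsPairing S τ := by
  induction S using Finset.strongInduction with
  | _ S ih =>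
    by_cases h : S.card ≤ 1
    · refine ⟨id, fun x hx => ⟨hx, rfl⟩, fun x hx y hy _ _ => ?_⟩
      exact Finset.card_le_one.1 h x hx y hy
    · push Not at h
      obtain ⟨c, hc, c', hc', hne⟩ := Finset.one_lt_card.1 h
      obtain ⟨τ, hτ⟩ := ih ((S.erase c).erase c')
        (lt_of_le_of_lt (Finset.erase_subset _ _) (Finset.erase_ssubset hc))
      obtain ⟨τ', h1, _⟩ := pairing_add S c c' hc hc' hne τ hτ
      exact ⟨τ', h1⟩

theorem exists_pairing_with {K : Type*} [DecidableEq K] (S : Finset K) (c c' : K) (hc : c ∈ S)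
    (hc' : c' ∈ S) (hne : c ≠ c') : ∃ τ, IsPairing S τ ∧ τ c = c' := by
  obtain ⟨τ, hτ⟩ := exists_pairing ((S.erase c).erase c')
  exact pairing_add S c c' hc hc' hne τ hτ

/-- the children can be paired -/
theorem exists_sigma {K : Type*} [Fintype K] [DecidableEq K] (v : K) (par : K → K) (dep : K → ℕ)
    (h1 : ∀ u, dep u = 0 ↔ u = v) (h2 : ∀ u, u ≠ v → dep (par u) + 1 = dep u)
    (c c' : K) (hc : c ≠ v) (hc' : c' ≠ v) (hne : c ≠ c') (hp : par c = par c') :
    ∃ σ, Paired v par σ dep ∧ σ c = c' := by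
  classical
  have hex : ∀ p : K, ∃ τ, IsPairing (Finset.univ.filter (fun u => u ≠ v ∧ par u = p)) τ ∧
      (par c = p → τ c = c') := by
    intro p
    by_cases h : par c = p
    · obtain ⟨τ, h3, h4⟩ := exists_pairing_with
        (Finset.univ.filter (fun u => u ≠ v ∧ par u = p)) c c' (by simp [hc, h])
        (by simp [hc', ← hp, h]) hne
      exact ⟨τ, h3, fun _ => h4⟩
    · obtain ⟨τ, h3⟩ := exists_pairing (Finset.univ.filter (fun u => u ≠ v ∧ par u = p))
      exact ⟨τ, h3, fun h4 => absurd h4 h⟩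
  choose τ hτ1 hτ2 using hex
  have key : ∀ u, u ≠ v → τ (par u) u ≠ v ∧ par (τ (par u) u) = par u ∧
      τ (par u) (τ (par u) u) = u := by
    intro u hu
    have h3 := (hτ1 (par u)).1 u (by simp [hu])
    have h4 := h3.1
    simp only [Finset.mem_filter, Finset.mem_univ, true_and] at h4
    exact ⟨h4.1, h4.2, h3.2⟩
  refine ⟨fun u => τ (par u) u, ⟨h1, h2, ?_, ?_, ?_, ?_⟩, hτ2 _ rfl⟩
  · intro u hu _
    exact (key u hu).2.1
  · intro u hu _
    exact (key u hu).1
  · intro u hu _
    change τ (par (τ (par u) u)) (τ (par u) u) = u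
    rw [(key u hu).2.1]
    exact (key u hu).2.2
  · intro u u' hu hu' _ hpp hf hf'
    have hf2 : τ (par u) u' = u' := by rw [hpp]; exact hf'
    exact (hτ1 (par u)).2 u (by simp [hu]) u' (by simp [hu', hpp]) hf hf2

/-- labels of the core -/
theorem core_labels (m : ℕ) : ∃ D : ℕ, ∀ (K : Type) [Fintype K], Fintype.card K ≤ m →
    ∀ (v : K) (par : K → K) (dep : K → ℕ) (a b : K), (∀ u, dep u = 0 ↔ u = v) →
      (∀ u, u ≠ v → dep (par u) + 1 = dep u) → dep a ≤ dep b + 1 → dep b ≤ dep a + 1 →
      a ≠ v → b ≠ v → a ≠ b → par a ≠ b → par b ≠ a →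
      ∃ (σ : K → K) (g : K → ℕ), Paired v par σ dep ∧ Good v par σ a b g ∧ ∀ u, g u ≤ D := by
  classical
  obtain ⟨D, hD⟩ := split_type m
  refine ⟨D, fun K _ hK v par dep a b h1 h2 d1 d2 hav hbv hab hpa hpb => ?_⟩
  -- an auxiliary pairing, only used to have the lemmas on ancestors
  have Hid : ∃ σ, Paired v par σ dep := by
    have hex : ∀ p : K, ∃ τ, IsPairing (Finset.univ.filter (fun u => u ≠ v ∧ par u = p)) τ :=
      fun p => exists_pairing _
    choose τ hτ1 using hex
    have key : ∀ u, u ≠ v → τ (par u) u ≠ v ∧ par (τ (par u) u) = par u ∧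
        τ (par u) (τ (par u) u) = u := by
      intro u hu
      have h3 := (hτ1 (par u)).1 u (by simp [hu])
      have h4 := h3.1
      simp only [Finset.mem_filter, Finset.mem_univ, true_and] at h4
      exact ⟨h4.1, h4.2, h3.2⟩
    refine ⟨fun u => τ (par u) u, h1, h2, ?_, ?_, ?_, ?_⟩
    · intro u hu _
      exact (key u hu).2.1
    · intro u hu _
      exact (key u hu).1
    · intro u hu _
      change τ (par (τ (par u) u)) (τ (par u) u) = u
      rw [(key u hu).2.1]
      exact (key u hu).2.2
    · intro u u' hu hu' _ hpp hf hf'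
      have hf2 : τ (par u) u' = u' := by rw [hpp]; exact hf'
      exact (hτ1 (par u)).2 u (by simp [hu]) u' (by simp [hu', hpp]) hf hf2
  obtain ⟨σ0, H0⟩ := Hid
  have ha0 : dep a ≠ 0 := fun h => hav ((h1 a).1 h)
  have hb0 : dep b ≠ 0 := fun h => hbv ((h1 b).1 h)
  -- ancestors at the common depth
  obtain ⟨d, hda, hdb, hne⟩ : ∃ d, d ≤ dep a ∧ d ≤ dep b ∧
      Paired.anc par dep a d ≠ Paired.anc par dep b d := by
    rcases Nat.lt_trichotomy (dep a) (dep b) with h | h | h
    · refine ⟨dep a, le_rfl, h.le, ?_⟩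
      rw [H0.anc_self]
      have : Paired.anc par dep b (dep a) = par b := by
        unfold Paired.anc
        rw [show dep b - dep a = 1 by omega]; rfl
      rw [this]
      exact hpb.symm
    · refine ⟨dep a, le_rfl, h.le, ?_⟩
      rw [H0.anc_self, h, H0.anc_self]
      exact hab
    · refine ⟨dep b, h.le, le_rfl, ?_⟩
      rw [H0.anc_self]
      have : Paired.anc par dep a (dep b) = par a := by
        unfold Paired.anc
        rw [show dep a - dep b = 1 by omega]; rfl
      rw [this]
      exact hpa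
  have hA := H0.dep_anc a d hda
  have hB := H0.dep_anc b d hdb
  obtain ⟨e, he1, he2, he3, he4⟩ := H0.exists_branch _ _ (hA.trans hB.symm) hne
  have hcomp : ∀ x, d ≤ dep x → e ≤ d →
      Paired.anc par dep (Paired.anc par dep x d) e = Paired.anc par dep x e := by
    intro x hx hed
    have h3 := H0.dep_anc x d hx
    rw [Paired.anc, h3, Paired.anc, ← Function.iterate_add_apply, Paired.anc]
    congr 1
    omega
  rw [hA] at he2
  rw [hcomp a hda he2, hcomp b hdb he2] at he3 he4
  set c := Paired.anc par dep a e with hc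
  set c' := Paired.anc par dep b e with hc'
  have dc : dep c = e := H0.dep_anc a e (by omega)
  have dc' : dep c' = e := H0.dep_anc b e (by omega)
  have hcv : c ≠ v := by
    intro h
    have := (h1 _).2 h
    omega
  have hcv' : c' ≠ v := by
    intro h
    have := (h1 _).2 h
    omega
  obtain ⟨σ, H, hs⟩ := exists_sigma v par dep h1 h2 c c' hcv hcv' he3 he4
  obtain ⟨g, hg1, hg2⟩ := hD K hK v par σ dep a b c c' H
    { cv := hcv, cv' := hcv', ne := he3, par_eq := he4, dep_eq := dc.trans dc'.symm,
      sig := fun _ => hs, da := by omega, db := by omega, ha := by rw [dc],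
      hb := by rw [dc], d1 := d1, d2 := d2 }
  exact ⟨σ, g, H, hg1, hg2⟩

end Pool.Agent.Helper67.Gr
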