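import Mathlib
import Pool.Agent.Helper67.Gr.Split2

/-!
# Generic splittings, with an optional pair of ends
-/

open Polynomial

namespace Pool.Agent.Helper67.Gr

/-- the required integer labels; the last two conditions are only required if `P` holds -/
structure GoodP {K : Type*} (v : K) (par σ : K → K) (P : Prop) (a b : K) (g : K → ℕ) : Prop where
  root : g v = 0
  pos : ∀ u, u ≠ v → 0 < g u
  inj : Function.Injective g
  split : ∀ u, u ≠ v → par u ≠ v → g u + g (σ u) = g (par u)
  ab : P → ∀ x, g a ≠ g b + g x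
  ba : P → ∀ x, g b ≠ g a + g x

theorem exists_goodP {k : ℕ} {v : Fin k} {par σ : Fin k → Fin k} {dep : Fin k → ℕ}
    (H : Paired v par σ dep) (P : Prop) {a b c c' : Fin k}
    (h : P → Ends v par σ dep a b c c') : ∃ g, GoodP v par σ P a b g := by
  classical
  obtain ⟨η, h1, h2⟩ := exists_eta (ι := {u : Fin k // u ≠ v})
    (κ := {p : Fin k × Fin k // p.1 ≠ p.2} ⊕ (Fin k ⊕ Fin k))
    (fun u => LP v par σ dep u.1)
    (fun j => match j with
      | Sum.inl p => LP v par σ dep p.1.1 - LP v par σ dep p.1.2
      | Sum.inr (Sum.inl x) =>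
        if P then LP v par σ dep a - (LP v par σ dep b + LP v par σ dep x) else 1
      | Sum.inr (Sum.inr x) =>
        if P then LP v par σ dep b - (LP v par σ dep a + LP v par σ dep x) else 1)
    (by
      intro u
      rw [coeff_LP_zero H u.1 u.2]
      positivity)
    (by
      rintro (p | x | x)
      · exact sub_ne_zero.2 (LP_inj H _ _ p.2)
      · by_cases hP : P
        · simp only [if_pos hP]
          exact sub_ne_zero.2 (LP_ends H (h hP) x)
        · simp only [if_neg hP]
          exact one_ne_zero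
      · by_cases hP : P
        · simp only [if_pos hP]
          exact sub_ne_zero.2 (LP_ends H ((h hP).symm H) x)
        · simp only [if_neg hP]
          exact one_ne_zero)
  obtain ⟨N, hN, hz⟩ := exists_denom (fun u => (LP v par σ dep u).eval η)
  choose z hz using hz
  have hNq : (0 : ℚ) < N := by exact_mod_cast hN
  have hNq0 : (N : ℚ) ≠ 0 := hNq.ne'
  have hroot : z v = 0 := by
    have := hz v
    rw [LP_root H, eval_zero, mul_zero] at this
    exact_mod_cast this.symm
  have hpos : ∀ u, u ≠ v → 0 < z u := by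
    intro u hu
    have h3 := h1 ⟨u, hu⟩
    have h4 : (0 : ℚ) < z u := by rw [← hz u]; exact mul_pos hNq h3
    exact_mod_cast h4
  have hnn : ∀ u, 0 ≤ z u := by
    intro u
    by_cases hu : u = v
    · rw [hu, hroot]
    · exact (hpos u hu).le
  have hcast : ∀ u, ((z u).toNat : ℤ) = z u := fun u => Int.toNat_of_nonneg (hnn u)
  have htr : ∀ u w, (z u : ℚ) = z w → (LP v par σ dep u).eval η = (LP v par σ dep w).eval η := by
    intro u w h3
    rw [← hz u, ← hz w] at h3
    exact mul_left_cancel₀ hNq0 h3
  refine ⟨fun u => (z u).toNat, ?_, ?_, ?_, ?_, ?_, ?_⟩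
  · change (z v).toNat = 0
    rw [hroot]; rfl
  · intro u hu
    have := hpos u hu
    change 0 < (z u).toNat
    omega
  · intro u w huw
    by_contra hne
    have h3 : z u = z w := by
      have h4 : (z u).toNat = (z w).toNat := huw
      rw [← hcast u, ← hcast w, h4]
    have h5 := htr u w (by exact_mod_cast h3)
    have h6 := h2 (Sum.inl ⟨(u, w), hne⟩)
    apply h6
    change (LP v par σ dep u - LP v par σ dep w).eval η = 0
    rw [eval_sub, h5, sub_self]
  · intro u hu hp
    change (z u).toNat + (z (σ u)).toNat = (z (par u)).toNat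
    have h3 : (z u : ℚ) + z (σ u) = z (par u) := by
      rw [← hz, ← hz, ← hz, ← mul_add, ← eval_add, LP_split H u hu hp]
    have h4 : z u + z (σ u) = z (par u) := by exact_mod_cast h3
    have := hcast u
    have := hcast (σ u)
    have := hcast (par u)
    omega
  · intro hP x hx
    have h3 : z a = z b + z x := by
      have h4 : (z a).toNat = (z b).toNat + (z x).toNat := hx
      have := hcast a
      have := hcast b
      have := hcast x
      omega
    have h4 : (z a : ℚ) = z b + z x := by exact_mod_cast h3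
    rw [← hz, ← hz, ← hz, ← mul_add] at h4
    have h5 := mul_left_cancel₀ hNq0 h4
    apply h2 (Sum.inr (Sum.inl x))
    simp only [if_pos hP]
    rw [eval_sub, eval_add, h5, sub_self]
  · intro hP x hx
    have h3 : z b = z a + z x := by
      have h4 : (z b).toNat = (z a).toNat + (z x).toNat := hx
      have := hcast a
      have := hcast b
      have := hcast x
      omega
    have h4 : (z b : ℚ) = z a + z x := by exact_mod_cast h3
    rw [← hz, ← hz, ← hz, ← mul_add] at h4
    have h5 := mul_left_cancel₀ hNq0 h4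
    apply h2 (Sum.inr (Sum.inr x))
    simp only [if_pos hP]
    rw [eval_sub, eval_add, h5, sub_self]


/-- uniform version -/
theorem split_boundP (m : ℕ) : ∃ D : ℕ, ∀ k ≤ m, ∀ (v : Fin k) (par σ : Fin k → Fin k)
    (P : Prop) (a b : Fin k), (∃ g, GoodP v par σ P a b g) →
      ∃ g, GoodP v par σ P a b g ∧ ∀ u, g u ≤ D := by
  classical
  have h1 : ∀ k : ℕ, ∃ D : ℕ, ∀ (v : Fin k) (par σ : Fin k → Fin k)
      (P : Prop) (a b : Fin k), (∃ g, GoodP v par σ P a b g) →
        ∃ g, GoodP v par σ P a b g ∧ ∀ u, g u ≤ D := by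
    intro k
    let T := Fin k × (Fin k → Fin k) × (Fin k → Fin k) × Fin k × Fin k × Prop
    let G : T → (Fin k → ℕ) := fun t =>
      if h : ∃ g, GoodP t.1 t.2.1 t.2.2.1 t.2.2.2.2.2 t.2.2.2.1 t.2.2.2.2.1 g then h.choose
      else fun _ => 0
    refine ⟨∑ t : T, ∑ u, G t u, fun v par σ P a b h => ?_⟩
    have e : G (v, par, σ, a, b, P) = h.choose := dif_pos h
    refine ⟨G (v, par, σ, a, b, P), by rw [e]; exact h.choose_spec, fun u => ?_⟩
    calc G (v, par, σ, a, b, P) u ≤ ∑ w, G (v, par, σ, a, b, P) w :=
          Finset.single_le_sum (f := fun w => G (v, par, σ, a, b, P) w)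
            (fun _ _ => Nat.zero_le _) (Finset.mem_univ u)
      _ ≤ _ := Finset.single_le_sum (f := fun t : T => ∑ w, G t w)
            (fun _ _ => Nat.zero_le _) (Finset.mem_univ (v, par, σ, a, b, P))
  choose D hD using h1
  refine ⟨∑ k ∈ Finset.range (m + 1), D k, fun k hk v par σ P a b h => ?_⟩
  obtain ⟨g, h2, h3⟩ := hD k v par σ P a b h
  refine ⟨g, h2, fun u => (h3 u).trans ?_⟩
  exact Finset.single_le_sum (f := D) (fun _ _ => Nat.zero_le _)
    (Finset.mem_range.2 (by omega))

/-- the numerical splitting, for an arbitrary finite type -/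
theorem split_typeP (m : ℕ) : ∃ D : ℕ, ∀ (K : Type) [Fintype K], Fintype.card K ≤ m →
    ∀ (v : K) (par σ : K → K) (dep : K → ℕ) (P : Prop) (a b c c' : K), Paired v par σ dep →
      (P → Ends v par σ dep a b c c') → ∃ g, GoodP v par σ P a b g ∧ ∀ u, g u ≤ D := by
  obtain ⟨D, hD⟩ := split_boundP m
  refine ⟨D, fun K _ hK v par σ dep P a b c c' H hh => ?_⟩
  set k := Fintype.card K with hk
  let e : K ≃ Fin k := Fintype.equivFin K
  let par' : Fin k → Fin k := fun x => e (par (e.symm x))
  let σ' : Fin k → Fin k := fun x => e (σ (e.symm x))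
  let dep' : Fin k → ℕ := fun x => dep (e.symm x)
  have hit : ∀ (i : ℕ) (x : Fin k), par'^[i] x = e (par^[i] (e.symm x)) := by
    intro i
    induction i with
    | zero => intro x; simp
    | succ i ih =>
      intro x
      rw [Function.iterate_succ_apply, ih, Function.iterate_succ_apply]
      simp [par']
  have hanc : ∀ (x : K) (d : ℕ), Paired.anc par' dep' (e x) d = e (Paired.anc par dep x d) := by
    intro x d
    unfold Paired.anc
    rw [hit]
    simp [dep']
  have H' : Paired (e v) par' σ' dep' := by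
    refine ⟨?_, ?_, ?_, ?_, ?_, ?_⟩
    · intro u
      simp only [dep']
      rw [H.dep_zero, Equiv.symm_apply_eq]
    · intro u hu
      have h1 : e.symm u ≠ v := fun h => hu (by rw [← h, Equiv.apply_symm_apply])
      have h2 := H.dep_par _ h1
      simpa [dep', par'] using h2
    · intro u hu hp
      have h1 : e.symm u ≠ v := fun h => hu (by rw [← h, Equiv.apply_symm_apply])
      have h2 : par (e.symm u) ≠ v := fun h => hp (by simp only [par']; rw [h])
      have h3 := H.par_sig _ h1 h2
      simp only [par', σ', Equiv.symm_apply_apply]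
      rw [h3]
    · intro u hu hp
      have h1 : e.symm u ≠ v := fun h => hu (by rw [← h, Equiv.apply_symm_apply])
      have h2 : par (e.symm u) ≠ v := fun h => hp (by simp only [par']; rw [h])
      have h3 := H.sig_ne _ h1 h2
      intro h4
      exact h3 (e.injective h4)
    · intro u hu hp
      have h1 : e.symm u ≠ v := fun h => hu (by rw [← h, Equiv.apply_symm_apply])
      have h2 : par (e.symm u) ≠ v := fun h => hp (by simp only [par']; rw [h])
      have h3 := H.sig_sig _ h1 h2
      simp only [σ', Equiv.symm_apply_apply]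
      rw [h3, Equiv.apply_symm_apply]
    · intro u u' hu hu' hp hpp hf hf'
      have h1 : e.symm u ≠ v := fun h => hu (by rw [← h, Equiv.apply_symm_apply])
      have h1' : e.symm u' ≠ v := fun h => hu' (by rw [← h, Equiv.apply_symm_apply])
      have h2 : par (e.symm u) ≠ v := fun h => hp (by simp only [par']; rw [h])
      have h3 : par (e.symm u) = par (e.symm u') := e.injective hpp
      have h4 : σ (e.symm u) = e.symm u := by
        rw [Equiv.eq_symm_apply]; exact hf
      have h5 : σ (e.symm u') = e.symm u' := by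
        rw [Equiv.eq_symm_apply]; exact hf'
      exact e.symm.injective (H.fix _ _ h1 h1' h2 h3 h4 h5)
  have E' : P → Ends (e v) par' σ' dep' (e a) (e b) (e c) (e c') := by
    intro hP
    have h := hh hP
    refine ⟨?_, ?_, ?_, ?_, ?_, ?_, ?_, ?_, ?_, ?_, ?_, ?_⟩
    · exact fun h1 => h.cv (e.injective h1)
    · exact fun h1 => h.cv' (e.injective h1)
    · exact fun h1 => h.ne (e.injective h1)
    · simp only [par', Equiv.symm_apply_apply]; rw [h.par_eq]
    · simp only [dep', Equiv.symm_apply_apply]; exact h.dep_eq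
    · intro hp
      have h1 : par c ≠ v := fun h2 => hp (by simp only [par', Equiv.symm_apply_apply]; rw [h2])
      simp only [σ', Equiv.symm_apply_apply]; rw [h.sig h1]
    · simp only [dep', Equiv.symm_apply_apply]; exact h.da
    · simp only [dep', Equiv.symm_apply_apply]; exact h.db
    · rw [hanc]
      simp only [dep', Equiv.symm_apply_apply]; rw [h.ha]
    · rw [hanc]
      simp only [dep', Equiv.symm_apply_apply]; rw [h.hb]
    · simp only [dep', Equiv.symm_apply_apply]; exact h.d1
    · simp only [dep', Equiv.symm_apply_apply]; exact h.d2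
  obtain ⟨g, hg, hgD⟩ := hD k hK (e v) par' σ' P (e a) (e b) (exists_goodP H' P E')
  refine ⟨fun x => g (e x), ⟨hg.root, ?_, ?_, ?_, ?_, ?_⟩, fun u => hgD _⟩
  · intro u hu
    exact hg.pos _ (fun h => hu (e.injective h))
  · exact hg.inj.comp e.injective
  · intro u hu hp
    have h1 := hg.split (e u) (fun h => hu (e.injective h)) (by
      simp only [par', Equiv.symm_apply_apply]
      exact fun h => hp (e.injective h))
    simpa [par', σ'] using h1
  · intro hP x; exact hg.ab hP (e x)
  · intro hP x; exact hg.ba hP (e x)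

/-- labels of the core -/
theorem core_labelsP (m : ℕ) : ∃ D : ℕ, ∀ (K : Type) [Fintype K], Fintype.card K ≤ m →
    ∀ (v : K) (par : K → K) (dep : K → ℕ) (a b : K), (∀ u, dep u = 0 ↔ u = v) →
      (∀ u, u ≠ v → dep (par u) + 1 = dep u) →
      ∃ (σ : K → K) (g : K → ℕ), Paired v par σ dep ∧
        GoodP v par σ (dep a ≤ dep b + 1 ∧ dep b ≤ dep a + 1 ∧ a ≠ v ∧ b ≠ v ∧ a ≠ b ∧
          par a ≠ b ∧ par b ≠ a) a b g ∧ ∀ u, g u ≤ D := by
  classical
  obtain ⟨D, hD⟩ := split_typeP m
  refine ⟨D, fun K _ hK v par dep a b h1 h2 => ?_⟩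
  -- an auxiliary pairing, only used to have the lemmas on ancestors
  have Hid : ∃ σ, Paired v par σ dep := by
    have hex : ∀ p : K, ∃ τ, IsPairing (Finset.univ.filter (fun u => u ≠ v ∧ par u = p)) τ :=
      fun p => exists_pairing _
    choose τ hτ1 using hex
    have key : ∀ u, u ≠ v → τ (par u) u ≠ v ∧ par (τ (par u) u) = par u ∧
        τ (par u) (τ (par u) u) = u := by
      intro u hu
      have h3 := (hτ1 (par u)).1 u (by simp [hu])
      have h4 := h3.1
      simp only [Finset.mem_filter, Finset.mem_univ, true_and] at h4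
      exact ⟨h4.1, h4.2, h3.2⟩
    refine ⟨fun u => τ (par u) u, h1, h2, ?_, ?_, ?_, ?_⟩
    · intro u hu _
      exact (key u hu).2.1
    · intro u hu _
      exact (key u hu).1
    · intro u hu _
      change τ (par (τ (par u) u)) (τ (par u) u) = u
      rw [(key u hu).2.1]
      exact (key u hu).2.2
    · intro u u' hu hu' _ hpp hf hf'
      have hf2 : τ (par u) u' = u' := by rw [hpp]; exact hf'
      exact (hτ1 (par u)).2 u (by simp [hu]) u' (by simp [hu', hpp]) hf hf2
  obtain ⟨σ0, H0⟩ := Hid
  set P : Prop := (dep a ≤ dep b + 1 ∧ dep b ≤ dep a + 1 ∧ a ≠ v ∧ b ≠ v ∧ a ≠ b ∧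
    par a ≠ b ∧ par b ≠ a) with hPdef
  by_cases hP : P
  swap
  · obtain ⟨g, hg1, hg2⟩ := hD K hK v par σ0 dep P a b a a H0 (fun h => absurd h hP)
    exact ⟨σ0, g, H0, hg1, hg2⟩
  obtain ⟨d1, d2, hav, hbv, hab, hpa, hpb⟩ := hP
  have ha0 : dep a ≠ 0 := fun h => hav ((h1 a).1 h)
  have hb0 : dep b ≠ 0 := fun h => hbv ((h1 b).1 h)
  -- ancestors at the common depth
  obtain ⟨d, hda, hdb, hne⟩ : ∃ d, d ≤ dep a ∧ d ≤ dep b ∧
      Paired.anc par dep a d ≠ Paired.anc par dep b d := by
    rcases Nat.lt_trichotomy (dep a) (dep b) with h | h | h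
    · refine ⟨dep a, le_rfl, h.le, ?_⟩
      rw [H0.anc_self]
      have : Paired.anc par dep b (dep a) = par b := by
        unfold Paired.anc
        rw [show dep b - dep a = 1 by omega]; rfl
      rw [this]
      exact hpb.symm
    · refine ⟨dep a, le_rfl, h.le, ?_⟩
      rw [H0.anc_self, h, H0.anc_self]
      exact hab
    · refine ⟨dep b, h.le, le_rfl, ?_⟩
      rw [H0.anc_self]
      have : Paired.anc par dep a (dep b) = par a := by
        unfold Paired.anc
        rw [show dep a - dep b = 1 by omega]; rfl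
      rw [this]
      exact hpa
  have hA := H0.dep_anc a d hda
  have hB := H0.dep_anc b d hdb
  obtain ⟨e, he1, he2, he3, he4⟩ := H0.exists_branch _ _ (hA.trans hB.symm) hne
  have hcomp : ∀ x, d ≤ dep x → e ≤ d →
      Paired.anc par dep (Paired.anc par dep x d) e = Paired.anc par dep x e := by
    intro x hx hed
    have h3 := H0.dep_anc x d hx
    rw [Paired.anc, h3, Paired.anc, ← Function.iterate_add_apply, Paired.anc]
    congr 1
    omega
  rw [hA] at he2
  rw [hcomp a hda he2, hcomp b hdb he2] at he3 he4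
  set c := Paired.anc par dep a e with hc
  set c' := Paired.anc par dep b e with hc'
  have dc : dep c = e := H0.dep_anc a e (by omega)
  have dc' : dep c' = e := H0.dep_anc b e (by omega)
  have hcv : c ≠ v := by
    intro h
    have := (h1 _).2 h
    omega
  have hcv' : c' ≠ v := by
    intro h
    have := (h1 _).2 h
    omega
  obtain ⟨σ, H, hs⟩ := exists_sigma v par dep h1 h2 c c' hcv hcv' he3 he4
  have E : Ends v par σ dep a b c c' :=
    ⟨hcv, hcv', he3, he4, dc.trans dc'.symm, fun _ => hs, by omega, by omega, by rw [dc],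
      by rw [dc], d1, d2⟩
  obtain ⟨g, hg1, hg2⟩ := hD K hK v par σ dep P a b c c' H (fun _ => E)
  exact ⟨σ, g, H, hg1, hg2⟩

end Pool.Agent.Helper67.Gr
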