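import Mathlib
import Pool.Agent.Helper67.Gr.Core

/-!
# The merged graph

Vertices `k` and `v` are identified, and `j` and `i` are identified.  The edges of the merged graph
`H` come from three families: ordinary edges `D`, edges at `k` (the set `Ks`), edges at `j` (the
set `Js`).
-/

namespace Pool.Agent.Helper67.Gr

/-- breadth first search -/
theorem exists_bfs {U : Type} (H : SimpleGraph U) (hH : H.Connected) (v : U) :
    ∃ (par : U → U) (dep : U → ℕ), (∀ u, dep u = 0 ↔ u = v) ∧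
      (∀ u, u ≠ v → H.Adj u (par u) ∧ dep (par u) + 1 = dep u) ∧
      ∀ x y, H.Adj x y → dep y ≤ dep x + 1 := by
  classical
  let dep : U → ℕ := fun u => H.dist v u
  have hdep0 : ∀ u, dep u = 0 ↔ u = v := by
    intro u
    simp only [dep]
    rw [hH.dist_eq_zero_iff]
    exact eq_comm
  have hdepadj : ∀ x y, H.Adj x y → dep y ≤ dep x + 1 := by
    intro x y hxy
    have h1 := hH.dist_triangle (u := v) (v := x) (w := y)
    have h2 : H.dist x y = 1 := SimpleGraph.dist_eq_one_iff_adj.2 hxy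
    simp only [dep]
    omega
  have hex : ∀ u, ∃ w, u ≠ v → (H.Adj u w ∧ dep w + 1 = dep u) := by
    intro u
    by_cases hu : u = v
    · exact ⟨v, fun h => absurd hu h⟩
    · obtain ⟨p, hp⟩ := hH.exists_walk_length_eq_dist u v
      cases p with
      | nil => exact absurd rfl hu
      | cons h q =>
        rename_i w
        refine ⟨w, fun _ => ⟨h, ?_⟩⟩
        have h1 : H.dist w v ≤ q.length := SimpleGraph.dist_le q
        rw [SimpleGraph.Walk.length_cons] at hp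
        have h2 := hdepadj w u h.symm
        simp only [dep] at h2 ⊢
        rw [SimpleGraph.dist_comm (u := v) (v := w), SimpleGraph.dist_comm (u := v) (v := u)] at *
        omega
  choose par hpar using hex
  exact ⟨par, dep, hdep0, hpar, hdepadj⟩

/-- the output of the merged graph -/
structure MOut {U : Type} (D : SimpleGraph U) (v i : U) (Ks Js C : Finset U) (B : ℕ) (g : U → ℕ)
    (Rm Rp : Finset U) : Prop where
  gv : g v = 0
  pos : ∀ x ∈ C, x ≠ v → 0 < g x
  le : ∀ x, g x ≤ B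
  inj : Set.InjOn g C
  cov : ∀ x ∈ C, x ≠ v → x ∉ Rm → x ∉ Rp → ∃ a ∈ C, ∃ b ∈ C, D.Adj a b ∧ g a = g b + g x
  rm : ∀ x ∈ Rm, x ∈ C ∧ x ≠ v ∧ (x ∈ Ks ∨ ∃ b ∈ C, b ∈ Js ∧ g b = g i + g x)
  rp : ∀ x ∈ Rp, x ∈ C ∧ x ≠ v ∧ x ≠ i ∧ ∃ b ∈ C, b ∈ Js ∧ g i = g b + g x
  disj : Disjoint Rm Rp
  irm : D.Adj v i → i ∉ Rm
  ext : (∃ a ∈ C, ∃ b ∈ C, D.Adj a b ∧ (∀ x ∈ C, g a ≠ g b + g x) ∧ (∀ x ∈ C, g b ≠ g a + g x)) ∨
    (∃ b ∈ C, b ∈ Ks ∧ b ∉ Rm) ∨
    (∃ b ∈ C, b ∈ Js ∧ (∀ x ∈ Rp, g i ≠ g b + g x) ∧ (∀ x ∈ Rm, g b ≠ g i + g x) ∧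
      (D.Adj v i → g b ≠ g i + g i))

theorem merged (m : ℕ) : ∃ B : ℕ, ∀ (U : Type) [Fintype U] [DecidableEq U] (D : SimpleGraph U)
    [DecidableRel D.Adj] (H : SimpleGraph U) (v i : U) (Ks Js C : Finset U),
    (∀ x y, H.Adj x y ↔ (D.Adj x y ∨ (x = v ∧ y ∈ Ks) ∨ (y = v ∧ x ∈ Ks) ∨
      (x = i ∧ y ∈ Js) ∨ (y = i ∧ x ∈ Js))) →
    v ∉ Ks → v ∉ Js → i ∉ Js → (Js.Nonempty → i ≠ v) → H.Connected →
    Fintype.card U ≤ D.edgeFinset.card + Ks.card + Js.card →
    C.card ≤ m → v ∈ C → i ∈ C →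
    (∀ x, x ∉ C → ∃ q, ∀ y, H.Adj x y → y = q) →
    (∀ x, x ∉ C → D.Adj x v → x ∉ Ks) → (∀ x, x ∉ C → D.Adj x i → x ∉ Js) →
    ∃ (g : U → ℕ) (Rm Rp : Finset U), MOut D v i Ks Js C B g Rm Rp := by
  classical
  obtain ⟨B, hB⟩ := core_labelsP m
  refine ⟨B, ?_⟩
  intro U _ _ D _ H v i Ks Js C hHadj hvK hvJ hiJ hJi hHc hcount hCm hvC hiC hL1 hL2 hL3
  obtain ⟨par, dep, hdep0, hpar, hdepadj⟩ := exists_bfs H hHc v
  have hpar1 : ∀ u, u ≠ v → H.Adj u (par u) := fun u hu => (hpar u hu).1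
  have hpar2 : ∀ u, u ≠ v → dep (par u) + 1 = dep u := fun u hu => (hpar u hu).2
  have hparC : ∀ x, x ≠ v → par x ∈ C := by
    intro x hx
    by_contra hcon
    have hq : par x ≠ v := fun h => hcon (h ▸ hvC)
    obtain ⟨q, h1⟩ := hL1 _ hcon
    have h2 := h1 x (hpar1 x hx).symm
    have h3 := h1 _ (hpar1 _ hq)
    have h4 := hpar2 x hx
    have h5 := hpar2 _ hq
    rw [h3, ← h2] at h5
    omega
  -- an adjacent vertex of the root has the root as parent
  have hroot : ∀ b, H.Adj v b → par b = v ∧ b ≠ v := by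
    intro b hb
    have hbv : b ≠ v := hb.ne'
    have h1 := hdepadj v b hb
    have h2 := (hdep0 v).2 rfl
    have h3 := hpar2 b hbv
    exact ⟨(hdep0 _).1 (by omega), hbv⟩
  -- the extra edge
  let EU : Finset (Sym2 U) := (Finset.univ.filter (fun x => x ≠ v ∧ D.Adj x (par x))).image
    (fun x => s(x, par x))
  let KU : Finset U := Finset.univ.filter (fun x => x ≠ v ∧ ¬ D.Adj x (par x) ∧ par x = v)
  let JU : Finset U := Finset.univ.filter (fun x => x ≠ v ∧ ¬ D.Adj x (par x) ∧ par x ≠ v)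
  have hJUc : ∃ JV : Finset U, JV.card ≤ JU.card ∧
      ∀ b ∈ Js, b ∉ JV → ¬ (par b = i ∧ ¬ D.Adj b i) ∧ ¬ (par i = b ∧ i ≠ v ∧ ¬ D.Adj i b) := by
    refine ⟨JU.image (fun x => if x = i then par i else x), Finset.card_image_le, ?_⟩
    intro b hb hbJ
    have hbv : b ≠ v := fun h => hvJ (h ▸ hb)
    have hiv : i ≠ v := hJi ⟨b, hb⟩
    constructor
    · rintro ⟨h1, h2⟩
      apply hbJ
      rw [Finset.mem_image]
      refine ⟨b, ?_, ?_⟩
      · simp only [JU, Finset.mem_filter, Finset.mem_univ, true_and]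
        exact ⟨hbv, by rw [h1]; exact h2, by rw [h1]; exact hiv⟩
      · rw [if_neg]
        rintro rfl
        exact hiJ hb
    · rintro ⟨h1, h3, h2⟩
      apply hbJ
      rw [Finset.mem_image]
      refine ⟨i, ?_, ?_⟩
      · simp only [JU, Finset.mem_filter, Finset.mem_univ, true_and]
        exact ⟨h3, by rw [h1]; exact h2, by rw [h1]; exact hbv⟩
      · rw [if_pos rfl]; exact h1
  obtain ⟨JV, hJVc, hJV⟩ := hJUc
  have hused : EU.card + KU.card + JV.card ≤ Fintype.card U - 1 := by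
    have h1 : EU.card ≤ (Finset.univ.filter (fun x => x ≠ v ∧ D.Adj x (par x))).card :=
      Finset.card_image_le
    have h2 : (Finset.univ.filter (fun x => x ≠ v ∧ D.Adj x (par x))).card + KU.card + JU.card =
        (Finset.univ.erase v).card := by
      have h3 : Finset.univ.erase v = (Finset.univ.filter (fun x => x ≠ v ∧ D.Adj x (par x))) ∪
          (KU ∪ JU) := by
        ext x
        simp only [KU, JU, Finset.mem_erase, Finset.mem_univ, and_true, Finset.mem_union,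
          Finset.mem_filter, true_and]
        tauto
      rw [h3, Finset.card_union_of_disjoint, Finset.card_union_of_disjoint, add_assoc]
      · rw [Finset.disjoint_left]
        intro x h4 h5
        simp only [KU, JU, Finset.mem_filter, Finset.mem_univ, true_and] at h4 h5
        exact h5.2.2 h4.2.2
      · rw [Finset.disjoint_left]
        intro x h4 h5
        simp only [KU, JU, Finset.mem_filter, Finset.mem_univ, true_and, Finset.mem_union] at h4 h5
        rcases h5 with h5 | h5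
        · exact h5.2.1 h4.2
        · exact h5.2.1 h4.2
    rw [Finset.card_erase_of_mem (Finset.mem_univ _), Finset.card_univ] at h2
    omega
  have hUpos : 0 < Fintype.card U := Fintype.card_pos_iff.2 ⟨v⟩
  -- the three possibilities
  have hextra : (∃ a b, D.Adj a b ∧ s(a, b) ∉ EU) ∨ (∃ b ∈ Ks, b ∉ KU) ∨
      (∃ b ∈ Js, b ∉ JV) := by
    by_contra hcon
    push Not at hcon
    obtain ⟨h1, h2, h3⟩ := hcon
    have h4 : D.edgeFinset ⊆ EU := by
      intro e he
      induction e using Sym2.ind with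
      | _ a b =>
        rw [SimpleGraph.mem_edgeFinset, SimpleGraph.mem_edgeSet] at he
        exact h1 a b he
    have h5 := Finset.card_le_card h4
    have h6 := Finset.card_le_card (show Ks ⊆ KU from h2)
    have h7 := Finset.card_le_card (show Js ⊆ JV from h3)
    omega
  -- the pair of ends
  obtain ⟨a0, b0, hab0⟩ : ∃ a0 b0, a0 ∈ C ∧ b0 ∈ C ∧
      ((D.Adj a0 b0 ∧ dep a0 ≤ dep b0 + 1 ∧ dep b0 ≤ dep a0 + 1 ∧ a0 ≠ v ∧ b0 ≠ v ∧ a0 ≠ b0 ∧
          par a0 ≠ b0 ∧ par b0 ≠ a0) ∨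
        (∃ b ∈ C, b ∈ Ks ∧ D.Adj b v ∧ par b = v) ∨
        (a0 = i ∧ b0 ∈ Js ∧ dep a0 ≤ dep b0 + 1 ∧ dep b0 ≤ dep a0 + 1 ∧
          ¬ (par b0 = i ∧ ¬ D.Adj b0 i) ∧ ¬ (par i = b0 ∧ i ≠ v ∧ ¬ D.Adj i b0))) := by
    rcases hextra with ⟨a, b, hab, hnot⟩ | ⟨b, hbK, hbU⟩ | ⟨b, hbJ, hbU⟩
    · have hHab : H.Adj a b := (hHadj a b).2 (Or.inl hab)
      have hpa : a ≠ v → par a ≠ b := by
        intro h1 h2
        apply hnot
        simp only [EU, Finset.mem_image, Finset.mem_filter, Finset.mem_univ, true_and]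
        exact ⟨a, ⟨h1, by rw [h2]; exact hab⟩, by rw [h2]⟩
      have hpb : b ≠ v → par b ≠ a := by
        intro h1 h2
        apply hnot
        simp only [EU, Finset.mem_image, Finset.mem_filter, Finset.mem_univ, true_and]
        exact ⟨b, ⟨h1, by rw [h2]; exact hab.symm⟩, by rw [h2, Sym2.eq_swap]⟩
      have hav : a ≠ v := by
        rintro rfl
        exact hpb (hroot b hHab).2 (hroot b hHab).1
      have hbv : b ≠ v := by
        rintro rfl
        exact hpa (hroot a hHab.symm).2 (hroot a hHab.symm).1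
      have haC : a ∈ C := by
        by_contra h1
        obtain ⟨q, h2⟩ := hL1 a h1
        exact hpa hav ((h2 _ (hpar1 a hav)).trans (h2 b hHab).symm)
      have hbC : b ∈ C := by
        by_contra h1
        obtain ⟨q, h2⟩ := hL1 b h1
        exact hpb hbv ((h2 _ (hpar1 b hbv)).trans (h2 a hHab.symm).symm)
      exact ⟨a, b, haC, hbC, Or.inl ⟨hab, hdepadj _ _ hHab.symm, hdepadj _ _ hHab, hav, hbv,
        hab.ne, hpa hav, hpb hbv⟩⟩
    · have hHb : H.Adj v b := (hHadj v b).2 (Or.inr (Or.inl ⟨rfl, hbK⟩))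
      obtain ⟨h1, h2⟩ := hroot b hHb
      have h3 : D.Adj b v := by
        by_contra h4
        apply hbU
        simp only [KU, Finset.mem_filter, Finset.mem_univ, true_and]
        exact ⟨h2, by rw [h1]; exact h4, h1⟩
      have hbC : b ∈ C := by
        by_contra h4
        exact hL2 b h4 h3 hbK
      exact ⟨v, v, hvC, hvC, Or.inr (Or.inl ⟨b, hbC, hbK, h3, h1⟩)⟩
    · have hHb : H.Adj i b := (hHadj i b).2 (Or.inr (Or.inr (Or.inr (Or.inl ⟨rfl, hbJ⟩))))
      have hbv : b ≠ v := fun h => hvJ (h ▸ hbJ)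
      obtain ⟨h1, h2⟩ := hJV b hbJ hbU
      have hbC : b ∈ C := by
        by_contra h4
        obtain ⟨q, h5⟩ := hL1 b h4
        have h6 : par b = i := (h5 _ (hpar1 b hbv)).trans (h5 i hHb.symm).symm
        have h7 : D.Adj b i := by
          by_contra h8
          exact h1 ⟨h6, h8⟩
        exact hL3 b h4 h7 hbJ
      exact ⟨i, b, hiC, hbC, Or.inr (Or.inr ⟨rfl, hbJ, hdepadj _ _ hHb.symm, hdepadj _ _ hHb,
        h1, h2⟩)⟩
  obtain ⟨ha0C, hb0C, hab0⟩ := hab0
  -- the core as a type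
  let K := {u : U // u ∈ C}
  have hKc : Fintype.card K ≤ m := by
    rw [Fintype.card_coe]; exact hCm
  let parK : K → K := fun x => if hx : x.1 = v then ⟨v, hvC⟩ else ⟨par x.1, hparC x.1 hx⟩
  have hparK1 : ∀ x : K, x.1 ≠ v → (parK x).1 = par x.1 := by
    intro x hx
    simp only [parK, dif_neg hx]
  let vK : K := ⟨v, hvC⟩
  have hneK : ∀ x : K, x ≠ vK ↔ x.1 ≠ v := by
    intro x
    rw [Ne, Subtype.ext_iff]
  obtain ⟨σ, g, HP, hg, hgB⟩ := hB K hKc vK parK (fun x => dep x.1) ⟨a0, ha0C⟩ ⟨b0, hb0C⟩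
    (by
      intro u
      rw [hdep0, Subtype.ext_iff])
    (by
      intro u hu
      rw [hneK] at hu
      rw [hparK1 u hu]
      exact hpar2 u.1 hu)
  let G : U → ℕ := fun x => if hx : x ∈ C then g ⟨x, hx⟩ else 0
  have hG : ∀ x (hx : x ∈ C), G x = g ⟨x, hx⟩ := fun x hx => dif_pos hx
  let τ : U → U := fun x => if hx : x ∈ C then (σ ⟨x, hx⟩).1 else x
  have hτ : ∀ x (hx : x ∈ C), τ x = (σ ⟨x, hx⟩).1 := fun x hx => dif_pos hx
  have key : ∀ x ∈ C, x ≠ v → par x ≠ v → τ x ∈ C ∧ τ x ≠ v ∧ par (τ x) = par x ∧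
      τ (τ x) = x ∧ G x + G (τ x) = G (par x) := by
    intro x hx hxv hp
    have h0 : (⟨x, hx⟩ : K) ≠ vK := (hneK _).2 hxv
    have h1 : parK ⟨x, hx⟩ ≠ vK := by
      rw [hneK, hparK1 _ hxv]; exact hp
    have h2 : τ x ∈ C := by rw [hτ x hx]; exact (σ ⟨x, hx⟩).2
    have h3 : τ x ≠ v := by
      rw [hτ x hx]
      exact (hneK _).1 (HP.sig_ne _ h0 h1)
    have h4 : (⟨τ x, h2⟩ : K) = σ ⟨x, hx⟩ := Subtype.ext (hτ x hx)
    refine ⟨h2, h3, ?_, ?_, ?_⟩
    · have h5 := HP.par_sig _ h0 h1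
      rw [← h4] at h5
      have h6 := congrArg Subtype.val h5
      rw [hparK1 _ h3, hparK1 _ hxv] at h6
      exact h6
    · rw [hτ _ h2, h4, HP.sig_sig _ h0 h1]
    · have h5 := hg.split _ h0 h1
      rw [← h4] at h5
      rw [hG x hx, hG _ h2, hG _ (hparC x hxv)]
      have h6 : parK ⟨x, hx⟩ = ⟨par x, hparC x hxv⟩ := Subtype.ext (hparK1 _ hxv)
      rw [h6] at h5
      exact h5
  have hGv : G v = 0 := by rw [hG v hvC]; exact hg.root
  have hGpos : ∀ x ∈ C, x ≠ v → 0 < G x := by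
    intro x hx hxv
    rw [hG x hx]
    exact hg.pos _ ((hneK _).2 hxv)
  have hGinj : ∀ x ∈ C, ∀ y ∈ C, G x = G y → x = y := by
    intro x hx y hy hxy
    rw [hG x hx, hG y hy] at hxy
    exact congrArg Subtype.val (hg.inj hxy)
  -- the sets of vertices needing a repair
  set Rm : Finset U := C.filter (fun x => x ≠ v ∧ ((par x = v ∧ ¬ D.Adj x v) ∨
    (par x ≠ v ∧ par x ≠ i ∧ ¬ D.Adj (τ x) (par x)))) with hRm
  set Rp : Finset U := C.filter (fun x => x ≠ v ∧ par x ≠ v ∧ par x = i ∧ ¬ D.Adj (τ x) i)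
    with hRp
  have memRm : ∀ x, x ∈ Rm ↔ (x ∈ C ∧ x ≠ v ∧ ((par x = v ∧ ¬ D.Adj x v) ∨
    (par x ≠ v ∧ par x ≠ i ∧ ¬ D.Adj (τ x) (par x)))) := by
    intro x; rw [hRm, Finset.mem_filter]
  have memRp : ∀ x, x ∈ Rp ↔ (x ∈ C ∧ x ≠ v ∧ par x ≠ v ∧ par x = i ∧ ¬ D.Adj (τ x) i) := by
    intro x; rw [hRp, Finset.mem_filter]
  -- edges of the tree which are not in `D`
  have htree : ∀ y, y ≠ v → par y ≠ v → ¬ D.Adj y (par y) →
      (y = i ∧ par y ∈ Js) ∨ (par y = i ∧ y ∈ Js) := by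
    intro y hy hp hD
    rcases (hHadj y (par y)).1 (hpar1 y hy) with h1 | h1 | h1 | h1 | h1
    · exact absurd h1 hD
    · exact absurd h1.1 hy
    · exact absurd h1.1 hp
    · exact Or.inl h1
    · exact Or.inr h1
  refine ⟨G, Rm, Rp, hGv, hGpos, ?_, ?_, ?_, ?_, ?_, ?_, ?_, ?_⟩
  · intro x
    by_cases hx : x ∈ C
    · rw [hG x hx]; exact hgB _
    · have : G x = 0 := dif_neg hx
      rw [this]; exact Nat.zero_le _
  · intro x hx y hy hxy
    exact hGinj x (by exact_mod_cast hx) y (by exact_mod_cast hy) hxy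
  · -- coverage by an edge of `D`
    intro x hx hxv hxm hxp
    by_cases hp : par x = v
    · have h1 : D.Adj x v := by
        by_contra h2
        exact hxm ((memRm x).2 ⟨hx, hxv, Or.inl ⟨hp, h2⟩⟩)
      exact ⟨x, hx, v, hvC, h1, by rw [hGv]; omega⟩
    · obtain ⟨k1, k2, k3, k4, k5⟩ := key x hx hxv hp
      have h1 : D.Adj (τ x) (par x) := by
        by_contra h2
        by_cases hi : par x = i
        · exact hxp ((memRp x).2 ⟨hx, hxv, hp, hi, by rw [← hi]; exact h2⟩)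
        · exact hxm ((memRm x).2 ⟨hx, hxv, Or.inr ⟨hp, hi, h2⟩⟩)
      exact ⟨par x, hparC x hxv, τ x, k1, h1.symm, by omega⟩
  · intro x hx
    obtain ⟨h1, h2, h3⟩ := (memRm x).1 hx
    refine ⟨h1, h2, ?_⟩
    rcases h3 with ⟨h3, h4⟩ | ⟨h3, h4, h5⟩
    · left
      rcases (hHadj x (par x)).1 (hpar1 x h2) with h6 | h6 | h6 | h6 | h6
      · rw [h3] at h6; exact absurd h6 h4
      · exact absurd h6.1 h2
      · exact h6.2
      · exfalso
        have := h6.2
        rw [h3] at this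
        exact hvJ this
      · exfalso
        have h7 : i = v := h6.1.symm.trans h3
        exact hJi ⟨x, h6.2⟩ h7
    · right
      obtain ⟨k1, k2, k3, k4, k5⟩ := key x h1 h2 h3
      rcases htree (τ x) k2 (by rw [k3]; exact h3) (by rw [k3]; exact h5) with h6 | h6
      · refine ⟨par x, hparC x h2, by rw [← k3]; exact h6.2, ?_⟩
        rw [← h6.1]
        omega
      · exfalso
        exact h4 (by rw [← k3]; exact h6.1)
  · intro x hx
    obtain ⟨h1, h2, h3, h4, h5⟩ := (memRp x).1 hx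
    obtain ⟨k1, k2, k3, k4, k5⟩ := key x h1 h2 h3
    refine ⟨h1, h2, ?_, ?_⟩
    · rintro rfl
      have := (hpar1 x h2).ne'
      exact this h4
    · rcases htree (τ x) k2 (by rw [k3]; exact h3) (by rw [k3, h4]; exact h5) with h6 | h6
      · exfalso
        have h7 := hpar1 (τ x) k2
        rw [k3, h4, h6.1] at h7
        exact H.irrefl h7
      · refine ⟨τ x, k1, h6.2, ?_⟩
        rw [← h4]
        omega
  · rw [Finset.disjoint_left]
    intro x hx hx'
    obtain ⟨_, _, h3⟩ := (memRm x).1 hx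
    obtain ⟨_, _, h4, h5, _⟩ := (memRp x).1 hx'
    rcases h3 with h3 | h3
    · exact h4 h3.1
    · exact h3.2.1 h5
  · intro h1 h2
    have h3 := hroot i ((hHadj v i).2 (Or.inl h1))
    obtain ⟨_, _, h4⟩ := (memRm i).1 h2
    rcases h4 with h4 | h4
    · exact h4.2 h1.symm
    · exact h4.1 h3.1
  · -- the extra edge
    rcases hab0 with ⟨h0, h1, h2, h3, h4, h5, h6, h7⟩ | ⟨b, hbC, hbK, hbD, hbp⟩ |
      ⟨h0, h1, h2, h3, h4, h5⟩
    · left
      have hP : dep a0 ≤ dep b0 + 1 ∧ dep b0 ≤ dep a0 + 1 ∧ (⟨a0, ha0C⟩ : K) ≠ vK ∧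
          (⟨b0, hb0C⟩ : K) ≠ vK ∧ (⟨a0, ha0C⟩ : K) ≠ ⟨b0, hb0C⟩ ∧
          parK ⟨a0, ha0C⟩ ≠ ⟨b0, hb0C⟩ ∧ parK ⟨b0, hb0C⟩ ≠ ⟨a0, ha0C⟩ := by
        refine ⟨h1, h2, (hneK _).2 h3, (hneK _).2 h4, fun h => h5 (congrArg Subtype.val h),
          fun h => h6 ?_, fun h => h7 ?_⟩
        · rw [← hparK1 ⟨a0, ha0C⟩ h3, h]
        · rw [← hparK1 ⟨b0, hb0C⟩ h4, h]
      refine ⟨a0, ha0C, b0, hb0C, h0, ?_, ?_⟩
      · intro x hx
        rw [hG a0 ha0C, hG b0 hb0C, hG x hx]
        exact hg.ab hP _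
      · intro x hx
        rw [hG a0 ha0C, hG b0 hb0C, hG x hx]
        exact hg.ba hP _
    · right; left
      refine ⟨b, hbC, hbK, ?_⟩
      intro h1
      obtain ⟨_, _, h2⟩ := (memRm b).1 h1
      rcases h2 with h2 | h2
      · exact h2.2 hbD
      · exact h2.1 hbp
    · right; right
      have hbv : b0 ≠ v := fun h => hvJ (h ▸ h1)
      have hiv : i ≠ v := hJi ⟨b0, h1⟩
      have hbi : b0 ≠ i := fun h => hiJ (h ▸ h1)
      refine ⟨b0, hb0C, h1, ?_⟩
      by_cases hp1 : par b0 = i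
      · -- a double edge, `i` above
        have hDb : D.Adj b0 i := by
          by_contra h6
          exact h4 ⟨hp1, h6⟩
        obtain ⟨k1, k2, k3, k4, k5⟩ := key b0 hb0C hbv (by rw [hp1]; exact hiv)
        rw [hp1] at k5
        have hpos := hGpos _ k1 k2
        have hposb := hGpos _ hb0C hbv
        refine ⟨?_, ?_, ?_⟩
        · intro x hx h6
          obtain ⟨r1, r2, r3, r4, r5⟩ := (memRp x).1 hx
          have h7 : G x = G (τ b0) := by omega
          have h8 : x = τ b0 := hGinj x r1 _ k1 h7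
          rw [h8, k4] at r5
          exact r5 hDb
        · intro x hx h6
          obtain ⟨r1, r2, _⟩ := (memRm x).1 hx
          have := hGpos x r1 r2
          omega
        · intro _ h6
          omega
      · by_cases hp2 : par i = b0
        · have hDb : D.Adj i b0 := by
            by_contra h6
            exact h5 ⟨hp2, hiv, h6⟩
          obtain ⟨k1, k2, k3, k4, k5⟩ := key i hiC hiv (by rw [hp2]; exact hbv)
          rw [hp2] at k5
          have hposi := hGpos _ hiC hiv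
          have hposti := hGpos _ k1 k2
          refine ⟨?_, ?_, ?_⟩
          · intro x hx h6
            omega
          · intro x hx h6
            obtain ⟨r1, r2, r3⟩ := (memRm x).1 hx
            have h7 : G x = G (τ i) := by omega
            have h8 : x = τ i := hGinj x r1 _ k1 h7
            rcases r3 with r3 | r3
            · rw [h8, k3, hp2] at r3
              exact hbv r3.1
            · rw [h8, k4, k3, hp2] at r3
              exact r3.2.2 hDb
          · intro h6 h7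
            have h8 := hroot i ((hHadj v i).2 (Or.inl h6))
            exact hbv (hp2.symm.trans h8.1)
        · have hP : dep a0 ≤ dep b0 + 1 ∧ dep b0 ≤ dep a0 + 1 ∧ (⟨a0, ha0C⟩ : K) ≠ vK ∧
              (⟨b0, hb0C⟩ : K) ≠ vK ∧ (⟨a0, ha0C⟩ : K) ≠ ⟨b0, hb0C⟩ ∧
              parK ⟨a0, ha0C⟩ ≠ ⟨b0, hb0C⟩ ∧ parK ⟨b0, hb0C⟩ ≠ ⟨a0, ha0C⟩ := by
            refine ⟨h2, h3, (hneK _).2 (by change a0 ≠ v; rw [h0]; exact hiv), (hneK _).2 hbv,
              fun h => hbi ?_, fun h => hp2 ?_, fun h => hp1 ?_⟩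
            · rw [← h0]; exact (congrArg Subtype.val h).symm
            · have e1 := hparK1 ⟨a0, ha0C⟩ (by change a0 ≠ v; rw [h0]; exact hiv)
              rw [h] at e1
              rw [← h0]; exact e1.symm
            · have e1 := hparK1 ⟨b0, hb0C⟩ hbv
              rw [h] at e1
              rw [← h0]; exact e1.symm
          have q1 : ∀ x ∈ C, G i ≠ G b0 + G x := by
            intro x hx
            rw [← h0, hG a0 ha0C, hG b0 hb0C, hG x hx]
            exact hg.ab hP _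
          have q2 : ∀ x ∈ C, G b0 ≠ G i + G x := by
            intro x hx
            rw [← h0, hG a0 ha0C, hG b0 hb0C, hG x hx]
            exact hg.ba hP _
          refine ⟨fun x hx => q1 x ((memRp x).1 hx).1, fun x hx => q2 x ((memRm x).1 hx).1,
            fun _ => q2 i hiC⟩

end Pool.Agent.Helper67.Gr
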