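import Mathlib
import Pool.Agent.Helper67.Gr.Merged
import Pool.Agent.Helper67.Gr.Cov

/-!
# From the graph to the merged graph
-/

namespace Pool.Agent.Helper67.Gr

/-- a vertex is special: it is not a vertex of the merged graph -/
def Spc {V : Type} (k j p0 : V) (hasJ hasP : Prop) (x : V) : Prop :=
  x = k ∨ (hasJ ∧ x = j) ∨ (hasP ∧ x = p0)

/-- the three kinds of configurations: `v` and `k` adjacent (no `j`), or a neighbour `j` of `v` with
a further neighbour `i`, with or without a vertex `p0` of degree two between `v` and `k` -/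
structure Setup {V : Type} (G : SimpleGraph V) (v k i j p0 : V) (hasJ hasP : Prop) : Prop where
  vk : v ≠ k
  PJ : hasP → hasJ
  noJ : ¬ hasJ → G.Adj v k
  noJi : ¬ hasJ → i = v
  nvk : hasJ → ¬ G.Adj v k
  vj : hasJ → G.Adj v j
  ji : hasJ → G.Adj j i
  jk : hasJ → j ≠ k
  iv : hasJ → i ≠ v
  ik : hasJ → i ≠ k
  bad : hasJ → ¬ (G.Adj v i ∧ G.Adj j k)
  vp : hasP → G.Adj v p0
  pk : hasP → G.Adj p0 k
  np : hasP → ∀ w, G.Adj p0 w → w = v ∨ w = k
  nvi : hasP → ¬ G.Adj v i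
  nki : hasP → ¬ G.Adj k i
  njk : hasP → ¬ G.Adj j k
  reach : hasJ → (G.Adj j k ∨ hasP) ∨
    Relation.ReflTransGen (fun x y => G.Adj x y ∧ x ≠ j ∧ y ≠ j) i v ∨
    Relation.ReflTransGen (fun x y => G.Adj x y ∧ x ≠ j ∧ y ≠ j) i k

section

variable {V : Type} {G : SimpleGraph V} {v k i j p0 : V} {hasJ hasP : Prop}

theorem Setup.vns (S : Setup G v k i j p0 hasJ hasP) : ¬ Spc k j p0 hasJ hasP v := by
  rintro (h | ⟨h, h1⟩ | ⟨h, h1⟩)
  · exact S.vk h
  · exact (S.vj h).ne h1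
  · exact (S.vp h).ne h1

theorem Setup.pj (S : Setup G v k i j p0 hasJ hasP) (h : hasP) : p0 ≠ j := by
  intro h1
  have h2 := S.pk h
  rw [h1] at h2
  exact S.njk h h2

theorem Setup.pi (S : Setup G v k i j p0 hasJ hasP) (h : hasP) : p0 ≠ i := by
  intro h1
  have h2 := S.vp h
  rw [h1] at h2
  exact S.nvi h h2

theorem Setup.ins (S : Setup G v k i j p0 hasJ hasP) : ¬ Spc k j p0 hasJ hasP i := by
  by_cases hJ : hasJ
  · rintro (h | ⟨h, h1⟩ | ⟨h, h1⟩)
    · exact S.ik hJ h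
    · exact (S.ji h).ne' h1
    · exact S.pi h h1.symm
  · rw [S.noJi hJ]
    exact S.vns

/-- the virtual edge -/
def virt {V : Type} (G : SimpleGraph V) (k j : V) (hasJ hasP : Prop) : Prop :=
  (hasJ ∧ G.Adj j k) ∨ hasP

/-- ordinary edges of the merged graph -/
def DG (G : SimpleGraph V) (v k i j p0 : V) (hasJ hasP : Prop) :
    SimpleGraph {x : V // ¬ Spc k j p0 hasJ hasP x} where
  Adj a b := G.Adj a.1 b.1 ∨ (virt G k j hasJ hasP ∧ i ≠ v ∧
    ((a.1 = v ∧ b.1 = i) ∨ (a.1 = i ∧ b.1 = v)))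
  symm := ⟨by
    rintro a b (h | ⟨h1, h2, h3⟩)
    · exact Or.inl h.symm
    · exact Or.inr ⟨h1, h2, by tauto⟩⟩
  loopless := ⟨by
    rintro a (h | ⟨h1, h2, ⟨h3, h4⟩ | ⟨h3, h4⟩⟩)
    · exact G.irrefl h
    · exact h2 (h4.symm.trans h3)
    · exact h2 (h3.symm.trans h4)⟩

/-- the merged graph -/
def HG (G : SimpleGraph V) (v k i j p0 : V) (hasJ hasP : Prop) :
    SimpleGraph {x : V // ¬ Spc k j p0 hasJ hasP x} where
  Adj a b := a ≠ b ∧ ((DG G v k i j p0 hasJ hasP).Adj a b ∨ (a.1 = v ∧ G.Adj k b.1) ∨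
    (b.1 = v ∧ G.Adj k a.1) ∨ (a.1 = i ∧ hasJ ∧ G.Adj j b.1 ∧ b.1 ≠ v) ∨
    (b.1 = i ∧ hasJ ∧ G.Adj j a.1 ∧ a.1 ≠ v))
  symm := ⟨by
    rintro a b ⟨h0, h | h | h | h | h⟩
    · exact ⟨h0.symm, Or.inl h.symm⟩
    · exact ⟨h0.symm, Or.inr (Or.inr (Or.inl h))⟩
    · exact ⟨h0.symm, Or.inr (Or.inl h)⟩
    · exact ⟨h0.symm, Or.inr (Or.inr (Or.inr (Or.inr h)))⟩
    · exact ⟨h0.symm, Or.inr (Or.inr (Or.inr (Or.inl h)))⟩⟩
  loopless := ⟨fun a h => h.1 rfl⟩

open Classical in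
/-- the projection to the merged graph -/
noncomputable def proj (v i k j p0 : V) (hasJ hasP : Prop) (hv : ¬ Spc k j p0 hasJ hasP v)
    (hi : ¬ Spc k j p0 hasJ hasP i) (x : V) : {x : V // ¬ Spc k j p0 hasJ hasP x} :=
  if h : Spc k j p0 hasJ hasP x then (if hasJ ∧ x = j then ⟨i, hi⟩ else ⟨v, hv⟩) else ⟨x, h⟩

theorem proj_ns (hv : ¬ Spc k j p0 hasJ hasP v) (hi : ¬ Spc k j p0 hasJ hasP i) (x : V)
    (hx : ¬ Spc k j p0 hasJ hasP x) : proj v i k j p0 hasJ hasP hv hi x = ⟨x, hx⟩ := by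
  unfold proj; rw [dif_neg hx]

theorem proj_j (hv : ¬ Spc k j p0 hasJ hasP v) (hi : ¬ Spc k j p0 hasJ hasP i) (hJ : hasJ) :
    proj v i k j p0 hasJ hasP hv hi j = ⟨i, hi⟩ := by
  have h : Spc k j p0 hasJ hasP j := Or.inr (Or.inl ⟨hJ, rfl⟩)
  unfold proj; rw [dif_pos h, if_pos ⟨hJ, rfl⟩]

theorem proj_k (S : Setup G v k i j p0 hasJ hasP) (hv : ¬ Spc k j p0 hasJ hasP v)
    (hi : ¬ Spc k j p0 hasJ hasP i) : proj v i k j p0 hasJ hasP hv hi k = ⟨v, hv⟩ := by
  have h : Spc k j p0 hasJ hasP k := Or.inl rfl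
  unfold proj
  rw [dif_pos h, if_neg]
  rintro ⟨h1, h2⟩
  exact S.jk h1 h2.symm

theorem proj_p (S : Setup G v k i j p0 hasJ hasP) (hv : ¬ Spc k j p0 hasJ hasP v)
    (hi : ¬ Spc k j p0 hasJ hasP i) (hP : hasP) :
    proj v i k j p0 hasJ hasP hv hi p0 = ⟨v, hv⟩ := by
  have h : Spc k j p0 hasJ hasP p0 := Or.inr (Or.inr ⟨hP, rfl⟩)
  unfold proj
  rw [dif_pos h, if_neg]
  rintro ⟨h1, h2⟩
  exact S.pj hP h2

/-- edges of `G` are mapped to edges of the merged graph, or to points (one direction) -/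
theorem edge_map_aux (S : Setup G v k i j p0 hasJ hasP) (hv : ¬ Spc k j p0 hasJ hasP v)
    (hi : ¬ Spc k j p0 hasJ hasP i) (x y : V) (hxy : G.Adj x y)
    (hne : ¬ (hasJ ∧ ((x = v ∧ y = j) ∨ (x = j ∧ y = v)))) (hx : Spc k j p0 hasJ hasP x) :
    proj v i k j p0 hasJ hasP hv hi x = proj v i k j p0 hasJ hasP hv hi y ∨
      (HG G v k i j p0 hasJ hasP).Adj (proj v i k j p0 hasJ hasP hv hi x)
        (proj v i k j p0 hasJ hasP hv hi y) := by
  rcases hx with rfl | ⟨hJ, rfl⟩ | ⟨hP, rfl⟩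
  · -- `x = k`
    rw [proj_k S hv hi]
    by_cases hy : Spc x j p0 hasJ hasP y
    · rcases hy with rfl | ⟨hJ, rfl⟩ | ⟨hP, rfl⟩
      · exact absurd hxy G.irrefl
      · right
        rw [proj_j hv hi hJ]
        refine ⟨fun h => S.iv hJ (congrArg Subtype.val h).symm, Or.inl (Or.inr ⟨?_, S.iv hJ, ?_⟩)⟩
        · exact Or.inl ⟨hJ, hxy.symm⟩
        · exact Or.inl ⟨rfl, rfl⟩
      · left
        rw [proj_p S hv hi hP]
    · rw [proj_ns hv hi y hy]
      by_cases hyv : y = v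
      · left; exact Subtype.ext hyv.symm
      · right
        exact ⟨fun h => hyv (congrArg Subtype.val h).symm, Or.inr (Or.inl ⟨rfl, hxy⟩)⟩
  · -- `x = j`
    rw [proj_j hv hi hJ]
    by_cases hy : Spc k x p0 hasJ hasP y
    · rcases hy with rfl | ⟨hJ', rfl⟩ | ⟨hP, rfl⟩
      · right
        rw [proj_k S hv hi]
        refine ⟨fun h => S.iv hJ (congrArg Subtype.val h), Or.inl (Or.inr ⟨?_, S.iv hJ, ?_⟩)⟩
        · exact Or.inl ⟨hJ, hxy⟩
        · exact Or.inr ⟨rfl, rfl⟩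
      · exact absurd hxy G.irrefl
      · exfalso
        rcases S.np hP x hxy.symm with h | h
        · exact (S.vj hJ).ne' h
        · exact S.jk hJ h
    · rw [proj_ns hv hi y hy]
      by_cases hyi : y = i
      · left; exact Subtype.ext hyi.symm
      · right
        refine ⟨fun h => hyi (congrArg Subtype.val h).symm,
          Or.inr (Or.inr (Or.inr (Or.inl ⟨rfl, hJ, hxy, ?_⟩)))⟩
        rintro rfl
        exact hne ⟨hJ, Or.inr ⟨rfl, rfl⟩⟩
  · -- `x = p0`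
    left
    rw [proj_p S hv hi hP]
    rcases S.np hP y hxy with rfl | rfl
    · rw [proj_ns hv hi y hv]
    · rw [proj_k S hv hi]

theorem edge_map (S : Setup G v k i j p0 hasJ hasP) (hv : ¬ Spc k j p0 hasJ hasP v)
    (hi : ¬ Spc k j p0 hasJ hasP i) (x y : V) (hxy : G.Adj x y)
    (hne : ¬ (hasJ ∧ ((x = v ∧ y = j) ∨ (x = j ∧ y = v)))) :
    proj v i k j p0 hasJ hasP hv hi x = proj v i k j p0 hasJ hasP hv hi y ∨
      (HG G v k i j p0 hasJ hasP).Adj (proj v i k j p0 hasJ hasP hv hi x)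
        (proj v i k j p0 hasJ hasP hv hi y) := by
  by_cases hx : Spc k j p0 hasJ hasP x
  · exact edge_map_aux S hv hi x y hxy hne hx
  · by_cases hy : Spc k j p0 hasJ hasP y
    · rcases edge_map_aux S hv hi y x hxy.symm (by tauto) hy with h | h
      · exact Or.inl h.symm
      · exact Or.inr h.symm
    · right
      rw [proj_ns hv hi x hx, proj_ns hv hi y hy]
      exact ⟨fun h => hxy.ne (congrArg Subtype.val h), Or.inl (Or.inl hxy)⟩

theorem HG_connected (S : Setup G v k i j p0 hasJ hasP) (hG : G.Connected) :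
    (HG G v k i j p0 hasJ hasP).Connected := by
  have hv := S.vns
  have hi := S.ins
  set H := HG G v k i j p0 hasJ hasP with hH
  set φ := proj v i k j p0 hasJ hasP hv hi with hφ
  have hφv : φ v = ⟨v, hv⟩ := proj_ns hv hi v hv
  have hφi : φ i = ⟨i, hi⟩ := proj_ns hv hi i hi
  have hstep : ∀ x y, G.Adj x y → ¬ (hasJ ∧ ((x = v ∧ y = j) ∨ (x = j ∧ y = v))) →
      H.Reachable (φ x) (φ y) := by
    intro x y hxy hne
    rcases edge_map S hv hi x y hxy hne with h | h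
    · rw [hφ, h]
    · exact h.reachable
  have hpath : ∀ y, Relation.ReflTransGen (fun x y => G.Adj x y ∧ x ≠ j ∧ y ≠ j) i y →
      H.Reachable (φ i) (φ y) := by
    intro y hy
    induction hy with
    | refl => exact SimpleGraph.Reachable.refl _
    | tail _ hbc ih =>
      refine ih.trans (hstep _ _ hbc.1 ?_)
      rintro ⟨_, ⟨_, h⟩ | ⟨h, _⟩⟩
      · exact hbc.2.2 h
      · exact hbc.2.1 h
  have hiv : hasJ → H.Reachable (φ i) (φ v) := by
    intro hJ
    rcases S.reach hJ with h | h | h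
    · rw [hφi, hφv]
      apply SimpleGraph.Adj.reachable
      refine ⟨fun h1 => S.iv hJ (congrArg Subtype.val h1), Or.inl (Or.inr ⟨?_, S.iv hJ,
        Or.inr ⟨rfl, rfl⟩⟩)⟩
      rcases h with h | h
      · exact Or.inl ⟨hJ, h⟩
      · exact Or.inr h
    · exact hpath v h
    · have h1 := hpath k h
      rw [hφ, proj_k S hv hi] at h1
      rw [hφ, proj_ns hv hi v hv]
      exact h1
  have hall : ∀ x, H.Reachable (φ x) (φ v) := by
    intro x
    have h0 : Relation.ReflTransGen G.Adj v x :=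
      (SimpleGraph.reachable_iff_reflTransGen v x).1 (hG v x)
    induction h0 with
    | refl => exact SimpleGraph.Reachable.refl _
    | @tail b c _ hbc ih =>
      by_cases hne : hasJ ∧ ((b = v ∧ c = j) ∨ (b = j ∧ c = v))
      · obtain ⟨hJ, ⟨_, h⟩ | ⟨_, h⟩⟩ := hne
        · rw [h, hφ, proj_j hv hi hJ, ← hφ, ← hφi]
          exact hiv hJ
        · rw [h]
      · exact (hstep b c hbc hne).symm.trans ih
  have hpre : H.Preconnected := by
    intro a b
    have ha : φ a.1 = a := proj_ns hv hi a.1 a.2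
    have hb : φ b.1 = b := proj_ns hv hi b.1 b.2
    rw [← ha, ← hb]
    exact (hall a.1).trans (hall b.1).symm
  exact @SimpleGraph.Connected.mk _ H hpre ⟨⟨v, hv⟩⟩

end

end Pool.Agent.Helper67.Gr
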