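import Mathlib
import Pool.Agent.Helper67.Gr.Setup

/-!
# Labels of the core from the merged graph
-/

namespace Pool.Agent.Helper67.Gr

section

variable {V : Type} [Fintype V] [DecidableEq V] {G : SimpleGraph V} [DecidableRel G.Adj]
  {v k i j p0 : V} {hasJ hasP : Prop}

open Classical in
/-- the neighbours of `k` in the merged graph -/
noncomputable def KS (G : SimpleGraph V) (v k j p0 : V) (hasJ hasP : Prop) :
    Finset {x : V // ¬ Spc k j p0 hasJ hasP x} :=
  Finset.univ.filter (fun b => G.Adj k b.1 ∧ b.1 ≠ v)

open Classical in
/-- the neighbours of `j` in the merged graph -/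
noncomputable def JS (G : SimpleGraph V) (v k i j p0 : V) (hasJ hasP : Prop) :
    Finset {x : V // ¬ Spc k j p0 hasJ hasP x} :=
  Finset.univ.filter (fun b => hasJ ∧ G.Adj j b.1 ∧ b.1 ≠ v ∧ b.1 ≠ i)

theorem mem_KS (b : {x : V // ¬ Spc k j p0 hasJ hasP x}) :
    b ∈ KS G v k j p0 hasJ hasP ↔ G.Adj k b.1 ∧ b.1 ≠ v := by
  unfold KS; simp

theorem mem_JS (b : {x : V // ¬ Spc k j p0 hasJ hasP x}) :
    b ∈ JS G v k i j p0 hasJ hasP ↔ hasJ ∧ G.Adj j b.1 ∧ b.1 ≠ v ∧ b.1 ≠ i := by
  unfold JS; simp

open Classical in
theorem count (S : Setup G v k i j p0 hasJ hasP) (hE : Fintype.card V ≤ G.edgeFinset.card) :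
    Fintype.card {x : V // ¬ Spc k j p0 hasJ hasP x} ≤
      (DG G v k i j p0 hasJ hasP).edgeFinset.card + (KS G v k j p0 hasJ hasP).card +
        (JS G v k i j p0 hasJ hasP).card := by
  set U := {x : V // ¬ Spc k j p0 hasJ hasP x} with hU
  have hv := S.vns
  have hi := S.ins
  set D := DG G v k i j p0 hasJ hasP with hD
  let spE : Finset (Sym2 V) := (if hasJ then {s(v, j), s(j, i)} else {s(v, k)}) ∪
    (if hasP then {s(v, p0)} else ∅)
  let ψ : Sym2 U → Sym2 V := fun e =>
    if virt G k j hasJ hasP ∧ e = s(⟨v, hv⟩, ⟨i, hi⟩) then (if hasP then s(p0, k) else s(j, k))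
    else e.map Subtype.val
  have hψ1 : virt G k j hasJ hasP → ψ s(⟨v, hv⟩, ⟨i, hi⟩) =
      (if hasP then s(p0, k) else s(j, k)) := fun h => if_pos ⟨h, rfl⟩
  have hψ2 : ∀ e, ¬ (virt G k j hasJ hasP ∧ e = s(⟨v, hv⟩, ⟨i, hi⟩)) →
      ψ e = e.map Subtype.val := fun e h => if_neg h
  have hsub : G.edgeFinset ⊆ ((spE ∪ D.edgeFinset.image ψ) ∪
      (KS G v k j p0 hasJ hasP).image (fun b => s(k, b.1))) ∪
      (JS G v k i j p0 hasJ hasP).image (fun b => s(j, b.1)) := by
    have hmain : ∀ x y, G.Adj x y → (Spc k j p0 hasJ hasP x ∨
        (¬ Spc k j p0 hasJ hasP x ∧ ¬ Spc k j p0 hasJ hasP y)) →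
        s(x, y) ∈ ((spE ∪ D.edgeFinset.image ψ) ∪
          (KS G v k j p0 hasJ hasP).image (fun b => s(k, b.1))) ∪
          (JS G v k i j p0 hasJ hasP).image (fun b => s(j, b.1)) := by
      intro x y hxy hcase
      simp only [Finset.mem_union, Finset.mem_image]
      rcases hcase with hx | ⟨hx, hy⟩
      · rcases hx with rfl | ⟨hJ, rfl⟩ | ⟨hP, rfl⟩
        · by_cases hy : Spc x j p0 hasJ hasP y
          · rcases hy with rfl | ⟨hJ, rfl⟩ | ⟨hP, rfl⟩
            · exact absurd hxy G.irrefl
            · left; left; right
              have hnP : ¬ hasP := fun hP => S.njk hP hxy.symm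
              refine ⟨s(⟨v, hv⟩, ⟨i, hi⟩), ?_, ?_⟩
              · rw [SimpleGraph.mem_edgeFinset, SimpleGraph.mem_edgeSet]
                exact Or.inr ⟨Or.inl ⟨hJ, hxy.symm⟩, S.iv hJ, Or.inl ⟨rfl, rfl⟩⟩
              · rw [hψ1 (Or.inl ⟨hJ, hxy.symm⟩), if_neg hnP, Sym2.eq_swap]
            · left; left; right
              refine ⟨s(⟨v, hv⟩, ⟨i, hi⟩), ?_, ?_⟩
              · rw [SimpleGraph.mem_edgeFinset, SimpleGraph.mem_edgeSet]
                exact Or.inr ⟨Or.inr hP, S.iv (S.PJ hP), Or.inl ⟨rfl, rfl⟩⟩
              · rw [hψ1 (Or.inr hP), if_pos hP, Sym2.eq_swap]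
          · by_cases hyv : y = v
            · left; left; left
              have hnJ : ¬ hasJ := by
                intro hJ
                apply S.nvk hJ
                rw [← hyv]; exact hxy.symm
              simp only [spE, if_neg hnJ, Finset.mem_union, Finset.mem_singleton]
              left
              rw [hyv, Sym2.eq_swap]
            · left; right
              exact ⟨⟨y, hy⟩, (mem_KS _).2 ⟨hxy, hyv⟩, rfl⟩
        · by_cases hy : Spc k x p0 hasJ hasP y
          · rcases hy with rfl | ⟨hJ', rfl⟩ | ⟨hP, rfl⟩
            · left; left; right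
              have hnP : ¬ hasP := fun hP => S.njk hP hxy
              refine ⟨s(⟨v, hv⟩, ⟨i, hi⟩), ?_, ?_⟩
              · rw [SimpleGraph.mem_edgeFinset, SimpleGraph.mem_edgeSet]
                exact Or.inr ⟨Or.inl ⟨hJ, hxy⟩, S.iv hJ, Or.inl ⟨rfl, rfl⟩⟩
              · rw [hψ1 (Or.inl ⟨hJ, hxy⟩), if_neg hnP]
            · exact absurd hxy G.irrefl
            · exfalso
              rcases S.np hP x hxy.symm with h | h
              · exact (S.vj hJ).ne' h
              · exact S.jk hJ h
          · by_cases hyv : y = v
            · left; left; left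
              simp only [spE, if_pos hJ, Finset.mem_union, Finset.mem_insert,
                Finset.mem_singleton]
              left; left
              rw [hyv, Sym2.eq_swap]
            · by_cases hyi : y = i
              · left; left; left
                simp only [spE, if_pos hJ, Finset.mem_union, Finset.mem_insert,
                  Finset.mem_singleton]
                left; right
                rw [hyi]
              · right
                exact ⟨⟨y, hy⟩, (mem_JS _).2 ⟨hJ, hxy, hyv, hyi⟩, rfl⟩
        · rcases S.np hP y hxy with rfl | rfl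
          · left; left; left
            simp only [spE, if_pos hP, Finset.mem_union, Finset.mem_singleton]
            right
            rw [Sym2.eq_swap]
          · left; left; right
            refine ⟨s(⟨v, hv⟩, ⟨i, hi⟩), ?_, ?_⟩
            · rw [SimpleGraph.mem_edgeFinset, SimpleGraph.mem_edgeSet]
              exact Or.inr ⟨Or.inr hP, S.iv (S.PJ hP), Or.inl ⟨rfl, rfl⟩⟩
            · rw [hψ1 (Or.inr hP), if_pos hP]
      · left; left; right
        refine ⟨s(⟨x, hx⟩, ⟨y, hy⟩), ?_, ?_⟩
        · rw [SimpleGraph.mem_edgeFinset, SimpleGraph.mem_edgeSet]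
          exact Or.inl hxy
        · rw [hψ2]
          · rfl
          · rintro ⟨h1, h2⟩
            have h3 : G.Adj v i := by
              rw [Sym2.eq_iff] at h2
              rcases h2 with ⟨h2, h3⟩ | ⟨h2, h3⟩
              · have e1 := congrArg Subtype.val h2
                have e2 := congrArg Subtype.val h3
                simp only at e1 e2
                rw [← e1, ← e2]; exact hxy
              · have e1 := congrArg Subtype.val h2
                have e2 := congrArg Subtype.val h3
                simp only at e1 e2
                rw [← e1, ← e2]; exact hxy.symm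
            rcases h1 with ⟨h1, h4⟩ | h1
            · exact S.bad h1 ⟨h3, h4⟩
            · exact S.nvi h1 h3
    intro e he
    induction e using Sym2.ind with
    | _ x y =>
      rw [SimpleGraph.mem_edgeFinset, SimpleGraph.mem_edgeSet] at he
      by_cases hx : Spc k j p0 hasJ hasP x
      · exact hmain x y he (Or.inl hx)
      · by_cases hy : Spc k j p0 hasJ hasP y
        · rw [Sym2.eq_swap]
          exact hmain y x he.symm (Or.inl hy)
        · exact hmain x y he (Or.inr ⟨hx, hy⟩)
  have h1 := Finset.card_le_card hsub
  have h2 : (((spE ∪ D.edgeFinset.image ψ) ∪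
      (KS G v k j p0 hasJ hasP).image (fun b => s(k, b.1))) ∪
      (JS G v k i j p0 hasJ hasP).image (fun b => s(j, b.1))).card ≤
      spE.card + D.edgeFinset.card + (KS G v k j p0 hasJ hasP).card +
        (JS G v k i j p0 hasJ hasP).card := by
    refine (Finset.card_union_le _ _).trans (Nat.add_le_add ?_ Finset.card_image_le)
    refine (Finset.card_union_le _ _).trans (Nat.add_le_add ?_ Finset.card_image_le)
    exact (Finset.card_union_le _ _).trans (Nat.add_le_add le_rfl Finset.card_image_le)
  -- the special vertices
  have h3 : spE.card + Fintype.card U ≤ Fintype.card V := by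
    have h4 : Fintype.card U = Fintype.card V - Fintype.card {x : V // Spc k j p0 hasJ hasP x} :=
      Fintype.card_subtype_compl _
    have h5 : spE.card ≤ Fintype.card {x : V // Spc k j p0 hasJ hasP x} := by
      rw [Fintype.card_subtype]
      by_cases hJ : hasJ
      · by_cases hP : hasP
        · have h6 : ({k, j, p0} : Finset V) ⊆ Finset.univ.filter (fun x => Spc k j p0 hasJ hasP x) := by
            intro x hx
            simp only [Finset.mem_insert, Finset.mem_singleton] at hx
            simp only [Finset.mem_filter, Finset.mem_univ, true_and]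
            rcases hx with h | h | h
            · exact Or.inl h
            · exact Or.inr (Or.inl ⟨hJ, h⟩)
            · exact Or.inr (Or.inr ⟨hP, h⟩)
          have h7 : ({k, j, p0} : Finset V).card = 3 := by
            rw [Finset.card_eq_three]
            exact ⟨k, j, p0, (S.jk hJ).symm, (S.pk hP).ne', (S.pj hP).symm, rfl⟩
          have h8 := Finset.card_le_card h6
          have h9 : spE.card ≤ 3 := by
            simp only [spE, if_pos hJ, if_pos hP]
            refine (Finset.card_union_le _ _).trans ?_
            have := Finset.card_le_two (a := s(v, j)) (b := s(j, i))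
            rw [Finset.card_singleton]
            omega
          omega
        · have h6 : ({k, j} : Finset V) ⊆ Finset.univ.filter (fun x => Spc k j p0 hasJ hasP x) := by
            intro x hx
            simp only [Finset.mem_insert, Finset.mem_singleton] at hx
            simp only [Finset.mem_filter, Finset.mem_univ, true_and]
            rcases hx with h | h
            · exact Or.inl h
            · exact Or.inr (Or.inl ⟨hJ, h⟩)
          have h7 : ({k, j} : Finset V).card = 2 := Finset.card_pair (S.jk hJ).symm
          have h8 := Finset.card_le_card h6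
          have h9 : spE.card ≤ 2 := by
            simp only [spE, if_pos hJ, if_neg hP, Finset.union_empty]
            exact Finset.card_le_two
          omega
      · have hP : ¬ hasP := fun h => hJ (S.PJ h)
        have h6 : ({k} : Finset V) ⊆ Finset.univ.filter (fun x => Spc k j p0 hasJ hasP x) := by
          intro x hx
          simp only [Finset.mem_singleton] at hx
          simp only [Finset.mem_filter, Finset.mem_univ, true_and]
          exact Or.inl hx
        have h7 : ({k} : Finset V).card = 1 := Finset.card_singleton k
        have h8 := Finset.card_le_card h6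
        have h9 : spE.card ≤ 1 := by
          simp only [spE, if_neg hJ, if_neg hP, Finset.union_empty, Finset.card_singleton]
          exact le_rfl
        omega
    have h10 : Fintype.card {x : V // Spc k j p0 hasJ hasP x} ≤ Fintype.card V :=
      Fintype.card_subtype_le _
    omega
  have h11 : ∀ (i1 i2 : Fintype U), @Fintype.card U i1 = @Fintype.card U i2 :=
    fun i1 i2 => @Fintype.card_congr U U i1 i2 (Equiv.refl U)
  refine (h11 _ _).le.trans (?_ : Fintype.card U ≤ _)
  omega

end

end Pool.Agent.Helper67.Gr
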