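import Mathlib
import Pool.Agent.Helper67.Gr.Assemble

/-!
# Labels of the core
-/

namespace Pool.Agent.Helper67.Gr

/-- a labelling of the core; some labels `f u` are only covered after adding a leaf of `k` with a
label `c` such that `|X - c| = f u` -/
structure Pre {V : Type} (G : SimpleGraph V) (v k : V) (B X d0 : ℕ) (f : V → ℕ)
    (S : Finset V) : Prop where
  fv : f v = 0
  fk : f k = X
  vS : v ∈ S
  kS : k ∈ S
  inj : Set.InjOn f S
  cov : ∀ u ∈ S, u ≠ v →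
    (∃ x ∈ S, ∃ y ∈ S, G.Adj x y ∧ Int.natAbs ((f x : ℤ) - (f y : ℤ)) = f u) ∨
    ∃ c : ℕ, Int.natAbs ((X : ℤ) - (c : ℤ)) = f u ∧ (X ≤ c + B ∧ c ≤ X + B) ∧ 0 < c ∧ c ≠ d0 ∧
      (∀ w ∈ S, f w ≠ c) ∧ ∃ x ∈ S, ∃ y ∈ S, G.Adj x y ∧ Int.natAbs ((f x : ℤ) - (f y : ℤ)) = c
  d0pos : 0 < d0
  d0S : ∀ u ∈ S, f u ≠ d0
  d0cov : ∃ x ∈ S, ∃ y ∈ S, G.Adj x y ∧ Int.natAbs ((f x : ℤ) - (f y : ℤ)) = d0

open Classical in
theorem assemble (m : ℕ) : ∃ B : ℕ, ∀ (V : Type) [Fintype V] [DecidableEq V]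
    (G : SimpleGraph V) [DecidableRel G.Adj] (v k i j p0 : V) (hasJ hasP : Prop),
    Setup G v k i j p0 hasJ hasP → G.Connected → Fintype.card V ≤ G.edgeFinset.card →
    ∀ (K' : Finset V), K'.card ≤ m → v ∈ K' → i ∈ K' →
      (∀ x, Spc k j p0 hasJ hasP x → x ∈ K') →
      (∀ u, u ∉ K' → ∃ q ∈ K', ∀ w, G.Adj u w ↔ w = q) → ∀ X, 4 * B + 4 ≤ X →
      ∃ (f : V → ℕ) (d0 : ℕ), Pre G v k B X d0 f K' ∧
        (∀ u ∈ K', f u ≤ B ∨ (X ≤ f u + B ∧ f u ≤ X + B)) ∧
        (d0 ≤ B ∨ (X ≤ d0 + B ∧ d0 ≤ X + B)) := by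
  obtain ⟨B, hB⟩ := merged m
  refine ⟨B, ?_⟩
  intro V _ _ G _ v k i j p0 hasJ hasP S hG hE K' hK' hvK hiK hspK hout X hX
  have hv := S.vns
  have hi := S.ins
  let U := {x : V // ¬ Spc k j p0 hasJ hasP x}
  let vU : U := ⟨v, hv⟩
  let iU : U := ⟨i, hi⟩
  let D := DG G v k i j p0 hasJ hasP
  let H := HG G v k i j p0 hasJ hasP
  let Ks := KS G v k j p0 hasJ hasP
  let Js := JS G v k i j p0 hasJ hasP
  let C : Finset U := Finset.univ.filter (fun x => x.1 ∈ K')
  have memC : ∀ x : U, x ∈ C ↔ x.1 ∈ K' := by intro x; simp [C]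
  have memK : ∀ b : U, b ∈ Ks ↔ G.Adj k b.1 ∧ b.1 ≠ v := fun b => mem_KS b
  have memJ : ∀ b : U, b ∈ Js ↔ hasJ ∧ G.Adj j b.1 ∧ b.1 ≠ v ∧ b.1 ≠ i := fun b => mem_JS b
  have hvC : vU ∈ C := (memC _).2 hvK
  have hiC : iU ∈ C := (memC _).2 hiK
  have hHadj : ∀ x y : U, H.Adj x y ↔ (D.Adj x y ∨ (x = vU ∧ y ∈ Ks) ∨ (y = vU ∧ x ∈ Ks) ∨
      (x = iU ∧ y ∈ Js) ∨ (y = iU ∧ x ∈ Js)) := by
    intro x y
    constructor
    · rintro ⟨h0, h | ⟨h1, h2⟩ | ⟨h1, h2⟩ | ⟨h1, h2, h3, h4⟩ | ⟨h1, h2, h3, h4⟩⟩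
      · exact Or.inl h
      · refine Or.inr (Or.inl ⟨Subtype.ext h1, (memK _).2 ⟨h2, fun h => h0 ?_⟩⟩)
        exact Subtype.ext (h1.trans h.symm)
      · refine Or.inr (Or.inr (Or.inl ⟨Subtype.ext h1, (memK _).2 ⟨h2, fun h => h0 ?_⟩⟩))
        exact Subtype.ext (h.trans h1.symm)
      · refine Or.inr (Or.inr (Or.inr (Or.inl ⟨Subtype.ext h1, (memJ _).2 ⟨h2, h3, h4,
          fun h => h0 ?_⟩⟩)))
        exact Subtype.ext (h1.trans h.symm)
      · refine Or.inr (Or.inr (Or.inr (Or.inr ⟨Subtype.ext h1, (memJ _).2 ⟨h2, h3, h4,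
          fun h => h0 ?_⟩⟩)))
        exact Subtype.ext (h.trans h1.symm)
    · rintro (h | ⟨h1, h2⟩ | ⟨h1, h2⟩ | ⟨h1, h2⟩ | ⟨h1, h2⟩)
      · exact ⟨h.ne, Or.inl h⟩
      · have h3 := (memK _).1 h2
        refine ⟨fun h => h3.2 ?_, Or.inr (Or.inl ⟨congrArg Subtype.val h1, h3.1⟩)⟩
        rw [← h, h1]
      · have h3 := (memK _).1 h2
        refine ⟨fun h => h3.2 ?_, Or.inr (Or.inr (Or.inl ⟨congrArg Subtype.val h1, h3.1⟩))⟩
        rw [h, h1]
      · have h3 := (memJ _).1 h2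
        refine ⟨fun h => h3.2.2.2 ?_, Or.inr (Or.inr (Or.inr (Or.inl
          ⟨congrArg Subtype.val h1, h3.1, h3.2.1, h3.2.2.1⟩)))⟩
        rw [← h, h1]
      · have h3 := (memJ _).1 h2
        refine ⟨fun h => h3.2.2.2 ?_, Or.inr (Or.inr (Or.inr (Or.inr
          ⟨congrArg Subtype.val h1, h3.1, h3.2.1, h3.2.2.1⟩)))⟩
        rw [h, h1]
  have hDreal : ∀ x y : U, x.1 ∉ K' → D.Adj x y → G.Adj x.1 y.1 := by
    rintro x y hx (h | ⟨_, _, ⟨h, _⟩ | ⟨h, _⟩⟩)
    · exact h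
    · exact absurd (h ▸ hvK) hx
    · exact absurd (h ▸ hiK) hx
  have hUcard : C.card ≤ m := by
    refine le_trans ?_ hK'
    have h1 : C.image Subtype.val ⊆ K' := by
      intro x hx
      rw [Finset.mem_image] at hx
      obtain ⟨y, hy, rfl⟩ := hx
      exact (memC y).1 hy
    have h2 : (C.image Subtype.val).card = C.card :=
      Finset.card_image_of_injective _ Subtype.val_injective
    rw [← h2]
    exact Finset.card_le_card h1
  have hcnt := count S hE
  obtain ⟨g, Rm, Rp, M⟩ := hB U D H vU iU Ks Js C hHadj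
    (fun h => ((memK _).1 h).2 rfl) (fun h => ((memJ _).1 h).2.2.1 rfl)
    (fun h => ((memJ _).1 h).2.2.2 rfl)
    (by
      rintro ⟨b, hb⟩ h
      exact S.iv ((memJ _).1 hb).1 (congrArg Subtype.val h))
    (HG_connected S hG)
    (by
      have h11 : ∀ (i1 i2 : Fintype U), @Fintype.card U i1 = @Fintype.card U i2 :=
        fun i1 i2 => @Fintype.card_congr U U i1 i2 (Equiv.refl U)
      refine (h11 _ _).le.trans (hcnt.trans (le_of_eq ?_))
      congr!)
    hUcard hvC hiC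
    (by
      intro x hx
      rw [memC] at hx
      obtain ⟨q, hqK, hq⟩ := hout x.1 hx
      refine ⟨proj v i k j p0 hasJ hasP hv hi q, ?_⟩
      intro y hy
      rcases (hHadj x y).1 hy with h | ⟨h1, h2⟩ | ⟨h1, h2⟩ | ⟨h1, h2⟩ | ⟨h1, h2⟩
      · have h3 := (hq _).1 (hDreal x y hx h)
        rw [← h3, proj_ns hv hi y.1 y.2]
      · exact absurd (h1 ▸ hvK) hx
      · have h3 := (hq _).1 ((memK _).1 h2).1.symm
        rw [← h3, proj_k S hv hi]
        exact h1
      · exact absurd (h1 ▸ hiK) hx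
      · have h3 := (hq _).1 ((memJ _).1 h2).2.1.symm
        rw [← h3, proj_j hv hi ((memJ _).1 h2).1]
        exact h1)
    (by
      intro x hx h1 h2
      rw [memC] at hx
      obtain ⟨q, hqK, hq⟩ := hout x.1 hx
      have h3 := (hq _).1 (hDreal x vU hx h1)
      have h4 := (hq _).1 ((memK _).1 h2).1.symm
      exact S.vk (h3.trans h4.symm))
    (by
      intro x hx h1 h2
      rw [memC] at hx
      obtain ⟨q, hqK, hq⟩ := hout x.1 hx
      have h3 := (hq _).1 (hDreal x iU hx h1)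
      have h4 := (hq _).1 ((memJ _).1 h2).2.1.symm
      exact (S.ji ((memJ _).1 h2).1).ne (h4.trans h3.symm))
  -- the labels
  have hgiB : g iU ≤ B := M.le iU
  have hgipos : hasJ → 0 < g iU := by
    intro hJ
    exact M.pos iU hiC (fun h => S.iv hJ (congrArg Subtype.val h))
  let f : V → ℕ := fun x => if h : Spc k j p0 hasJ hasP x then
    (if hasJ ∧ x = j then X + g iU else if hasP ∧ x = p0 then X - g iU else X) else g ⟨x, h⟩
  have fo : ∀ x (hx : ¬ Spc k j p0 hasJ hasP x), f x = g ⟨x, hx⟩ := fun x hx => dif_neg hx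
  have fj : hasJ → f j = X + g iU := by
    intro hJ
    have h : Spc k j p0 hasJ hasP j := Or.inr (Or.inl ⟨hJ, rfl⟩)
    simp only [f, dif_pos h]
    rw [if_pos ⟨hJ, trivial⟩]
  have fp : hasP → f p0 = X - g iU := by
    intro hP
    have h : Spc k j p0 hasJ hasP p0 := Or.inr (Or.inr ⟨hP, rfl⟩)
    simp only [f, dif_pos h]
    rw [if_neg (fun h => S.pj hP h.2), if_pos ⟨hP, trivial⟩]
  have fk : f k = X := by
    have h : Spc k j p0 hasJ hasP k := Or.inl rfl
    simp only [f, dif_pos h]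
    rw [if_neg (fun h => S.jk h.1 h.2.symm), if_neg (fun h => (S.pk h.1).ne' h.2)]
  have fv : f v = 0 := by rw [fo v hv]; exact M.gv
  have fi : f i = g iU := fo i hi
  have fB : ∀ x, ¬ Spc k j p0 hasJ hasP x → f x ≤ B := fun x hx => by rw [fo x hx]; exact M.le _
  have fS : ∀ x, Spc k j p0 hasJ hasP x → X ≤ f x + B ∧ f x ≤ X + B := by
    rintro x (rfl | ⟨hJ, rfl⟩ | ⟨hP, rfl⟩)
    · rw [fk]; omega
    · rw [fj hJ]; omega
    · rw [fp hP]; omega
  have hkK : k ∈ K' := hspK k (Or.inl rfl)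
  have hjK : hasJ → j ∈ K' := fun hJ => hspK j (Or.inr (Or.inl ⟨hJ, rfl⟩))
  have hpK : hasP → p0 ∈ K' := fun hP => hspK p0 (Or.inr (Or.inr ⟨hP, rfl⟩))
  have ginj : ∀ x ∈ C, ∀ y ∈ C, g x = g y → x = y := fun x hx y hy h =>
    M.inj (by exact_mod_cast hx) (by exact_mod_cast hy) h
  -- special labels are different from a number `c` as soon as ...
  have hspec : ∀ c, B < c → c ≠ X → (hasJ → c ≠ X + g iU) → (hasP → c ≠ X - g iU) →
      ∀ w ∈ K', f w ≠ c := by
    intro c h1 h2 h3 h4 w hw h5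
    by_cases hws : Spc k j p0 hasJ hasP w
    · rcases hws with rfl | ⟨hJ, rfl⟩ | ⟨hP, rfl⟩
      · rw [fk] at h5; exact h2 h5.symm
      · rw [fj hJ] at h5; exact h3 hJ h5.symm
      · rw [fp hP] at h5; exact h4 hP h5.symm
    · have := fB w hws
      omega
  -- realizations
  have hDr : ∀ a ∈ C, ∀ b ∈ C, D.Adj a b → ∃ x ∈ K', ∃ y ∈ K', G.Adj x y ∧
      Int.natAbs ((f x : ℤ) - (f y : ℤ)) = Int.natAbs ((g a : ℤ) - (g b : ℤ)) := by
    intro a ha b hb hab
    rcases hab with h | ⟨h1, h2, h3⟩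
    · refine ⟨a.1, (memC a).1 ha, b.1, (memC b).1 hb, h, ?_⟩
      rw [fo a.1 a.2, fo b.1 b.2]
    · have h4 : Int.natAbs ((g a : ℤ) - (g b : ℤ)) = g iU := by
        rcases h3 with ⟨h3, h4⟩ | ⟨h3, h4⟩
        · have e1 : a = vU := Subtype.ext h3
          have e2 : b = iU := Subtype.ext h4
          rw [e1, e2, M.gv]
          omega
        · have e1 : a = iU := Subtype.ext h3
          have e2 : b = vU := Subtype.ext h4
          rw [e1, e2, M.gv]
          omega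
      rw [h4]
      by_cases hP : hasP
      · refine ⟨p0, hpK hP, k, hkK, S.pk hP, ?_⟩
        rw [fp hP, fk]
        omega
      · rcases h1 with ⟨hJ, h1⟩ | h1
        · refine ⟨j, hjK hJ, k, hkK, h1, ?_⟩
          rw [fj hJ, fk]
          omega
        · exact absurd h1 hP
  have hKr : ∀ b ∈ C, b ∈ Ks → ∃ x ∈ K', ∃ y ∈ K', G.Adj x y ∧
      Int.natAbs ((f x : ℤ) - (f y : ℤ)) = X - g b := by
    intro b hb hbK
    refine ⟨k, hkK, b.1, (memC b).1 hb, ((memK b).1 hbK).1, ?_⟩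
    rw [fk, fo b.1 b.2]
    have := M.le b
    change Int.natAbs ((X : ℤ) - (g b : ℤ)) = X - g b
    omega
  have hJr : ∀ b ∈ C, b ∈ Js → ∃ x ∈ K', ∃ y ∈ K', G.Adj x y ∧
      Int.natAbs ((f x : ℤ) - (f y : ℤ)) = X + g iU - g b := by
    intro b hb hbJ
    have hJ := ((memJ b).1 hbJ).1
    refine ⟨j, hjK hJ, b.1, (memC b).1 hb, ((memJ b).1 hbJ).2.1, ?_⟩
    rw [fj hJ, fo b.1 b.2]
    have := M.le b
    change Int.natAbs (((X + g iU : ℕ) : ℤ) - (g b : ℤ)) = X + g iU - g b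
    omega
  have hDvi : hasP → D.Adj vU iU := fun hP =>
    Or.inr ⟨Or.inr hP, S.iv (S.PJ hP), Or.inl ⟨rfl, rfl⟩⟩
  have hinj : Set.InjOn f K' := by
    intro x hx y hy hxy
    by_cases hxs : Spc k j p0 hasJ hasP x <;> by_cases hys : Spc k j p0 hasJ hasP y
    · rcases hxs with rfl | ⟨hJ, rfl⟩ | ⟨hP, rfl⟩ <;>
        rcases hys with rfl | ⟨hJ', rfl⟩ | ⟨hP', rfl⟩
      · rfl
      · exfalso
        rw [fk, fj hJ'] at hxy
        have := hgipos hJ'
        omega
      · exfalso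
        rw [fk, fp hP'] at hxy
        have := hgipos (S.PJ hP')
        omega
      · exfalso
        rw [fk, fj hJ] at hxy
        have := hgipos hJ
        omega
      · rfl
      · exfalso
        rw [fj hJ, fp hP'] at hxy
        have := hgipos hJ
        omega
      · exfalso
        rw [fk, fp hP] at hxy
        have := hgipos (S.PJ hP)
        omega
      · exfalso
        rw [fj hJ', fp hP] at hxy
        have := hgipos hJ'
        omega
      · rfl
    · exfalso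
      have := fS x hxs
      have := fB y hys
      omega
    · exfalso
      have := fS y hys
      have := fB x hxs
      omega
    · rw [fo x hxs, fo y hys] at hxy
      have h1 := ginj ⟨x, hxs⟩ ((memC _).2 (by exact_mod_cast hx)) ⟨y, hys⟩
        ((memC _).2 (by exact_mod_cast hy)) hxy
      exact congrArg Subtype.val h1
  -- coverage, given the value `d0`
  have hcov : ∀ d0 : ℕ, (∀ x ∈ Rm, X - g x ≠ d0) → (∀ x ∈ Rp, X + g x ≠ d0) →
      ∀ u ∈ K', u ≠ v →
      (∃ x ∈ K', ∃ y ∈ K', G.Adj x y ∧ Int.natAbs ((f x : ℤ) - (f y : ℤ)) = f u) ∨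
      ∃ c : ℕ, Int.natAbs ((X : ℤ) - (c : ℤ)) = f u ∧ (X ≤ c + B ∧ c ≤ X + B) ∧ 0 < c ∧ c ≠ d0 ∧
        (∀ w ∈ K', f w ≠ c) ∧ ∃ x ∈ K', ∃ y ∈ K', G.Adj x y ∧ Int.natAbs ((f x : ℤ) - (f y : ℤ)) = c := by
    intro d0 hd1 hd2 u hu huv
    by_cases hus : Spc k j p0 hasJ hasP u
    · left
      rcases hus with rfl | ⟨hJ, rfl⟩ | ⟨hP, rfl⟩
      · rw [fk]
        by_cases hJ : hasJ
        · refine ⟨j, hjK hJ, i, hiK, S.ji hJ, ?_⟩
          rw [fj hJ, fi]
          omega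
        · refine ⟨v, hvK, u, hkK, S.noJ hJ, ?_⟩
          rw [fv, fk]
          omega
      · refine ⟨v, hvK, u, hjK hJ, S.vj hJ, ?_⟩
        rw [fv]
        omega
      · refine ⟨v, hvK, u, hpK hP, S.vp hP, ?_⟩
        rw [fv]
        omega
    · have huC : (⟨u, hus⟩ : U) ∈ C := (memC _).2 hu
      have huvU : (⟨u, hus⟩ : U) ≠ vU := fun h => huv (congrArg Subtype.val h)
      have hgu := M.pos _ huC huvU
      have hguB := M.le ⟨u, hus⟩
      rw [fo u hus]
      by_cases hm : (⟨u, hus⟩ : U) ∈ Rm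
      · right
        obtain ⟨_, _, h3⟩ := M.rm _ hm
        refine ⟨X - g ⟨u, hus⟩, by omega, ⟨by omega, by omega⟩, by omega, hd1 _ hm, ?_, ?_⟩
        · apply hspec
          · omega
          · omega
          · intro hJ; omega
          · intro hP h4
            have h5 : g ⟨u, hus⟩ = g iU := by omega
            have h6 := ginj _ huC _ hiC h5
            rw [h6] at hm
            exact M.irm (hDvi hP) hm
        · rcases h3 with h3 | ⟨b, hbC, hbJ, hb⟩
          · exact hKr _ huC h3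
          · obtain ⟨x, hx, y, hy, h4, h5⟩ := hJr b hbC hbJ
            exact ⟨x, hx, y, hy, h4, by rw [h5]; omega⟩
      · by_cases hp : (⟨u, hus⟩ : U) ∈ Rp
        · right
          obtain ⟨_, _, h3, b, hbC, hbJ, hb⟩ := M.rp _ hp
          refine ⟨X + g ⟨u, hus⟩, by omega, ⟨by omega, by omega⟩, by omega, hd2 _ hp, ?_, ?_⟩
          · apply hspec
            · omega
            · omega
            · intro hJ h4
              have h5 : g ⟨u, hus⟩ = g iU := by omega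
              exact h3 (ginj _ huC _ hiC h5)
            · intro hP; omega
          · obtain ⟨x, hx, y, hy, h4, h5⟩ := hJr b hbC hbJ
            exact ⟨x, hx, y, hy, h4, by rw [h5]; omega⟩
        · left
          obtain ⟨a, ha, b, hb, h1, h2⟩ := M.cov _ huC huvU hm hp
          obtain ⟨x, hx, y, hy, h3, h4⟩ := hDr a ha b hb h1
          exact ⟨x, hx, y, hy, h3, by rw [h4]; omega⟩
  have hfb : ∀ u ∈ K', f u ≤ B ∨ (X ≤ f u + B ∧ f u ≤ X + B) := by
    intro u _
    by_cases hus : Spc k j p0 hasJ hasP u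
    · exact Or.inr (fS u hus)
    · exact Or.inl (fB u hus)
  rcases M.ext with ⟨a, ha, b, hb, h1, h2, h3⟩ | ⟨b, hb, hbK, hbm⟩ | ⟨b, hb, hbJ, h1, h2, h3⟩
  · -- an ordinary edge
    set d0 := Int.natAbs ((g a : ℤ) - (g b : ℤ)) with hd0
    have hgaB := M.le a
    have hgbB := M.le b
    have hd0B : d0 ≤ B := by omega
    have hd0pos : 0 < d0 := by
      have := h2 vU hvC
      rw [M.gv] at this
      omega
    refine ⟨f, d0, ⟨fv, fk, hvK, hkK, hinj, hcov d0 ?_ ?_, hd0pos, ?_, hDr a ha b hb h1⟩, hfb,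
      Or.inl hd0B⟩
    · intro x _
      have := M.le x
      omega
    · intro x _
      omega
    · intro u hu h4
      by_cases hus : Spc k j p0 hasJ hasP u
      · have := fS u hus
        omega
      · rw [fo u hus] at h4
        have h5 := h2 ⟨u, hus⟩ ((memC _).2 hu)
        have h6 := h3 ⟨u, hus⟩ ((memC _).2 hu)
        omega
  · -- an edge at `k`
    have hgbB := M.le b
    have hbv : b ≠ vU := fun h => ((memK b).1 hbK).2 (congrArg Subtype.val h)
    have hgb := M.pos b hb hbv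
    refine ⟨f, X - g b, ⟨fv, fk, hvK, hkK, hinj, hcov _ ?_ ?_, by omega, ?_, hKr b hb hbK⟩, hfb,
      Or.inr ⟨by omega, by omega⟩⟩
    · intro x hx h4
      have hxB := M.le x
      have h5 : g x = g b := by omega
      have h6 := ginj x (M.rm x hx).1 b hb h5
      rw [h6] at hx
      exact hbm hx
    · intro x hx
      have := M.pos x (M.rp x hx).1 (M.rp x hx).2.1
      omega
    · apply hspec
      · omega
      · omega
      · intro hJ; omega
      · intro hP h4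
        have h5 : g b = g iU := by omega
        have h6 := ginj b hb iU hiC h5
        rw [h6] at hbK
        exact S.nki hP ((memK _).1 hbK).1
  · -- an edge at `j`
    have hgbB := M.le b
    have hJ : hasJ := ((memJ b).1 hbJ).1
    have hbv : b ≠ vU := fun h => ((memJ b).1 hbJ).2.2.1 (congrArg Subtype.val h)
    have hbi : b ≠ iU := fun h => ((memJ b).1 hbJ).2.2.2 (congrArg Subtype.val h)
    have hgb := M.pos b hb hbv
    refine ⟨f, X + g iU - g b, ⟨fv, fk, hvK, hkK, hinj, hcov _ ?_ ?_, by omega, ?_,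
      hJr b hb hbJ⟩, hfb, Or.inr ⟨by omega, by omega⟩⟩
    · intro x hx h4
      have hxB := M.le x
      have := h2 x hx
      omega
    · intro x hx h4
      have := h1 x hx
      omega
    · apply hspec
      · omega
      · intro h4
        exact hbi (ginj b hb iU hiC (by omega))
      · intro _; omega
      · intro hP h4
        have := h3 (hDvi hP)
        omega

/-- adding the leaves of `k` needed for the repairs -/
theorem Pre.repair {V : Type} [Fintype V] [DecidableEq V] {G : SimpleGraph V}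
    [DecidableRel G.Adj] {v k : V} {B X d0 : ℕ} {f : V → ℕ} {S : Finset V}
    (h : Pre G v k B X d0 f S)
    (hk : S.card ≤ (Finset.univ.filter (fun u => u ∉ S ∧ G.Adj k u)).card) :
    ∃ (f' : V → ℕ) (W : Finset V), Cov G v d0 f' (S ∪ W) ∧ (∀ u ∈ S, f' u = f u) ∧
      (∀ u ∈ W, u ∉ S ∧ G.Adj k u ∧ X ≤ f' u + B ∧ f' u ≤ X + B) ∧ W.card ≤ S.card := by
  classical
  set R : Finset V := S.filter (fun u => u ≠ v ∧ ¬ ∃ x ∈ S, ∃ y ∈ S, G.Adj x y ∧
    Int.natAbs ((f x : ℤ) - (f y : ℤ)) = f u) with hR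
  have memR : ∀ u, u ∈ R ↔ (u ∈ S ∧ u ≠ v ∧ ¬ ∃ x ∈ S, ∃ y ∈ S, G.Adj x y ∧
    Int.natAbs ((f x : ℤ) - (f y : ℤ)) = f u) := by
    intro u; rw [hR, Finset.mem_filter]
  have hex : ∀ u, ∃ c : ℕ, u ∈ R → (Int.natAbs ((X : ℤ) - (c : ℤ)) = f u ∧
      (X ≤ c + B ∧ c ≤ X + B) ∧ 0 < c ∧ c ≠ d0 ∧
      (∀ w ∈ S, f w ≠ c) ∧ ∃ x ∈ S, ∃ y ∈ S, G.Adj x y ∧
        Int.natAbs ((f x : ℤ) - (f y : ℤ)) = c) := by
    intro u
    by_cases hu : u ∈ R
    · obtain ⟨h1, h2, h3⟩ := (memR u).1 hu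
      rcases h.cov u h1 h2 with h4 | ⟨c, h4⟩
      · exact absurd h4 h3
      · exact ⟨c, fun _ => h4⟩
    · exact ⟨0, fun h1 => absurd h1 hu⟩
  choose c hc using hex
  have hcinj : Set.InjOn c R := by
    intro u hu w hw huw
    have h1 := (hc u (by exact_mod_cast hu)).1
    have h2 := (hc w (by exact_mod_cast hw)).1
    rw [huw, h2] at h1
    have hu' : u ∈ S := ((memR u).1 (by exact_mod_cast hu)).1
    have hw' : w ∈ S := ((memR w).1 (by exact_mod_cast hw)).1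
    exact (h.inj (by exact_mod_cast hw') (by exact_mod_cast hu') h1).symm
  have hLcard : (R.image c).card = R.card := Finset.card_image_of_injOn hcinj
  have hRS : R.card ≤ S.card := Finset.card_le_card (Finset.filter_subset _ _)
  obtain ⟨W, hW1, hW2⟩ := Finset.exists_subset_card_eq (hRS.trans hk)
  have hWmem : ∀ u ∈ W, u ∉ S ∧ G.Adj k u := by
    intro u hu
    have := hW1 hu
    simp only [Finset.mem_filter, Finset.mem_univ, true_and] at this
    exact this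
  obtain ⟨f', h1, h2, h3, h4⟩ := add_leaves (f := f) (S := S) (W := W) (L := R.image c)
    (by
      rw [Finset.disjoint_left]
      intro u hu hu'
      exact (hWmem u hu).1 hu')
    (by rw [hW2, hLcard])
    (by
      intro u hu hu'
      rw [Finset.mem_image] at hu'
      obtain ⟨r, hr, hr2⟩ := hu'
      exact (hc r hr).2.2.2.2.1 u hu hr2.symm)
    h.inj
  have hkeep : ∀ x ∈ S, ∀ y ∈ S, Int.natAbs ((f' x : ℤ) - (f' y : ℤ)) =
      Int.natAbs ((f x : ℤ) - (f y : ℤ)) := by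
    intro x hx y hy
    rw [h1 x hx, h1 y hy]
  have hsub : ∀ x ∈ S, x ∈ S ∪ W := fun x hx => Finset.mem_union_left _ hx
  refine ⟨f', W, ⟨?_, hsub v h.vS, h2, ?_, h.d0pos, ?_, ?_⟩, h1, ?_, by omega⟩
  · rw [h1 v h.vS, h.fv]
  · intro u hu huv
    rw [Finset.mem_union] at hu
    rcases hu with hu | hu
    · by_cases hcase : ∃ x ∈ S, ∃ y ∈ S, G.Adj x y ∧
          Int.natAbs ((f x : ℤ) - (f y : ℤ)) = f u
      · obtain ⟨x, hx, y, hy, h5, h6⟩ := hcase
        exact ⟨x, hsub x hx, y, hsub y hy, h5, by rw [hkeep x hx y hy, h6, h1 u hu]⟩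
      · have huR : u ∈ R := (memR u).2 ⟨hu, huv, hcase⟩
        obtain ⟨w, hw, hw2⟩ := h4 (c u) (Finset.mem_image.2 ⟨u, huR, rfl⟩)
        refine ⟨k, hsub k h.kS, w, Finset.mem_union_right _ hw, (hWmem w hw).2, ?_⟩
        rw [h1 k h.kS, h.fk, hw2, h1 u hu]
        exact (hc u huR).1
    · have h5 := h3 u hu
      rw [Finset.mem_image] at h5
      obtain ⟨r, hr, hr2⟩ := h5
      obtain ⟨x, hx, y, hy, h6, h7⟩ := (hc r hr).2.2.2.2.2
      exact ⟨x, hsub x hx, y, hsub y hy, h6, by rw [hkeep x hx y hy, h7, hr2]⟩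
  · intro u hu
    rw [Finset.mem_union] at hu
    rcases hu with hu | hu
    · rw [h1 u hu]; exact h.d0S u hu
    · have h5 := h3 u hu
      rw [Finset.mem_image] at h5
      obtain ⟨r, hr, hr2⟩ := h5
      rw [← hr2]
      exact (hc r hr).2.2.2.1
  · obtain ⟨x, hx, y, hy, h6, h7⟩ := h.d0cov
    exact ⟨x, hsub x hx, y, hsub y hy, h6, by rw [hkeep x hx y hy, h7]⟩
  · intro u hu
    have h5 := h3 u hu
    rw [Finset.mem_image] at h5
    obtain ⟨r, hr, hr2⟩ := h5
    rw [← hr2]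
    exact ⟨(hWmem u hu).1, (hWmem u hu).2, (hc r hr).2.1.1, (hc r hr).2.1.2⟩

end Pool.Agent.Helper67.Gr
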