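import Mathlib
import Pool.Agent.Helper67.Gr.Split2

/-!
# Extending a labelling of the core by leaves
-/

namespace Pool.Agent.Helper67.Gr

/-- difference along the edge from `u` to its parent -/
def df {V : Type} (par : V → V) (f : V → ℕ) (u : V) : ℕ :=
  Int.natAbs ((f u : ℤ) - (f (par u) : ℤ))

section ext

variable {V : Type} [Fintype V] [DecidableEq V] {v : V} {par : V → V}

/-- a partial labelling: labels of `S \ {v}` = differences of the edges below them -/
structure St (v : V) (par : V → V) (d0 : ℕ) (f : V → ℕ) (S : Finset V) : Prop where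
  fv : f v = 0
  vS : v ∈ S
  closed : ∀ u ∈ S, u ≠ v → par u ∈ S
  inj : Set.InjOn f S
  im : (S.erase v).image (df par f) = (S.erase v).image f
  d0 : d0 ∉ S.image f

theorem St.card {d0 : ℕ} {f : V → ℕ} {S : Finset V} (h : St v par d0 f S) :
    ((S.erase v).image f).card = S.card - 1 := by
  rw [Finset.card_image_of_injOn, Finset.card_erase_of_mem h.vS]
  exact h.inj.mono (by exact_mod_cast Finset.erase_subset _ _)

/-- adding a pair of leaves -/
theorem St.step {d0 : ℕ} {f : V → ℕ} {S : Finset V} (h : St v par d0 f S) {p x x' : V}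
    (hx : x ∉ S) (hx' : x' ∉ S) (hne : x ≠ x') (hpS : p ∈ S) (hpx : par x = p)
    (hpx' : par x' = p) {l : ℕ} (hl : 0 < l) (hl2 : l < f p) (hl3 : 2 * l ≠ f p)
    (hl4 : l ∉ S.image f) (hl5 : f p - l ∉ S.image f) (hl6 : l ≠ d0) (hl7 : f p - l ≠ d0) :
    St v par d0 (Function.update (Function.update f x l) x' (f p - l)) (insert x' (insert x S)) ∧
      ∀ u ∈ S, Function.update (Function.update f x l) x' (f p - l) u = f u := by
  set F := Function.update (Function.update f x l) x' (f p - l) with hF
  have hFS : ∀ u ∈ S, F u = f u := by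
    intro u hu
    have h1 : u ≠ x' := fun h => hx' (h ▸ hu)
    have h2 : u ≠ x := fun h => hx (h ▸ hu)
    rw [hF, Function.update_of_ne h1, Function.update_of_ne h2]
  have hFx : F x = l := by
    rw [hF, Function.update_of_ne hne, Function.update_self]
  have hFx' : F x' = f p - l := by
    rw [hF, Function.update_self]
  have hvx : v ≠ x := fun e => hx (e ▸ h.vS)
  have hvx' : v ≠ x' := fun e => hx' (e ▸ h.vS)
  have hdS : ∀ u ∈ S.erase v, df par F u = df par f u := by
    intro u hu
    rw [Finset.mem_erase] at hu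
    unfold df
    rw [hFS u hu.2, hFS _ (h.closed u hu.2 hu.1)]
  have hdx : df par F x = f p - l := by
    unfold df
    rw [hFx, hpx, hFS p hpS]
    omega
  have hdx' : df par F x' = l := by
    unfold df
    rw [hFx', hpx', hFS p hpS]
    omega
  have hE : (insert x' (insert x S)).erase v = insert x' (insert x (S.erase v)) := by
    rw [Finset.erase_insert_of_ne hvx'.symm, Finset.erase_insert_of_ne hvx.symm]
  have hl4' : ∀ u ∈ S, f u ≠ l := fun u hu e => hl4 (Finset.mem_image.2 ⟨u, hu, e⟩)
  have hl5' : ∀ u ∈ S, f u ≠ f p - l := fun u hu e => hl5 (Finset.mem_image.2 ⟨u, hu, e⟩)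
  refine ⟨⟨?_, ?_, ?_, ?_, ?_, ?_⟩, hFS⟩
  · rw [hFS v h.vS, h.fv]
  · exact Finset.mem_insert_of_mem (Finset.mem_insert_of_mem h.vS)
  · intro u hu huv
    rw [Finset.mem_insert, Finset.mem_insert] at hu
    apply Finset.mem_insert_of_mem
    apply Finset.mem_insert_of_mem
    rcases hu with hu | hu | hu
    · rw [hu, hpx']; exact hpS
    · rw [hu, hpx]; exact hpS
    · exact h.closed u hu huv
  · intro u hu w hw huw
    simp only [Finset.coe_insert, Set.mem_insert_iff, Finset.mem_coe] at hu hw
    rcases hu with hu | hu | hu <;> rcases hw with hw | hw | hw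
    · rw [hu, hw]
    · exfalso; rw [hu, hw, hFx, hFx'] at huw; omega
    · exfalso; rw [hu, hFx', hFS w hw] at huw; exact hl5' w hw huw.symm
    · exfalso; rw [hu, hw, hFx, hFx'] at huw; omega
    · rw [hu, hw]
    · exfalso; rw [hu, hFx, hFS w hw] at huw; exact hl4' w hw huw.symm
    · exfalso; rw [hw, hFx', hFS u hu] at huw; exact hl5' u hu huw
    · exfalso; rw [hw, hFx, hFS u hu] at huw; exact hl4' u hu huw
    · rw [hFS u hu, hFS w hw] at huw
      exact h.inj (by exact_mod_cast hu) (by exact_mod_cast hw) huw
  · rw [hE, Finset.image_insert, Finset.image_insert, Finset.image_insert, Finset.image_insert,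
      hdx, hdx', hFx, hFx', Finset.image_congr (g := df par f) (fun u hu => hdS u (by exact_mod_cast hu)),
      Finset.image_congr (f := F) (g := f) (fun u hu => hFS u (Finset.mem_of_mem_erase
        (by exact_mod_cast hu))), h.im, Finset.insert_comm]
  · rw [Finset.image_insert, Finset.image_insert, hFx, hFx',
      Finset.image_congr (f := F) (g := f) (fun u hu => hFS u (by exact_mod_cast hu))]
    simp only [Finset.mem_insert, not_or]
    exact ⟨hl7.symm, hl6.symm, h.d0⟩

/-- there is room for a pair -/
theorem exists_room {d0 : ℕ} {f : V → ℕ} {S : Finset V} (P : ℕ) (hP : 2 * S.card + 5 ≤ P) :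
    ∃ l, 0 < l ∧ l < P ∧ 2 * l ≠ P ∧ l ∉ S.image f ∧ P - l ∉ S.image f ∧ l ≠ d0 ∧
      P - l ≠ d0 := by
  by_contra hcon
  push Not at hcon
  set A := insert d0 (S.image f) with hA
  have h1 : Finset.Ioo 0 P ⊆ (A ∪ A.image (fun x => P - x)) ∪ {P / 2} := by
    intro l hl
    rw [Finset.mem_Ioo] at hl
    simp only [Finset.mem_union, Finset.mem_singleton]
    by_contra h2
    push Not at h2
    obtain ⟨⟨h3, h4⟩, h5⟩ := h2
    have h6 : P - l ∉ A := by
      intro h7
      apply h4
      rw [Finset.mem_image]
      exact ⟨P - l, h7, by omega⟩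
    rw [hA, Finset.mem_insert, not_or] at h3 h6
    exact h6.1 (hcon l hl.1 hl.2 (by omega) h3.2 h6.2 h3.1)
  have h2 := Finset.card_le_card h1
  have h3 : A.card ≤ S.card + 1 := by
    refine (Finset.card_insert_le _ _).trans ?_
    have := Finset.card_image_le (s := S) (f := f)
    omega
  have h4 : (A.image (fun x => P - x)).card ≤ A.card := Finset.card_image_le
  have h5 := Finset.card_union_le (A ∪ A.image (fun x => P - x)) {P / 2}
  have h6 := Finset.card_union_le A (A.image (fun x => P - x))
  rw [Finset.card_singleton] at h5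
  rw [Nat.card_Ioo] at h2
  omega

/-- all vertices whose parent is not the root can be labelled -/
theorem extend_all {d0 : ℕ} (M : ℕ) (B : ℕ) (T : Finset V)
    (hT : 2 * T.card + 5 ≤ M)
    (hTv : ∀ u, u ∉ T → par u = v) :
    ∀ (N : ℕ) (f : V → ℕ) (S : Finset V), St v par d0 f S → (T \ S).card = N → S ⊆ T →
      (∀ u ∈ S, f u ≤ B) →
      (∀ u, u ∉ S → par u ∈ S ∧ (par u ≠ v → M ≤ f (par u))) →
      (∀ u, u ∉ S → u ∈ T → par u ≠ v) →
      (∀ p, p ≠ v → Even (Finset.univ.filter (fun u => u ∉ S ∧ par u = p)).card) →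
      ∃ f', St v par d0 f' T ∧ (∀ u ∈ T, f' u ≤ B) ∧ ∀ u ∈ S, f' u = f u := by
  intro N
  induction N using Nat.strong_induction_on with
  | _ N ih =>
    intro f S hS hN hST hB hpar hparv hev
    by_cases hN0 : N = 0
    · have h1 : T ⊆ S := by
        rw [hN0] at hN
        rw [Finset.card_eq_zero] at hN
        exact Finset.sdiff_eq_empty_iff_subset.1 hN
      have h2 : S = T := Finset.Subset.antisymm hST h1
      rw [← h2]
      exact ⟨f, hS, hB, fun _ _ => rfl⟩
    · obtain ⟨x, hx⟩ : (T \ S).Nonempty := by
        rw [← Finset.card_pos]; omega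
      rw [Finset.mem_sdiff] at hx
      obtain ⟨hxT, hxS⟩ := hx
      set p := par x with hp
      have hpv : p ≠ v := hparv x hxS hxT
      obtain ⟨hpS, hpM⟩ := hpar x hxS
      have hpM' : M ≤ f p := hpM hpv
      -- second leaf
      have hxmem : x ∈ Finset.univ.filter (fun u => u ∉ S ∧ par u = p) := by
        simp [hxS, hp]
      have h2 : 1 < (Finset.univ.filter (fun u => u ∉ S ∧ par u = p)).card := by
        have h3 := hev p hpv
        have h4 : 0 < (Finset.univ.filter (fun u => u ∉ S ∧ par u = p)).card :=
          Finset.card_pos.2 ⟨x, hxmem⟩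
        obtain ⟨r, hr⟩ := h3
        omega
      obtain ⟨x', hx'mem, hne⟩ := Finset.exists_mem_ne h2 x
      have hx'1 := hx'mem
      simp only [Finset.mem_filter, Finset.mem_univ, true_and] at hx'1
      have hx'T : x' ∈ T := by
        by_contra h3
        exact hpv (hx'1.2.symm.trans (hTv x' h3))
      have hScard : S.card ≤ T.card := Finset.card_le_card hST
      obtain ⟨l, l1, l2, l3, l4, l5, l6, l7⟩ := exists_room (d0 := d0) (f := f) (S := S) (f p)
        (by omega)
      obtain ⟨hst, hkeep⟩ := hS.step hxS hx'1.1 hne.symm hpS hp.symm hx'1.2 l1 l2 l3 l4 l5 l6 l7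
      set F := Function.update (Function.update f x l) x' (f p - l) with hF
      have hFx : F x = l := by
        rw [hF, Function.update_of_ne hne.symm, Function.update_self]
      have hFx' : F x' = f p - l := by
        rw [hF, Function.update_self]
      have hsub : insert x' (insert x S) ⊆ T := by
        intro u hu
        rw [Finset.mem_insert, Finset.mem_insert] at hu
        rcases hu with hu | hu | hu
        · rw [hu]; exact hx'T
        · rw [hu]; exact hxT
        · exact hST hu
      have hcard : (T \ (insert x' (insert x S))).card < N := by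
        rw [← hN]
        apply Finset.card_lt_card
        refine ⟨?_, ?_⟩
        · exact Finset.sdiff_subset_sdiff (Finset.Subset.refl _)
            ((Finset.subset_insert _ _).trans (Finset.subset_insert _ _))
        · intro h3
          have h4 := h3 (Finset.mem_sdiff.2 ⟨hxT, hxS⟩)
          rw [Finset.mem_sdiff] at h4
          exact h4.2 (by simp)
      obtain ⟨f', h5, h6, h7⟩ := ih _ hcard F (insert x' (insert x S)) hst rfl hsub
        (by
          intro u hu
          rw [Finset.mem_insert, Finset.mem_insert] at hu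
          have := hB p hpS
          rcases hu with hu | hu | hu
          · rw [hu, hFx']; omega
          · rw [hu, hFx]; omega
          · rw [hkeep u hu]; exact hB u hu)
        (by
          intro u hu
          have hu' : u ∉ S := fun h => hu (by simp [h])
          obtain ⟨h8, h9⟩ := hpar u hu'
          refine ⟨by simp [h8], fun h10 => ?_⟩
          rw [hkeep _ h8]
          exact h9 h10)
        (by
          intro u hu huT
          have hu' : u ∉ S := fun h => hu (by simp [h])
          exact hparv u hu' huT)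
        (by
          intro p' hp'
          by_cases h8 : p' = p
          · rw [h8]
            have h9 : Finset.univ.filter (fun u => u ∉ insert x' (insert x S) ∧ par u = p) =
                ((Finset.univ.filter (fun u => u ∉ S ∧ par u = p)).erase x).erase x' := by
              ext u
              simp only [Finset.mem_filter, Finset.mem_univ, true_and, Finset.mem_insert, not_or,
                Finset.mem_erase]
              tauto
            rw [h9, Finset.card_erase_of_mem (Finset.mem_erase.2 ⟨hne, hx'mem⟩),
              Finset.card_erase_of_mem hxmem]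
            obtain ⟨r, hr⟩ := hev p hpv
            exact ⟨r - 1, by omega⟩
          · have h9 : Finset.univ.filter (fun u => u ∉ insert x' (insert x S) ∧ par u = p') =
                Finset.univ.filter (fun u => u ∉ S ∧ par u = p') := by
              ext u
              simp only [Finset.mem_filter, Finset.mem_univ, true_and, Finset.mem_insert, not_or]
              constructor
              · rintro ⟨⟨_, _, h10⟩, h11⟩
                exact ⟨h10, h11⟩
              · rintro ⟨h10, h11⟩
                refine ⟨⟨?_, ?_, h10⟩, h11⟩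
                · rintro rfl
                  exact h8 (h11.symm.trans hx'1.2)
                · rintro rfl
                  exact h8 h11.symm
            rw [h9]
            exact hev p' hp')
      refine ⟨f', h5, h6, fun u hu => ?_⟩
      rw [h7 u (by simp [hu]), hkeep u hu]

/-- the final step: the leaves at the root take all the remaining labels -/
theorem finish {d0 : ℕ} {f : V → ℕ} {T : Finset V} (h : St v par d0 f T)
    (hTv : ∀ u, u ∉ T → par u = v) (hB : ∀ u ∈ T, f u ≤ Fintype.card V)
    {a b : V} (ha : a ∈ T) (hb : b ∈ T)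
    (hd0 : Int.natAbs ((f a : ℤ) - (f b : ℤ)) = d0) (hd1 : 0 < d0) :
    ∃ f' : V → ℕ, Function.Injective f' ∧ (∀ u, f' u ≤ Fintype.card V) ∧
      (∀ u w, u ≠ v → w ≠ v → df par f' u = df par f' w → u = w) ∧
      (∀ u, u ≠ v → df par f' u ≠ Int.natAbs ((f' a : ℤ) - (f' b : ℤ))) := by
  classical
  set n := Fintype.card V with hn
  have hd2 : d0 ≤ n := by
    have h1 := hB a ha
    have h2 := hB b hb
    omega
  set A := insert d0 ((T.erase v).image f) with hA
  have hd0A : d0 ∉ (T.erase v).image f := fun h1 => h.d0
    (Finset.image_subset_image (Finset.erase_subset _ _) h1)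
  have hpos : ∀ u ∈ T, u ≠ v → 0 < f u := by
    intro u hu huv
    rcases Nat.eq_zero_or_pos (f u) with h1 | h1
    · exact absurd (h.inj (by exact_mod_cast hu) (by exact_mod_cast h.vS) (by rw [h1, h.fv])) huv
    · exact h1
  have hAcard : A.card = T.card := by
    rw [hA, Finset.card_insert_of_notMem hd0A, h.card]
    have : 0 < T.card := Finset.card_pos.2 ⟨v, h.vS⟩
    omega
  have hAsub : A ⊆ Finset.Icc 1 n := by
    intro l hl
    rw [hA, Finset.mem_insert, Finset.mem_image] at hl
    rw [Finset.mem_Icc]
    rcases hl with hl | ⟨u, hu, hl⟩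
    · omega
    · rw [Finset.mem_erase] at hu
      have := hpos u hu.2 hu.1
      have := hB u hu.2
      omega
  have hWcard : (Finset.univ \ T).card = (Finset.Icc 1 n \ A).card := by
    rw [Finset.card_sdiff_of_subset (Finset.subset_univ _), Finset.card_sdiff_of_subset hAsub,
      hAcard, Finset.card_univ, Nat.card_Icc]
    omega
  let e : (Finset.univ \ T : Finset V) ≃ (Finset.Icc 1 n \ A : Finset ℕ) :=
    Finset.equivOfCardEq hWcard
  have hmemW : ∀ u, u ∉ T → u ∈ (Finset.univ \ T : Finset V) := fun u hu => by simp [hu]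
  let f' : V → ℕ := fun u => if hu : u ∈ T then f u else (e ⟨u, hmemW u hu⟩ : ℕ)
  have f1 : ∀ u ∈ T, f' u = f u := fun u hu => dif_pos hu
  have f2 : ∀ u (hu : u ∉ T), f' u = (e ⟨u, hmemW u hu⟩ : ℕ) := fun u hu => dif_neg hu
  have f3 : ∀ u, u ∉ T → f' u ∈ Finset.Icc 1 n \ A := by
    intro u hu
    rw [f2 u hu]
    exact (e ⟨u, hmemW u hu⟩).2
  have f4 : ∀ u, u ∉ T → f' u ∉ (T.erase v).image f ∧ f' u ≠ d0 ∧ 1 ≤ f' u ∧ f' u ≤ n := by
    intro u hu
    have h1 := f3 u hu
    rw [Finset.mem_sdiff, Finset.mem_Icc, hA, Finset.mem_insert, not_or] at h1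
    exact ⟨h1.2.2, h1.2.1, h1.1.1, h1.1.2⟩
  have f5 : ∀ u w, u ∉ T → w ∉ T → f' u = f' w → u = w := by
    intro u w hu hw huw
    rw [f2 u hu, f2 w hw] at huw
    have h1 := e.injective (Subtype.ext huw)
    exact congrArg Subtype.val h1
  have hfv : f' v = 0 := by rw [f1 v h.vS, h.fv]
  have d1 : ∀ u ∈ T, u ≠ v → df par f' u = df par f u := by
    intro u hu huv
    unfold df
    rw [f1 u hu, f1 _ (h.closed u hu huv)]
  have d2 : ∀ u, u ∉ T → df par f' u = f' u := by
    intro u hu
    unfold df
    rw [hTv u hu, hfv]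
    omega
  have d3 : ∀ u ∈ T, u ≠ v → df par f u ∈ (T.erase v).image f := by
    intro u hu huv
    rw [← h.im]
    exact Finset.mem_image.2 ⟨u, Finset.mem_erase.2 ⟨huv, hu⟩, rfl⟩
  have d4 : Set.InjOn (df par f) (T.erase v : Finset V) := by
    apply Finset.injOn_of_card_image_eq
    rw [h.im, h.card, Finset.card_erase_of_mem h.vS]
  refine ⟨f', ?_, ?_, ?_, ?_⟩
  · intro u w huw
    by_cases hu : u ∈ T <;> by_cases hw : w ∈ T
    · rw [f1 u hu, f1 w hw] at huw
      exact h.inj (by exact_mod_cast hu) (by exact_mod_cast hw) huw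
    · exfalso
      have h1 := f4 w hw
      by_cases huv : u = v
      · rw [huv, hfv] at huw; omega
      · apply h1.1
        rw [← huw, f1 u hu]
        exact Finset.mem_image.2 ⟨u, Finset.mem_erase.2 ⟨huv, hu⟩, rfl⟩
    · exfalso
      have h1 := f4 u hu
      by_cases hwv : w = v
      · rw [hwv, hfv] at huw; omega
      · apply h1.1
        rw [huw, f1 w hw]
        exact Finset.mem_image.2 ⟨w, Finset.mem_erase.2 ⟨hwv, hw⟩, rfl⟩
    · exact f5 u w hu hw huw
  · intro u
    by_cases hu : u ∈ T
    · rw [f1 u hu]; exact hB u hu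
    · exact (f4 u hu).2.2.2
  · intro u w huv hwv huw
    by_cases hu : u ∈ T <;> by_cases hw : w ∈ T
    · rw [d1 u hu huv, d1 w hw hwv] at huw
      exact d4 (by exact_mod_cast Finset.mem_erase.2 ⟨huv, hu⟩)
        (by exact_mod_cast Finset.mem_erase.2 ⟨hwv, hw⟩) huw
    · exfalso
      apply (f4 w hw).1
      rw [← d2 w hw, ← huw, d1 u hu huv]
      exact d3 u hu huv
    · exfalso
      apply (f4 u hu).1
      rw [← d2 u hu, huw, d1 w hw hwv]
      exact d3 w hw hwv
    · rw [d2 u hu, d2 w hw] at huw
      exact f5 u w hu hw huw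
  · intro u huv
    rw [f1 a ha, f1 b hb, hd0]
    by_cases hu : u ∈ T
    · rw [d1 u hu huv]
      intro h1
      apply hd0A
      rw [← h1]
      exact d3 u hu huv
    · rw [d2 u hu]
      exact (f4 u hu).2.1

end ext

end Pool.Agent.Helper67.Gr
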