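import Mathlib
import Pool.Agent.Helper67.Gr.Ext

/-!
# The tree of a unicyclic graph
-/

namespace Pool.Agent.Helper67.Gr

/-- a rooted spanning tree and the extra edge -/
structure UTree {V : Type} (G : SimpleGraph V) (v : V) (par : V → V) (dep : V → ℕ) (a b : V) :
    Prop where
  dep_zero : ∀ u, dep u = 0 ↔ u = v
  dep_par : ∀ u, u ≠ v → dep (par u) + 1 = dep u
  adj : ∀ u, u ≠ v → G.Adj u (par u)
  ab : G.Adj a b
  edges : ∀ x y, G.Adj x y →
    (x ≠ v ∧ par x = y) ∨ (y ≠ v ∧ par y = x) ∨ (x = a ∧ y = b) ∨ (x = b ∧ y = a)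
  d1 : dep a ≤ dep b + 1
  d2 : dep b ≤ dep a + 1
  av : a ≠ v
  bv : b ≠ v
  pa : par a ≠ b
  pb : par b ≠ a

theorem exists_tree {V : Type} [Fintype V] [DecidableEq V] (G : SimpleGraph V)
    [DecidableRel G.Adj] (hG : G.Connected) (hE : G.edgeFinset.card = Fintype.card V) (v : V) :
    ∃ par dep a b, UTree G v par dep a b := by
  classical
  let dep : V → ℕ := fun u => G.dist v u
  have hdep0 : ∀ u, dep u = 0 ↔ u = v := by
    intro u
    simp only [dep]
    rw [hG.dist_eq_zero_iff]
    exact eq_comm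
  have hdepadj : ∀ x y, G.Adj x y → dep y ≤ dep x + 1 := by
    intro x y hxy
    have h1 := hG.dist_triangle (u := v) (v := x) (w := y)
    have h2 : G.dist x y = 1 := SimpleGraph.dist_eq_one_iff_adj.2 hxy
    simp only [dep]
    omega
  have hex : ∀ u, ∃ w, u ≠ v → (G.Adj u w ∧ dep w + 1 = dep u) := by
    intro u
    by_cases hu : u = v
    · exact ⟨v, fun h => absurd hu h⟩
    · obtain ⟨p, hp⟩ := hG.exists_walk_length_eq_dist u v
      cases p with
      | nil => exact absurd rfl hu
      | cons h q =>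
        rename_i w
        refine ⟨w, fun _ => ⟨h, ?_⟩⟩
        have h1 : G.dist w v ≤ q.length := SimpleGraph.dist_le q
        rw [SimpleGraph.Walk.length_cons] at hp
        have h2 := hdepadj w u h.symm
        simp only [dep] at h2 ⊢
        rw [SimpleGraph.dist_comm (u := v) (v := w), SimpleGraph.dist_comm (u := v) (v := u)] at *
        omega
  choose par hpar using hex
  have hpar1 : ∀ u, u ≠ v → G.Adj u (par u) := fun u hu => (hpar u hu).1
  have hpar2 : ∀ u, u ≠ v → dep (par u) + 1 = dep u := fun u hu => (hpar u hu).2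
  set T : Finset (Sym2 V) := (Finset.univ.erase v).image (fun u => s(u, par u)) with hT
  have hTsub : T ⊆ G.edgeFinset := by
    intro e he
    rw [hT, Finset.mem_image] at he
    obtain ⟨u, hu, rfl⟩ := he
    rw [SimpleGraph.mem_edgeFinset, SimpleGraph.mem_edgeSet]
    exact hpar1 u (Finset.ne_of_mem_erase hu)
  have hTcard : T.card = Fintype.card V - 1 := by
    rw [hT, Finset.card_image_of_injOn, Finset.card_erase_of_mem (Finset.mem_univ _),
      Finset.card_univ]
    intro u hu w hw huw
    have hu' : u ≠ v := Finset.ne_of_mem_erase (by exact_mod_cast hu)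
    have hw' : w ≠ v := Finset.ne_of_mem_erase (by exact_mod_cast hw)
    have huw' : s(u, par u) = s(w, par w) := huw
    rw [Sym2.eq_iff] at huw'
    rcases huw' with h1 | h1
    · exact h1.1
    · exfalso
      have h2 := hpar2 u hu'
      have h3 := hpar2 w hw'
      rw [h1.2] at h2
      rw [← h1.1] at h3
      omega
  have hnpos : 0 < Fintype.card V := Fintype.card_pos_iff.2 ⟨v⟩
  have hone : (G.edgeFinset \ T).card = 1 := by
    rw [Finset.card_sdiff_of_subset hTsub, hTcard, hE]
    omega
  obtain ⟨e0, he0⟩ := Finset.card_eq_one.1 hone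
  have he0' : e0 ∈ G.edgeFinset \ T := by rw [he0]; exact Finset.mem_singleton_self _
  rw [Finset.mem_sdiff, SimpleGraph.mem_edgeFinset] at he0'
  obtain ⟨h1, h2⟩ := he0'
  induction e0 using Sym2.ind with
  | _ a b =>
    rw [SimpleGraph.mem_edgeSet] at h1
    have hnotT : ∀ u, u ≠ v → s(u, par u) ≠ s(a, b) := by
      intro u hu h3
      apply h2
      rw [← h3, hT]
      exact Finset.mem_image.2 ⟨u, Finset.mem_erase.2 ⟨hu, Finset.mem_univ _⟩, rfl⟩
    have hpa : a ≠ v → par a ≠ b := by
      intro h3 h4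
      exact hnotT a h3 (by rw [h4])
    have hpb : b ≠ v → par b ≠ a := by
      intro h3 h4
      exact hnotT b h3 (by rw [h4, Sym2.eq_swap])
    have hav : a ≠ v := by
      intro h3
      have h4 : b ≠ v := fun h5 => h1.ne (h3.trans h5.symm)
      have h5 := hdepadj a b h1
      have h6 := (hdep0 a).2 h3
      have h7 := hpar2 b h4
      have h8 : par b = v := (hdep0 _).1 (by omega)
      exact hpb h4 (h8.trans h3.symm)
    have hbv : b ≠ v := by
      intro h3
      have h5 := hdepadj b a h1.symm
      have h6 := (hdep0 b).2 h3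
      have h7 := hpar2 a hav
      have h8 : par a = v := (hdep0 _).1 (by omega)
      exact hpa hav (h8.trans h3.symm)
    refine ⟨par, dep, a, b, hdep0, hpar2, hpar1, h1, ?_, ?_, ?_, hav, hbv, hpa hav, hpb hbv⟩
    · intro x y hxy
      by_cases h3 : s(x, y) ∈ T
      · rw [hT, Finset.mem_image] at h3
        obtain ⟨u, hu, h4⟩ := h3
        have hu' := Finset.ne_of_mem_erase hu
        rw [Sym2.eq_iff] at h4
        rcases h4 with ⟨h5, h6⟩ | ⟨h5, h6⟩
        · left; rw [← h5]; exact ⟨hu', h6⟩
        · right; left; rw [← h5]; exact ⟨hu', h6⟩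
      · right; right
        have h4 : s(x, y) ∈ G.edgeFinset \ T := by
          rw [Finset.mem_sdiff, SimpleGraph.mem_edgeFinset, SimpleGraph.mem_edgeSet]
          exact ⟨hxy, h3⟩
        rw [he0, Finset.mem_singleton, Sym2.eq_iff] at h4
        exact h4
    · exact hdepadj b a h1.symm
    · exact hdepadj a b h1

end Pool.Agent.Helper67.Gr
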