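import Mathlib
import Pool.Agent.Helper67.Gr.Pre
import Pool.Agent.Helper67.Gr.Tree
import Pool.Agent.Helper19.Gr.C4

/-!
# The case distinction
-/

namespace Pool.Agent.Helper67.Gr

theorem setup_adj {V : Type} {G : SimpleGraph V} {v k : V} (h : G.Adj v k) :
    Setup G v k v v v False False where
  vk := h.ne
  PJ := fun h => h
  noJ := fun _ => h
  noJi := fun _ => rfl
  nvk := fun h => h.elim
  vj := fun h => h.elim
  ji := fun h => h.elim
  jk := fun h => h.elim
  iv := fun h => h.elim
  ik := fun h => h.elim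
  bad := fun h => h.elim
  vp := fun h => h.elim
  pk := fun h => h.elim
  np := fun h => h.elim
  nvi := fun h => h.elim
  nki := fun h => h.elim
  njk := fun h => h.elim
  reach := fun h => h.elim

theorem setup_S {V : Type} {G : SimpleGraph V} {v k i j : V} (hvk : v ≠ k) (h1 : ¬ G.Adj v k)
    (h2 : G.Adj v j) (h3 : G.Adj j i) (h5 : i ≠ v) (h6 : i ≠ k)
    (h7 : ¬ (G.Adj v i ∧ G.Adj j k))
    (h8 : (G.Adj j k ∨ False) ∨
      Relation.ReflTransGen (fun x y => G.Adj x y ∧ x ≠ j ∧ y ≠ j) i v ∨
      Relation.ReflTransGen (fun x y => G.Adj x y ∧ x ≠ j ∧ y ≠ j) i k) :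
    Setup G v k i j j True False where
  vk := hvk
  PJ := fun _ => trivial
  noJ := fun h => (h trivial).elim
  noJi := fun h => (h trivial).elim
  nvk := fun _ => h1
  vj := fun _ => h2
  ji := fun _ => h3
  jk := fun _ h => h1 (h ▸ h2)
  iv := fun _ => h5
  ik := fun _ => h6
  bad := fun _ => h7
  vp := fun h => h.elim
  pk := fun h => h.elim
  np := fun h => h.elim
  nvi := fun h => h.elim
  nki := fun h => h.elim
  njk := fun h => h.elim
  reach := fun _ => h8

theorem setup_V {V : Type} {G : SimpleGraph V} {v k i j p0 : V} (hvk : v ≠ k)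
    (h1 : ¬ G.Adj v k) (h2 : G.Adj v j) (h3 : G.Adj j i) (h5 : i ≠ v) (h6 : i ≠ k)
    (h7 : G.Adj v p0) (h8 : G.Adj p0 k) (h9 : ∀ w, G.Adj p0 w → w = v ∨ w = k)
    (h10 : ¬ G.Adj v i) (h11 : ¬ G.Adj k i) (h12 : ¬ G.Adj j k) :
    Setup G v k i j p0 True True where
  vk := hvk
  PJ := fun _ => trivial
  noJ := fun h => (h trivial).elim
  noJi := fun h => (h trivial).elim
  nvk := fun _ => h1
  vj := fun _ => h2
  ji := fun _ => h3
  jk := fun _ h => h1 (h ▸ h2)
  iv := fun _ => h5
  ik := fun _ => h6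
  bad := fun _ h => h10 h.1
  vp := fun _ => h7
  pk := fun _ => h8
  np := fun _ => h9
  nvi := fun _ => h10
  nki := fun _ => h11
  njk := fun _ => h12
  reach := fun _ => Or.inl (Or.inr trivial)

/-- far apart vertices -/
theorem setup_far {V : Type} {G : SimpleGraph V} (hG : G.Connected) {v k : V} (hvk : v ≠ k)
    (h1 : ¬ G.Adj v k) (h2 : ∀ p, G.Adj v p → ¬ G.Adj p k) :
    ∃ i j, Setup G v k i j j True False := by
  obtain ⟨par, dep, hdep0, hpar, hdepadj⟩ := exists_bfs G hG k
  have hkd : dep k = 0 := (hdep0 k).2 rfl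
  obtain ⟨a1, a2⟩ := hpar v hvk
  have hjk : par v ≠ k := fun h => h1 (h ▸ a1)
  obtain ⟨b1, b2⟩ := hpar (par v) hjk
  have hik : par (par v) ≠ k := by
    intro h
    rw [h] at b1
    exact h2 _ a1 b1
  obtain ⟨c1, c2⟩ := hpar _ hik
  have hdi : dep (par (par v)) ≠ 0 := fun h => hik ((hdep0 _).1 h)
  have hnjk : ¬ G.Adj (par v) k := fun h => h2 _ a1 h
  have hiv : par (par v) ≠ v := by
    intro h
    rw [h] at b2
    omega
  have hpath : ∀ t x, dep x = t → t + 2 ≤ dep v →
      Relation.ReflTransGen (fun x y => G.Adj x y ∧ x ≠ par v ∧ y ≠ par v) x k := by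
    intro t
    induction t with
    | zero =>
      intro x hx _
      rw [(hdep0 x).1 hx]
    | succ t ih =>
      intro x hx ht
      have hxk : x ≠ k := by
        rintro rfl
        omega
      obtain ⟨d1, d2⟩ := hpar x hxk
      refine Relation.ReflTransGen.head ⟨d1, ?_, ?_⟩ (ih (par x) (by omega) (by omega))
      · rintro rfl
        omega
      · intro h
        rw [h] at d2
        omega
  exact ⟨par (par v), par v, setup_S hvk h1 a1 b1 hiv hik (fun h => hnjk h.2)
    (Or.inr (Or.inr (hpath _ _ rfl (by omega))))⟩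

/-- in a unicyclic graph there are no two triangles with a common edge -/
theorem no_diamond {V : Type} [Fintype V] [DecidableEq V] (G : SimpleGraph V)
    [DecidableRel G.Adj] (hG : G.Connected) (hE : G.edgeFinset.card = Fintype.card V)
    {v k p u : V} (hvk : v ≠ k) (h1 : G.Adj v p) (h2 : G.Adj p k) (h3 : G.Adj p u)
    (h4 : G.Adj v u) (h5 : G.Adj k u) : False := by
  obtain ⟨par, dep, a, b, U⟩ := exists_tree G hG hE v
  have hroot : ∀ x, G.Adj v x → par x = v := by
    intro x hx
    rcases U.edges v x hx with h | h | h | h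
    · exact absurd rfl h.1
    · exact h.2
    · exact absurd h.1.symm U.av
    · exact absurd h.1.symm U.bv
  have hp := hroot p h1
  have hu := hroot u h4
  have hab : (p = a ∧ u = b) ∨ (p = b ∧ u = a) := by
    rcases U.edges p u h3 with h | h | h | h
    · exact absurd (hp.symm.trans h.2) h4.ne
    · exact absurd (hu.symm.trans h.2) h1.ne
    · exact Or.inl h
    · exact Or.inr h
  have hku : k ≠ u := h5.ne
  have hkp : p ≠ k := h2.ne
  have hk1 : par k = p := by
    rcases U.edges p k h2 with h | h | h | h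
    · exact absurd (hp.symm.trans h.2) hvk
    · exact h.2
    · exfalso
      rcases hab with h6 | h6
      · exact hku (h.2.trans h6.2.symm)
      · exact h3.ne (h.1.trans h6.2.symm)
    · exfalso
      rcases hab with h6 | h6
      · exact h3.ne (h.1.trans h6.2.symm)
      · exact hku (h.2.trans h6.2.symm)
  have hk2 : par k = u := by
    rcases U.edges u k h5.symm with h | h | h | h
    · exact absurd (hu.symm.trans h.2) hvk
    · exact h.2
    · exfalso
      rcases hab with h6 | h6
      · exact h3.ne (h6.1.trans h.1.symm)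
      · exact hkp (h6.1.trans h.2.symm)
    · exfalso
      rcases hab with h6 | h6
      · exact hkp (h6.1.trans h.2.symm)
      · exact h3.ne (h6.1.trans h.1.symm)
  exact h3.ne (hk1.symm.trans hk2)

theorem cases_two {V : Type} [Fintype V] [DecidableEq V] (G : SimpleGraph V)
    [DecidableRel G.Adj] (hG : G.Connected) (hE : G.edgeFinset.card = Fintype.card V)
    {v k : V} (hvk : v ≠ k) :
    (∃ (i j p0 : V) (hasJ hasP : Prop), Setup G v k i j p0 hasJ hasP) ∨
    (∃ (i j p0 : V) (hasJ hasP : Prop), Setup G k v i j p0 hasJ hasP) ∨ Graceful G := by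
  by_cases hadj : G.Adj v k
  · exact Or.inl ⟨v, v, v, False, False, setup_adj hadj⟩
  have hadj' : ¬ G.Adj k v := fun h => hadj h.symm
  by_cases hcom : ∃ p0, G.Adj v p0 ∧ G.Adj p0 k
  swap
  · push Not at hcom
    obtain ⟨i, j, S⟩ := setup_far hG hvk hadj hcom
    exact Or.inl ⟨i, j, j, True, False, S⟩
  by_cases hA : ∃ p u, G.Adj v p ∧ G.Adj p k ∧ G.Adj p u ∧ u ≠ v ∧ u ≠ k
  · obtain ⟨p, u, h1, h2, h3, h4, h5⟩ := hA
    by_cases hvu : G.Adj v u
    · right; left
      have hku : ¬ G.Adj k u := fun h => no_diamond G hG hE hvk h1 h2 h3 hvu h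
      exact ⟨u, p, p, True, False, setup_S hvk.symm hadj' h2.symm h3 h5 h4
        (fun h => hku h.1) (Or.inl (Or.inl h1.symm))⟩
    · left
      exact ⟨u, p, p, True, False, setup_S hvk hadj h1 h3 h4 h5 (fun h => hvu h.1)
        (Or.inl (Or.inl h2))⟩
  have hN : ∀ p, G.Adj v p → G.Adj p k → ∀ w, G.Adj p w → w = v ∨ w = k := by
    intro p h1 h2 w h3
    by_contra h4
    push Not at h4
    exact hA ⟨p, w, h1, h2, h3, h4.1, h4.2⟩
  obtain ⟨p0, hp1, hp2⟩ := hcom
  -- the second case, for both orders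
  have hB : ∀ v k : V, v ≠ k → ¬ G.Adj v k → (∀ w, G.Adj p0 w → w = v ∨ w = k) →
      G.Adj v p0 → G.Adj p0 k → ∀ j i, G.Adj v j → ¬ G.Adj j k → G.Adj j i → i ≠ v →
      ∃ (i j p0 : V) (hasJ hasP : Prop), Setup G v k i j p0 hasJ hasP := by
    intro v k hvk hadj hN h1 h2 j i h3 h4 h5 h6
    have hik : i ≠ k := fun h => h4 (h ▸ h5)
    have hjk : j ≠ k := fun h => hadj (h ▸ h3)
    by_cases hvi : G.Adj v i
    · exact ⟨i, j, j, True, False, setup_S hvk hadj h3 h5 h6 hik (fun h => h4 h.2)
        (Or.inr (Or.inl (Relation.ReflTransGen.single ⟨hvi.symm, h5.ne', h3.ne⟩)))⟩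
    · by_cases hki : G.Adj k i
      · exact ⟨i, j, j, True, False, setup_S hvk hadj h3 h5 h6 hik (fun h => h4 h.2)
          (Or.inr (Or.inr (Relation.ReflTransGen.single ⟨hki.symm, h5.ne', hjk.symm⟩)))⟩
      · exact ⟨i, j, p0, True, True, setup_V hvk hadj h3 h5 h6 hik h1 h2 hN hvi hki h4⟩
  have hNp0 := hN p0 hp1 hp2
  by_cases hB1 : ∃ j i, G.Adj v j ∧ ¬ G.Adj j k ∧ G.Adj j i ∧ i ≠ v
  · obtain ⟨j, i, h1, h2, h3, h4⟩ := hB1
    exact Or.inl (hB v k hvk hadj hNp0 hp1 hp2 j i h1 h2 h3 h4)
  by_cases hB2 : ∃ j i, G.Adj k j ∧ ¬ G.Adj j v ∧ G.Adj j i ∧ i ≠ k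
  · obtain ⟨j, i, h1, h2, h3, h4⟩ := hB2
    exact Or.inr (Or.inl (hB k v hvk.symm hadj' (fun w hw => (hNp0 w hw).symm) hp2.symm hp1.symm
      j i h1 h2 h3 h4))
  right; right
  have hL1 : ∀ j, G.Adj v j → ¬ G.Adj j k → ∀ i, G.Adj j i → i = v := by
    intro j h1 h2 i h3
    by_contra h4
    exact hB1 ⟨j, i, h1, h2, h3, h4⟩
  have hL2 : ∀ j, G.Adj k j → ¬ G.Adj j v → ∀ i, G.Adj j i → i = k := by
    intro j h1 h2 i h3
    by_contra h4
    exact hB2 ⟨j, i, h1, h2, h3, h4⟩
  have hall : ∀ x, x = v ∨ x = k ∨ G.Adj v x ∨ G.Adj k x := by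
    intro x
    have h0 : Relation.ReflTransGen G.Adj v x :=
      (SimpleGraph.reachable_iff_reflTransGen v x).1 (hG v x)
    induction h0 with
    | refl => exact Or.inl rfl
    | @tail b c _ hbc ih =>
      rcases ih with h | h | h | h
      · rw [h] at hbc; exact Or.inr (Or.inr (Or.inl hbc))
      · rw [h] at hbc; exact Or.inr (Or.inr (Or.inr hbc))
      · by_cases h1 : G.Adj b k
        · rcases hN b h h1 c hbc with h2 | h2
          · exact Or.inl h2
          · exact Or.inr (Or.inl h2)
        · exact Or.inl (hL1 b h h1 c hbc)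
      · by_cases h1 : G.Adj b v
        · rcases hN b h1.symm h.symm c hbc with h2 | h2
          · exact Or.inl h2
          · exact Or.inr (Or.inl h2)
        · exact Or.inr (Or.inl (hL2 b h h1 c hbc))
  obtain ⟨par, dep, a, b, U⟩ := exists_tree G hG hE v
  have hroot : ∀ x, G.Adj v x → par x = v := by
    intro x hx
    rcases U.edges v x hx with h | h | h | h
    · exact absurd rfl h.1
    · exact h.2
    · exact absurd h.1.symm U.av
    · exact absurd h.1.symm U.bv
  -- the ends of the extra edge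
  have hend : ∀ a b, G.Adj a b → a ≠ v → b ≠ v → par a ≠ b → a ≠ k →
      (G.Adj v a ∧ G.Adj a k ∧ b = k) := by
    intro a b hab hav hbv hpa hak
    have hpar := U.adj a hav
    rcases hall a with h | h | h | h
    · exact absurd h hav
    · exact absurd h hak
    · by_cases h1 : G.Adj a k
      · rcases hN a h h1 b hab with h2 | h2
        · exact absurd h2 hbv
        · exact ⟨h, h1, h2⟩
      · exact absurd (hL1 a h h1 b hab) hbv
    · by_cases h1 : G.Adj a v
      · rcases hN a h1.symm h.symm b hab with h2 | h2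
        · exact absurd h2 hbv
        · exact ⟨h1.symm, h.symm, h2⟩
      · exfalso
        have h2 := hL2 a h h1 b hab
        have h3 := hL2 a h h1 _ hpar
        exact hpa (h3.trans h2.symm)
  obtain ⟨p', hp'1, hp'2, hp'3, hp'4⟩ : ∃ p', G.Adj v p' ∧ G.Adj p' k ∧ par k ≠ p' ∧
      (∀ x, G.Adj x k → par k ≠ x → par x ≠ k → x = p') := by
    by_cases hak : a = k
    · have hbk : b ≠ k := fun h => U.ab.ne (hak.trans h.symm)
      obtain ⟨h1, h2, h3⟩ := hend b a U.ab.symm U.bv U.av U.pb hbk
      refine ⟨b, h1, h2, by rw [← hak]; exact U.pa, ?_⟩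
      intro x hx h4 h5
      rcases U.edges x k hx with h | h | h | h
      · exact absurd h.2 h5
      · exact absurd h.2 h4
      · exact absurd h.2.symm hbk
      · exact h.1
    · obtain ⟨h1, h2, h3⟩ := hend a b U.ab U.av U.bv U.pa hak
      refine ⟨a, h1, h2, by rw [← h3]; exact U.pb, ?_⟩
      intro x hx h4 h5
      rcases U.edges x k hx with h | h | h | h
      · exact absurd h.2 h5
      · exact absurd h.2 h4
      · exact h.1
      · exact absurd h.2.symm hak
  -- the parent of `k` is a second common neighbour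
  have hkp := U.adj k hvk.symm
  have hkv : par k ≠ v := by
    intro h
    rw [h] at hkp
    exact hadj' hkp
  have hp'' : G.Adj (par k) v := by
    by_contra h1
    have h2 := hL2 (par k) hkp h1 _ (U.adj _ hkv)
    have h3 := U.dep_par k hvk.symm
    have h4 := U.dep_par _ hkv
    rw [h2] at h4
    omega
  refine c4 G hE v k p' (par k) hvk hp'3.symm hadj ?_ hp'1 hp''.symm hp'2.symm hkp ?_
  · intro h
    rcases hN p' hp'1 hp'2 _ h with h1 | h1
    · exact hkv h1
    · exact hkp.ne' h1
  · intro u huv huk hup hup2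
    rcases hall u with h | h | h | h
    · exact absurd h huv
    · exact absurd h huk
    · by_cases h1 : G.Adj u k
      · exfalso
        apply hup
        apply hp'4 u h1 hup2.symm
        rw [hroot u h]
        exact hvk
      · left
        intro w
        exact ⟨fun hw => hL1 u h h1 w hw, fun hw => hw ▸ h.symm⟩
    · by_cases h1 : G.Adj u v
      · exfalso
        apply hup
        apply hp'4 u h.symm hup2.symm
        rw [hroot u h1.symm]
        exact hvk
      · right
        intro w
        exact ⟨fun hw => hL2 u h h1 w hw, fun hw => hw ▸ h.symm⟩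

end Pool.Agent.Helper67.Gr
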