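import Mathlib
import Pool.Agent.Helper67.Gr.Pre
import Pool.Agent.Helper19.Gr.Fill

/-!
# Two heavy vertices
-/

namespace Pool.Agent.Helper67.Gr

theorem two_heavy (m : ℕ) : ∃ Θ : ℕ, 2 ≤ Θ ∧ ∀ (V : Type) [Fintype V] [DecidableEq V]
    (G : SimpleGraph V) [DecidableRel G.Adj], G.Connected →
    G.edgeFinset.card = Fintype.card V →
    (Finset.univ.filter (fun u => G.degree u ≠ 1)).card ≤ m →
    ∀ (v k i j p0 : V) (hasJ hasP : Prop), Setup G v k i j p0 hasJ hasP →
      Θ ≤ G.degree v → Θ ≤ G.degree k → Graceful G := by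
  classical
  obtain ⟨B, hB⟩ := assemble (2 * m + 1)
  set Q := 2 * (2 * m + 1) with hQ
  refine ⟨10 * (B + 1) * Q + 2 * Q + 6 * B + 20, by omega, ?_⟩
  intro V _ _ G _ hG hE hm v k i j p0 hasJ hasP S hdv hdk
  set n := Fintype.card V with hn
  set Co : Finset V := Finset.univ.filter (fun u => G.degree u ≠ 1) with hCo
  have memCo : ∀ u, u ∈ Co ↔ G.degree u ≠ 1 := by
    intro u; rw [hCo]; simp
  have huniq : ∀ u, G.degree u = 1 → ∃ q, ∀ w, G.Adj u w ↔ w = q := by
    intro u hu
    obtain ⟨z, hz1, hz⟩ := SimpleGraph.degree_eq_one_iff_existsUnique_adj.1 hu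
    exact ⟨z, fun w => ⟨fun h => hz w h, fun h => h ▸ hz1⟩⟩
  have hdegne : ∀ u x y, G.Adj u x → G.Adj u y → x ≠ y → u ∈ Co := by
    intro u x y hx hy hne
    rw [memCo]
    intro hu
    obtain ⟨q, hq⟩ := huniq u hu
    exact hne (((hq x).1 hx).trans ((hq y).1 hy).symm)
  have hvCo : v ∈ Co := by rw [memCo]; omega
  have hkCo : k ∈ Co := by rw [memCo]; omega
  -- the neighbour of a leaf is not a leaf
  have hnb : ∀ u q, G.degree u = 1 → (∀ w, G.Adj u w ↔ w = q) → q ∈ Co := by
    intro u q hu hq
    rw [memCo]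
    intro hdq
    obtain ⟨r, hr⟩ := huniq q hdq
    have huq : G.Adj u q := (hq q).2 rfl
    have hru : u = r := (hr u).1 huq.symm
    have hall : ∀ x, Relation.ReflTransGen G.Adj u x → (x = u ∨ x = q) := by
      intro x hx
      induction hx with
      | refl => exact Or.inl rfl
      | @tail b c _ hbc ih =>
        rcases ih with h | h
        · rw [h] at hbc
          exact Or.inr ((hq c).1 hbc)
        · rw [h] at hbc
          exact Or.inl (((hr c).1 hbc).trans hru.symm)
    rcases hall v ((SimpleGraph.reachable_iff_reflTransGen u v).1 (hG u v)) with h | h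
    · rw [memCo] at hvCo; rw [h] at hvCo; exact hvCo hu
    · rw [memCo] at hvCo; rw [h] at hvCo; exact hvCo hdq
  -- parity leaves
  let Lf : V → Finset V := fun p =>
    Finset.univ.filter (fun u => G.degree u = 1 ∧ G.Adj p u ∧ u ≠ i)
  have memLf : ∀ p u, u ∈ Lf p ↔ (G.degree u = 1 ∧ G.Adj p u ∧ u ≠ i) := by
    intro p u; simp [Lf]
  let sp : V → V := fun p => if h : (Lf p).Nonempty then h.choose else v
  have hspodd : ∀ p, Odd (Lf p).card → sp p ∈ Lf p := by
    intro p h
    have h1 : (Lf p).Nonempty := by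
      rw [← Finset.card_pos]
      exact h.pos
    simp only [sp, dif_pos h1]
    exact h1.choose_spec
  set Od : Finset V := Co.filter (fun p => Odd (Lf p).card) with hOd
  set K' : Finset V := insert i (Co ∪ Od.image sp) with hK'
  have memK : ∀ u, u ∈ K' ↔ (u = i ∨ u ∈ Co ∨ ∃ p ∈ Od, sp p = u) := by
    intro u; rw [hK']; simp
  have memOd : ∀ p, p ∈ Od ↔ (p ∈ Co ∧ Odd (Lf p).card) := by
    intro p; rw [hOd]; simp
  have hCoK : ∀ u ∈ Co, u ∈ K' := fun u hu => (memK u).2 (Or.inr (Or.inl hu))
  have hKcard : K'.card ≤ 2 * m + 1 := by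
    have h1 : K'.card ≤ (Co ∪ Od.image sp).card + 1 := Finset.card_insert_le _ _
    have h2 := Finset.card_union_le Co (Od.image sp)
    have h3 : (Od.image sp).card ≤ Od.card := Finset.card_image_le
    have h4 : Od.card ≤ Co.card := Finset.card_le_card (Finset.filter_subset _ _)
    omega
  have hvK : v ∈ K' := hCoK v hvCo
  have hkK : k ∈ K' := hCoK k hkCo
  have hiK : i ∈ K' := (memK i).2 (Or.inl rfl)
  have hspK : ∀ x, Spc k j p0 hasJ hasP x → x ∈ K' := by
    rintro x (rfl | ⟨hJ, rfl⟩ | ⟨hP, rfl⟩)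
    · exact hkK
    · exact hCoK _ (hdegne x v i (S.vj hJ).symm (S.ji hJ) (S.iv hJ).symm)
    · exact hCoK _ (hdegne x v k (S.vp hP).symm (S.pk hP) S.vk)
  have hout1 : ∀ u, u ∉ K' → G.degree u = 1 := by
    intro u hu
    by_contra h
    exact hu (hCoK u ((memCo u).2 h))
  have hout : ∀ u, u ∉ K' → ∃ q ∈ K', ∀ w, G.Adj u w ↔ w = q := by
    intro u hu
    obtain ⟨q, hq⟩ := huniq u (hout1 u hu)
    exact ⟨q, hCoK q (hnb u q (hout1 u hu) hq), hq⟩
  -- sizes
  have hdegn : G.degree v < n := SimpleGraph.degree_lt_card_verts (G := G) v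
  obtain ⟨X, hXe, hX1, hX2⟩ : ∃ X, Even X ∧ X + B ≤ n ∧ n ≤ X + B + 1 := by
    refine ⟨2 * ((n - B) / 2), ⟨(n - B) / 2, by omega⟩, by omega, by omega⟩
  obtain ⟨f, d0, hpre, hfb, hdb⟩ := hB V G v k i j p0 hasJ hasP S hG hE.ge K' hKcard hvK hiK hspK
    hout X (by omega)
  have hdegk : G.degree k ≤ (Finset.univ.filter (fun u => u ∉ K' ∧ G.Adj k u)).card + K'.card := by
    rw [← SimpleGraph.card_neighborFinset_eq_degree]
    refine le_trans (Finset.card_le_card (t :=
      (Finset.univ.filter (fun u => u ∉ K' ∧ G.Adj k u)) ∪ K') ?_) (Finset.card_union_le _ _)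
    intro u hu
    rw [SimpleGraph.mem_neighborFinset] at hu
    rw [Finset.mem_union, Finset.mem_filter]
    by_cases h : u ∈ K'
    · exact Or.inr h
    · exact Or.inl ⟨Finset.mem_univ _, h, hu⟩
  obtain ⟨f', W, hcov, hkeep, hW, hWc⟩ := hpre.repair (by omega)
  have hWk : ∀ u ∈ W, ∀ w, G.Adj u w → w = k := by
    intro u hu w huw
    obtain ⟨h1, h2, _⟩ := hW u hu
    obtain ⟨q, _, hq⟩ := hout u h1
    exact ((hq w).1 huw).trans ((hq k).1 h2.symm).symm
  have hScard : (K' ∪ W).card ≤ Q := by
    have := Finset.card_union_le K' W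
    omega
  have hdeg : ∀ x, G.degree x ≤
      (Finset.univ.filter (fun u => u ∉ K' ∪ W ∧ G.Adj x u)).card + (K' ∪ W).card := by
    intro x
    rw [← SimpleGraph.card_neighborFinset_eq_degree]
    refine le_trans (Finset.card_le_card (t :=
      (Finset.univ.filter (fun u => u ∉ K' ∪ W ∧ G.Adj x u)) ∪ (K' ∪ W)) ?_)
      (Finset.card_union_le _ _)
    intro u hu
    rw [SimpleGraph.mem_neighborFinset] at hu
    rw [Finset.mem_union, Finset.mem_filter]
    by_cases h : u ∈ K' ∪ W
    · exact Or.inr h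
    · exact Or.inl ⟨Finset.mem_univ _, h, hu⟩
  obtain ⟨F, T, hF1, hF2, hF3⟩ := fill G v k S.vk (K' ∪ W) f' d0 B X hcov
    (Finset.mem_union_left _ hkK) (by rw [hkeep k hkK, hpre.fk])
    (by
      intro u hu
      rw [Finset.mem_union, not_or] at hu
      obtain ⟨q, hq1, hq2⟩ := hout u hu.1
      exact ⟨q, Finset.mem_union_left _ hq1, hq2⟩)
    (by
      intro u hu
      rw [Finset.mem_union] at hu
      by_cases h : u ∈ K'
      · rw [hkeep u h]; exact hfb u h
      · have h1 := hW u (hu.resolve_left h)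
        exact Or.inr ⟨h1.2.2.1, h1.2.2.2⟩)
    hdb
    (by
      intro p hp hpv hpk
      have hrew : Finset.univ.filter (fun u => u ∉ K' ∪ W ∧ G.Adj p u) =
          Finset.univ.filter (fun u => u ∉ K' ∧ G.Adj p u) := by
        ext u
        simp only [Finset.mem_filter, Finset.mem_univ, true_and, Finset.mem_union, not_or]
        constructor
        · rintro ⟨⟨h1, _⟩, h2⟩
          exact ⟨h1, h2⟩
        · rintro ⟨h1, h2⟩
          exact ⟨⟨h1, fun h3 => hpk (hWk u h3 p h2.symm)⟩, h2⟩
      rw [hrew]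
      by_cases hpCo : p ∈ Co
      · by_cases hodd : Odd (Lf p).card
        · have h1 : Finset.univ.filter (fun u => u ∉ K' ∧ G.Adj p u) = (Lf p).erase (sp p) := by
            ext u
            rw [Finset.mem_erase, memLf]
            simp only [Finset.mem_filter, Finset.mem_univ, true_and]
            constructor
            · rintro ⟨h2, h3⟩
              refine ⟨?_, hout1 u h2, h3, fun h4 => h2 (h4 ▸ hiK)⟩
              rintro rfl
              apply h2
              exact (memK _).2 (Or.inr (Or.inr ⟨p, (memOd p).2 ⟨hpCo, hodd⟩, rfl⟩))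
            · rintro ⟨h2, h3, h4, h5⟩
              refine ⟨?_, h4⟩
              intro h6
              rcases (memK u).1 h6 with h7 | h7 | ⟨p', hp', h7⟩
              · exact h5 h7
              · exact (memCo u).1 h7 h3
              · have h8 := (memOd p').1 hp'
                have h9 := (memLf p' _).1 (hspodd p' h8.2)
                rw [h7] at h9
                obtain ⟨q, hq⟩ := huniq u h3
                have h10 : p' = p := ((hq p').1 h9.2.1.symm).trans ((hq p).1 h4.symm).symm
                rw [h10] at h7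
                exact h2 h7.symm
          rw [h1, Finset.card_erase_of_mem (hspodd p hodd)]
          obtain ⟨r, hr⟩ := hodd
          exact ⟨r, by omega⟩
        · have h1 : Finset.univ.filter (fun u => u ∉ K' ∧ G.Adj p u) = Lf p := by
            ext u
            rw [memLf]
            simp only [Finset.mem_filter, Finset.mem_univ, true_and]
            constructor
            · rintro ⟨h2, h3⟩
              exact ⟨hout1 u h2, h3, fun h4 => h2 (h4 ▸ hiK)⟩
            · rintro ⟨h3, h4, h5⟩
              refine ⟨?_, h4⟩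
              intro h6
              rcases (memK u).1 h6 with h7 | h7 | ⟨p', hp', h7⟩
              · exact h5 h7
              · exact (memCo u).1 h7 h3
              · have h8 := (memOd p').1 hp'
                have h9 := (memLf p' _).1 (hspodd p' h8.2)
                rw [h7] at h9
                obtain ⟨q, hq⟩ := huniq u h3
                have h10 : p' = p := ((hq p').1 h9.2.1.symm).trans ((hq p).1 h4.symm).symm
                rw [h10] at h8
                exact hodd h8.2
          rw [h1]
          exact Nat.not_odd_iff_even.1 hodd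
      · have h1 : Finset.univ.filter (fun u => u ∉ K' ∧ G.Adj p u) = ∅ := by
          rw [Finset.filter_eq_empty_iff]
          rintro u _ ⟨h2, h3⟩
          rw [memCo, not_not] at hpCo
          obtain ⟨q, hq⟩ := huniq p hpCo
          have h4 : u = q := (hq u).1 h3
          exact h2 (hCoK u (h4 ▸ hnb p q hpCo hq))
        rw [h1]
        exact ⟨0, rfl⟩)
    hXe hX1 (by omega)
    (by
      have h1 := hdeg k
      have h2 : 2 * (K' ∪ W).card * B ≤ 2 * Q * B :=
        Nat.mul_le_mul_right _ (Nat.mul_le_mul_left _ hScard)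
      have h3 : 2 * Q * B ≤ 10 * (B + 1) * Q := by nlinarith [Nat.zero_le (B * Q), Nat.zero_le Q]
      omega)
    (by
      have h1 := hdeg v
      have h2 : 10 * (B + 1) * (K' ∪ W).card ≤ 10 * (B + 1) * Q := Nat.mul_le_mul_left _ hScard
      omega)
  exact hF1.finish hE hF2 hF3

end Pool.Agent.Helper67.Gr
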