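import Mathlib
import Pool.Agent.Helper67.Gr.Tree

/-!
# Unicyclic graphs with a dominant star
-/

namespace Pool.Agent.Helper67.Gr

/-- from the numerical data to the final form -/
theorem conclude {V : Type} [Fintype V] [DecidableEq V] (G : SimpleGraph V)
    [DecidableRel G.Adj] (hE : G.edgeFinset.card = Fintype.card V) {v : V} {par : V → V}
    {dep : V → ℕ} {a b : V} (U : UTree G v par dep a b) {f : V → ℕ} (hinj : Function.Injective f)
    (hB : ∀ u, f u ≤ Fintype.card V)
    (h1 : ∀ u w, u ≠ v → w ≠ v → df par f u = df par f w → u = w)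
    (h2 : ∀ u, u ≠ v → df par f u ≠ Int.natAbs ((f a : ℤ) - (f b : ℤ))) :
    ∃ f : V → ℕ, Function.Injective f ∧ (∀ v, f v ≤ G.edgeFinset.card) ∧
      ∀ u v u' v' : V, G.Adj u v → G.Adj u' v' →
        Int.natAbs ((f u : ℤ) - (f v : ℤ)) = Int.natAbs ((f u' : ℤ) - (f v' : ℤ)) →
        s(u, v) = s(u', v') := by
  have rep : ∀ x y, G.Adj x y →
      (∃ u, u ≠ v ∧ s(x, y) = s(u, par u) ∧
        Int.natAbs ((f x : ℤ) - (f y : ℤ)) = df par f u) ∨
      (s(x, y) = s(a, b) ∧
        Int.natAbs ((f x : ℤ) - (f y : ℤ)) = Int.natAbs ((f a : ℤ) - (f b : ℤ))) := by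
    intro x y hxy
    rcases U.edges x y hxy with ⟨h3, h4⟩ | ⟨h3, h4⟩ | ⟨h3, h4⟩ | ⟨h3, h4⟩
    · left
      exact ⟨x, h3, by rw [h4], by unfold df; rw [h4]⟩
    · left
      refine ⟨y, h3, by rw [h4, Sym2.eq_swap], ?_⟩
      unfold df
      rw [h4]
      omega
    · right
      rw [h3, h4]
      exact ⟨rfl, rfl⟩
    · right
      rw [h3, h4]
      exact ⟨Sym2.eq_swap, by omega⟩
  refine ⟨f, hinj, by rw [hE]; exact hB, ?_⟩
  intro x y x' y' hxy hxy' heq
  rcases rep x y hxy with ⟨u, hu, h3, h4⟩ | ⟨h3, h4⟩ <;>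
    rcases rep x' y' hxy' with ⟨w, hw, h5, h6⟩ | ⟨h5, h6⟩
  · have h7 : u = w := h1 u w hu hw (by rw [← h4, ← h6, heq])
    rw [h3, h5, h7]
  · exfalso
    exact h2 u hu (by rw [← h4, ← h6, heq])
  · exfalso
    exact h2 w hw (by rw [← h6, ← h4, heq])
  · rw [h3, h5]

theorem main (m : ℕ) : ∃ C : ℕ, ∀ (V : Type) [Fintype V] [DecidableEq V] (G : SimpleGraph V)
    [DecidableRel G.Adj], G.Connected → G.edgeFinset.card = Fintype.card V →
    (Finset.univ.filter (fun u => G.degree u ≠ 1)).card ≤ m → ∀ v : V,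
    C * (Finset.univ.filter (fun w => ¬ (G.Adj v w ∧ G.degree w = 1))).card ≤ Fintype.card V →
    ∃ f : V → ℕ, Function.Injective f ∧ (∀ v, f v ≤ G.edgeFinset.card) ∧
      ∀ u v u' v' : V, G.Adj u v → G.Adj u' v' →
        Int.natAbs ((f u : ℤ) - (f v : ℤ)) = Int.natAbs ((f u' : ℤ) - (f v' : ℤ)) →
        s(u, v) = s(u', v') := by
  classical
  obtain ⟨D, hD⟩ := core_labels (2 * m + 1)
  refine ⟨7 * (D + 1), ?_⟩
  intro V _ _ G _ hG hE hm v hT
  obtain ⟨par, dep, a, b, U⟩ := exists_tree G hG hE v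
  set n := Fintype.card V with hn
  set T : Finset V := Finset.univ.filter (fun w => ¬ (G.Adj v w ∧ G.degree w = 1)) with hTdef
  set Co : Finset V := Finset.univ.filter (fun u => G.degree u ≠ 1) with hCo
  have memT : ∀ u, u ∈ T ↔ ¬ (G.Adj v u ∧ G.degree u = 1) := by
    intro u; rw [hTdef]; simp
  have memCo : ∀ u, u ∈ Co ↔ G.degree u ≠ 1 := by
    intro u; rw [hCo]; simp
  -- two neighbours of a vertex of degree one agree
  have huniq : ∀ u x y, G.degree u = 1 → G.Adj u x → G.Adj u y → x = y := by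
    intro u x y hu hx hy
    obtain ⟨z, _, hz⟩ := SimpleGraph.degree_eq_one_iff_existsUnique_adj.1 hu
    rw [hz x hx, hz y hy]
  have hvT : v ∈ T := by
    rw [memT]
    rintro ⟨h1, _⟩
    exact G.irrefl h1
  have hTv : ∀ u, u ∉ T → par u = v := by
    intro u hu
    rw [memT, not_not] at hu
    have huv : u ≠ v := hu.1.ne'
    exact huniq u _ _ hu.2 (U.adj u huv) hu.1.symm
  -- a vertex of degree one is not a parent
  have hleaf : ∀ u w, G.degree u = 1 → u ≠ v → w ≠ v → par w ≠ u := by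
    intro u w hu huv hwv h1
    have h2 := U.adj w hwv
    rw [h1] at h2
    have h3 := huniq u w (par u) hu h2.symm (U.adj u huv)
    have h4 := U.dep_par u huv
    have h5 := U.dep_par w hwv
    rw [h1] at h5
    rw [← h3] at h4
    omega
  have hparCo : ∀ u, u ≠ v → par u = v ∨ par u ∈ Co := by
    intro u huv
    by_cases h1 : par u = v
    · exact Or.inl h1
    · right
      rw [memCo]
      intro h2
      exact hleaf (par u) u h2 h1 huv rfl
  -- special leaves
  let Lf : V → Finset V := fun p =>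
    Finset.univ.filter (fun u => u ≠ v ∧ G.degree u = 1 ∧ par u = p)
  have memLf : ∀ p u, u ∈ Lf p ↔ (u ≠ v ∧ G.degree u = 1 ∧ par u = p) := by
    intro p u; simp [Lf]
  let sp : V → V := fun p => if h : (Lf p).Nonempty then h.choose else v
  have hsp : ∀ p, (Lf p).Nonempty → sp p ∈ Lf p := by
    intro p h
    simp only [sp, dif_pos h]
    exact h.choose_spec
  have hspodd : ∀ p, Odd (Lf p).card → sp p ∈ Lf p := by
    intro p h
    apply hsp
    rw [← Finset.card_pos]
    exact h.pos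
  set Od : Finset V := Co.filter (fun p => p ≠ v ∧ Odd (Lf p).card) with hOd
  set K' : Finset V := insert v (Co ∪ Od.image sp) with hK'
  have memK : ∀ u, u ∈ K' ↔ (u = v ∨ u ∈ Co ∨ ∃ p ∈ Od, sp p = u) := by
    intro u; rw [hK']; simp
  have memOd : ∀ p, p ∈ Od ↔ (p ∈ Co ∧ p ≠ v ∧ Odd (Lf p).card) := by
    intro p; rw [hOd]; simp
  have hvK : v ∈ K' := (memK v).2 (Or.inl rfl)
  have hCoK : ∀ u ∈ Co, u ∈ K' := fun u hu => (memK u).2 (Or.inr (Or.inl hu))
  have hparK : ∀ u, u ≠ v → par u ∈ K' := by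
    intro u huv
    rcases hparCo u huv with h1 | h1
    · rw [h1]; exact hvK
    · exact hCoK _ h1
  have hKcard : K'.card ≤ 2 * m + 1 := by
    have h1 : K'.card ≤ (Co ∪ Od.image sp).card + 1 := Finset.card_insert_le _ _
    have h2 := Finset.card_union_le Co (Od.image sp)
    have h3 : (Od.image sp).card ≤ Od.card := Finset.card_image_le
    have h4 : Od.card ≤ Co.card := Finset.card_le_card (Finset.filter_subset _ _)
    omega
  have hKT : K' ⊆ T := by
    intro u hu
    rw [memT]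
    rintro ⟨h1, h2⟩
    rcases (memK u).1 hu with h3 | h3 | ⟨p, hp, h3⟩
    · rw [h3] at h1; exact G.irrefl h1
    · exact (memCo u).1 h3 h2
    · have h4 := (memOd p).1 hp
      have h5 := (memLf p _).1 (hspodd p h4.2.2)
      rw [h3] at h5
      apply h4.2.1
      rw [← h5.2.2]
      exact huniq u _ _ h2 (U.adj u h5.1) h1.symm
  have haK : a ∈ K' := by
    apply hCoK
    rw [memCo]
    intro h1
    exact U.pa (huniq a _ _ h1 (U.adj a U.av) U.ab)
  have hbK : b ∈ K' := by
    apply hCoK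
    rw [memCo]
    intro h1
    exact U.pb (huniq b _ _ h1 (U.adj b U.bv) U.ab.symm)
  -- the core as a type
  let K := {u : V // u ∈ K'}
  have hKc : Fintype.card K ≤ 2 * m + 1 := by
    rw [Fintype.card_coe]; exact hKcard
  let parK : K → K := fun x => if hx : x.1 = v then ⟨v, hvK⟩ else ⟨par x.1, hparK x.1 hx⟩
  have hparK1 : ∀ x : K, x.1 ≠ v → (parK x).1 = par x.1 := by
    intro x hx
    simp only [parK, dif_neg hx]
  let vK : K := ⟨v, hvK⟩
  have hneK : ∀ x : K, x ≠ vK ↔ x.1 ≠ v := by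
    intro x
    rw [Ne, Subtype.ext_iff]
  obtain ⟨σ, g, H, hg, hgD⟩ := hD K hKc vK parK (fun x => dep x.1) ⟨a, haK⟩ ⟨b, hbK⟩
    (by
      intro u
      rw [U.dep_zero, Subtype.ext_iff])
    (by
      intro u hu
      rw [hneK] at hu
      rw [hparK1 u hu]
      exact U.dep_par u.1 hu)
    U.d1 U.d2
    (by rw [hneK]; exact U.av)
    (by rw [hneK]; exact U.bv)
    (by
      intro h1
      exact U.ab.ne (congrArg Subtype.val h1))
    (by
      intro h1
      apply U.pa
      rw [← hparK1 ⟨a, haK⟩ U.av, h1])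
    (by
      intro h1
      apply U.pb
      rw [← hparK1 ⟨b, hbK⟩ U.bv, h1])
  -- the scale
  set M := n / (D + 1) with hM
  have hTpos : 0 < T.card := Finset.card_pos.2 ⟨v, hvT⟩
  have hM1 : 7 * T.card ≤ M := by
    rw [hM, Nat.le_div_iff_mul_le (by omega)]
    calc 7 * T.card * (D + 1) = 7 * (D + 1) * T.card := by ring
      _ ≤ n := hT
  have hM2 : M * D ≤ n := by
    have h1 : M * (D + 1) ≤ n := Nat.div_mul_le_self n (D + 1)
    have h2 : M * D ≤ M * (D + 1) := Nat.mul_le_mul_left _ (by omega)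
    omega
  have hMpos : 0 < M := by omega
  let f0 : V → ℕ := fun u => if hu : u ∈ K' then M * g ⟨u, hu⟩ else 0
  have hf0 : ∀ x : K, f0 x.1 = M * g x := by
    intro x
    change (if hu : x.1 ∈ K' then M * g ⟨x.1, hu⟩ else 0) = M * g x
    rw [dif_pos x.2]
  have hdf : ∀ x : K, x.1 ≠ v → df par f0 x.1 =
      Int.natAbs (((M * g x : ℕ) : ℤ) - ((M * g (parK x) : ℕ) : ℤ)) := by
    intro x hx
    unfold df
    rw [hf0 x, ← hparK1 x hx, hf0 (parK x)]
  have hdf1 : ∀ x : K, x.1 ≠ v → par x.1 = v → df par f0 x.1 = f0 x.1 := by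
    intro x hx hp
    have h1 : parK x = vK := Subtype.ext (by rw [hparK1 x hx, hp])
    rw [hdf x hx, h1, hg.root, hf0 x]
    omega
  have hdf2 : ∀ x : K, x.1 ≠ v → par x.1 ≠ v →
      (σ x).1 ≠ v ∧ par (σ x).1 = par x.1 ∧ df par f0 x.1 = f0 (σ x).1 ∧ σ (σ x) = x := by
    intro x hx hp
    have h0 : x ≠ vK := (hneK x).2 hx
    have h1 : parK x ≠ vK := by
      rw [hneK, hparK1 x hx]; exact hp
    have h2 := hg.split x h0 h1
    have h3 : (σ x).1 ≠ v := (hneK _).1 (H.sig_ne x h0 h1)
    have h4 := H.par_sig x h0 h1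
    refine ⟨h3, ?_, ?_, H.sig_sig x h0 h1⟩
    · rw [← hparK1 _ h3, h4, hparK1 x hx]
    · rw [hdf x hx, hf0 (σ x), ← h2, mul_add]
      push_cast
      omega
  set d0 := Int.natAbs ((f0 a : ℤ) - (f0 b : ℤ)) with hd0
  have hfa : f0 a = M * g ⟨a, haK⟩ := hf0 ⟨a, haK⟩
  have hfb : f0 b = M * g ⟨b, hbK⟩ := hf0 ⟨b, hbK⟩
  have hst : St v par d0 f0 K' := by
    refine ⟨?_, hvK, ?_, ?_, ?_, ?_⟩
    · have h1 := hf0 vK
      rw [hg.root] at h1
      exact h1
    · intro u _ huv
      exact hparK u huv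
    · intro u hu w hw huw
      have h1 := hf0 ⟨u, by exact_mod_cast hu⟩
      have h2 := hf0 ⟨w, by exact_mod_cast hw⟩
      simp only at h1 h2
      rw [h1, h2] at huw
      have h3 := hg.inj (Nat.eq_of_mul_eq_mul_left hMpos huw)
      exact congrArg Subtype.val h3
    · apply Finset.Subset.antisymm
      · intro y hy
        rw [Finset.mem_image] at hy
        obtain ⟨u, hu, rfl⟩ := hy
        rw [Finset.mem_erase] at hu
        rw [Finset.mem_image]
        by_cases hp : par u = v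
        · exact ⟨u, Finset.mem_erase.2 hu, (hdf1 ⟨u, hu.2⟩ hu.1 hp).symm⟩
        · obtain ⟨h1, _, h3, _⟩ := hdf2 ⟨u, hu.2⟩ hu.1 hp
          exact ⟨(σ ⟨u, hu.2⟩).1, Finset.mem_erase.2 ⟨h1, (σ ⟨u, hu.2⟩).2⟩, h3.symm⟩
      · intro y hy
        rw [Finset.mem_image] at hy
        obtain ⟨u, hu, rfl⟩ := hy
        rw [Finset.mem_erase] at hu
        rw [Finset.mem_image]
        by_cases hp : par u = v
        · exact ⟨u, Finset.mem_erase.2 hu, (hdf1 ⟨u, hu.2⟩ hu.1 hp)⟩
        · obtain ⟨h1, h2, _, h4⟩ := hdf2 ⟨u, hu.2⟩ hu.1 hp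
          have hp' : par (σ ⟨u, hu.2⟩).1 ≠ v := by rw [h2]; exact hp
          obtain ⟨_, _, h5, _⟩ := hdf2 (σ ⟨u, hu.2⟩) h1 hp'
          refine ⟨(σ ⟨u, hu.2⟩).1, Finset.mem_erase.2 ⟨h1, (σ ⟨u, hu.2⟩).2⟩, ?_⟩
          rw [h5, h4]
    · intro h1
      rw [Finset.mem_image] at h1
      obtain ⟨u, hu, h2⟩ := h1
      have h3 := hf0 ⟨u, hu⟩
      simp only at h3
      rw [h3, hd0, hfa, hfb] at h2
      rcases le_total (g ⟨b, hbK⟩) (g ⟨a, haK⟩) with h4 | h4
      · apply hg.ab ⟨u, hu⟩
        have h5 : M * g ⟨b, hbK⟩ ≤ M * g ⟨a, haK⟩ := Nat.mul_le_mul_left _ h4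
        apply Nat.eq_of_mul_eq_mul_left hMpos
        rw [mul_add]
        omega
      · apply hg.ba ⟨u, hu⟩
        have h5 : M * g ⟨a, haK⟩ ≤ M * g ⟨b, hbK⟩ := Nat.mul_le_mul_left _ h4
        apply Nat.eq_of_mul_eq_mul_left hMpos
        rw [mul_add]
        omega
  have hd0pos : 0 < d0 := by
    rcases Nat.eq_zero_or_pos d0 with h1 | h1
    · exfalso
      apply hst.d0
      rw [h1, Finset.mem_image]
      exact ⟨v, hvK, hst.fv⟩
    · exact h1
  -- vertices outside the core
  have hout : ∀ u, u ∉ K' → u ≠ v ∧ G.degree u = 1 := by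
    intro u hu
    rw [memK, not_or, not_or, memCo, not_not] at hu
    exact ⟨hu.1, hu.2.1⟩
  obtain ⟨f', hf1, hf2, hf3⟩ := extend_all (v := v) (par := par) (d0 := d0) M n T (by omega) hTv
    _ f0 K' hst rfl hKT
    (by
      intro u hu
      have h1 := hf0 ⟨u, hu⟩
      simp only at h1
      rw [h1]
      exact (Nat.mul_le_mul_left M (hgD _)).trans hM2)
    (by
      intro u hu
      obtain ⟨h1, h2⟩ := hout u hu
      refine ⟨hparK u h1, fun h3 => ?_⟩
      have h4 := hf0 ⟨par u, hparK u h1⟩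
      simp only at h4
      rw [h4]
      have h5 : 0 < g ⟨par u, hparK u h1⟩ := hg.pos _ ((hneK _).2 h3)
      exact Nat.le_mul_of_pos_right M h5)
    (by
      intro u hu huT h3
      obtain ⟨h1, h2⟩ := hout u hu
      rw [memT] at huT
      apply huT
      refine ⟨?_, h2⟩
      have h4 := U.adj u h1
      rw [h3] at h4
      exact h4.symm)
    (by
      intro p hpv
      by_cases hodd : Odd (Lf p).card
      · have h1 : Finset.univ.filter (fun u => u ∉ K' ∧ par u = p) = (Lf p).erase (sp p) := by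
          ext u
          rw [Finset.mem_erase, memLf]
          simp only [Finset.mem_filter, Finset.mem_univ, true_and]
          have hsp' := (memLf p _).1 (hspodd p hodd)
          have hpCo : p ∈ Co := by
            rw [memCo]
            intro h2
            exact hleaf p (sp p) h2 hpv hsp'.1 hsp'.2.2
          constructor
          · rintro ⟨h2, h3⟩
            obtain ⟨h4, h5⟩ := hout u h2
            refine ⟨?_, h4, h5, h3⟩
            rintro rfl
            apply h2
            exact (memK _).2 (Or.inr (Or.inr ⟨p, (memOd p).2 ⟨hpCo, hpv, hodd⟩, rfl⟩))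
          · rintro ⟨h2, h3, h4, h5⟩
            refine ⟨?_, h5⟩
            intro h6
            rcases (memK u).1 h6 with h7 | h7 | ⟨p', hp', h7⟩
            · exact h3 h7
            · exact (memCo u).1 h7 h4
            · have h8 := (memOd p').1 hp'
              have h9 := (memLf p' _).1 (hspodd p' h8.2.2)
              rw [h7] at h9
              have h10 : p' = p := h9.2.2.symm.trans h5
              rw [h10] at h7
              exact h2 h7.symm
        rw [h1, Finset.card_erase_of_mem (hspodd p hodd)]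
        obtain ⟨r, hr⟩ := hodd
        exact ⟨r, by omega⟩
      · have h1 : Finset.univ.filter (fun u => u ∉ K' ∧ par u = p) = Lf p := by
          ext u
          rw [memLf]
          simp only [Finset.mem_filter, Finset.mem_univ, true_and]
          constructor
          · rintro ⟨h2, h3⟩
            obtain ⟨h4, h5⟩ := hout u h2
            exact ⟨h4, h5, h3⟩
          · rintro ⟨h3, h4, h5⟩
            refine ⟨?_, h5⟩
            intro h6
            rcases (memK u).1 h6 with h7 | h7 | ⟨p', hp', h7⟩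
            · exact h3 h7
            · exact (memCo u).1 h7 h4
            · have h8 := (memOd p').1 hp'
              have h9 := (memLf p' _).1 (hspodd p' h8.2.2)
              rw [h7] at h9
              have h10 : p' = p := h9.2.2.symm.trans h5
              rw [h10] at h8
              exact hodd h8.2.2
        rw [h1]
        exact Nat.not_odd_iff_even.1 hodd)
  obtain ⟨F, hF1, hF2, hF3, hF4⟩ := finish hf1 hTv hf2 (hKT haK) (hKT hbK)
    (by rw [hf3 a haK, hf3 b hbK]) hd0pos
  exact conclude G hE U hF1 hF2 hF3 hF4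

end Pool.Agent.Helper67.Gr
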