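import Mathlib
import Pool.Agent.Helper67.Gr.Cases
import Pool.Agent.Helper67.Gr.Heavy
import Pool.Agent.Helper67.Gr.Main

/-!
# All but finitely many unicyclic graphs with a bounded number of non-leaves are graceful
-/

namespace Pool.Agent.Helper67.Gr

theorem bounded_core (m : ℕ) : ∃ N : ℕ, ∀ (V : Type) [Fintype V] [DecidableEq V]
    (G : SimpleGraph V) [DecidableRel G.Adj], G.Connected →
    G.edgeFinset.card = Fintype.card V →
    (Finset.univ.filter (fun u => G.degree u ≠ 1)).card ≤ m → N ≤ Fintype.card V →
    Graceful G := by
  classical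
  obtain ⟨Θ, hΘ2, hΘ⟩ := two_heavy m
  obtain ⟨C, hC⟩ := main m
  refine ⟨C * (m + m * Θ) + 3, ?_⟩
  intro V _ _ G _ hG hE hm hn
  by_cases h2 : ∃ v k, v ≠ k ∧ Θ ≤ G.degree v ∧ Θ ≤ G.degree k
  · obtain ⟨v, k, hvk, hv, hk⟩ := h2
    rcases cases_two G hG hE hvk with ⟨i, j, p0, hasJ, hasP, S⟩ | ⟨i, j, p0, hasJ, hasP, S⟩ | h
    · exact hΘ V G hG hE hm v k i j p0 hasJ hasP S hv hk
    · exact hΘ V G hG hE hm k v i j p0 hasJ hasP S hk hv
    · exact h
  · push Not at h2
    obtain ⟨v, hv⟩ : ∃ v, ∀ p, p ≠ v → G.degree p < Θ := by
      by_cases h3 : ∃ v, Θ ≤ G.degree v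
      · obtain ⟨v, hv⟩ := h3
        exact ⟨v, fun p hp => h2 v p hp.symm hv⟩
      · push Not at h3
        have : Nonempty V := hG.nonempty
        exact ⟨Classical.arbitrary V, fun p _ => h3 p⟩
    set Co : Finset V := Finset.univ.filter (fun u => G.degree u ≠ 1) with hCo
    have memCo : ∀ u, u ∈ Co ↔ G.degree u ≠ 1 := by
      intro u; rw [hCo]; simp
    have hsub : (Finset.univ.filter (fun w => ¬ (G.Adj v w ∧ G.degree w = 1))) ⊆
        Co ∪ (Co.erase v).biUnion (fun p => G.neighborFinset p) := by
      intro w hw
      simp only [Finset.mem_filter, Finset.mem_univ, true_and] at hw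
      rw [Finset.mem_union]
      by_cases hwC : w ∈ Co
      · exact Or.inl hwC
      · right
        rw [memCo, not_not] at hwC
        obtain ⟨q, hq1, hq2⟩ := SimpleGraph.degree_eq_one_iff_existsUnique_adj.1 hwC
        have hqv : q ≠ v := by
          rintro rfl
          exact hw ⟨hq1.symm, hwC⟩
        have hqC : q ∈ Co := by
          rw [memCo]
          intro hdq
          obtain ⟨r, hr1, hr2⟩ := SimpleGraph.degree_eq_one_iff_existsUnique_adj.1 hdq
          have hwr : w = r := hr2 w hq1.symm
          have hall : ∀ x, x = w ∨ x = q := by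
            intro x
            have h0 : Relation.ReflTransGen G.Adj w x :=
              (SimpleGraph.reachable_iff_reflTransGen w x).1 (hG w x)
            induction h0 with
            | refl => exact Or.inl rfl
            | @tail b c _ hbc ih =>
              rcases ih with h | h
              · rw [h] at hbc
                exact Or.inr (hq2 c hbc)
              · rw [h] at hbc
                exact Or.inl ((hr2 c hbc).trans hwr.symm)
          have hcard : Fintype.card V ≤ 2 := by
            rw [← Finset.card_univ]
            have h4 : (Finset.univ : Finset V) ⊆ {w, q} := by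
              intro x _
              rw [Finset.mem_insert, Finset.mem_singleton]
              exact hall x
            exact (Finset.card_le_card h4).trans Finset.card_le_two
          omega
        rw [Finset.mem_biUnion]
        exact ⟨q, Finset.mem_erase.2 ⟨hqv, hqC⟩, by
          rw [SimpleGraph.mem_neighborFinset]; exact hq1.symm⟩
    have hcard : (Finset.univ.filter (fun w => ¬ (G.Adj v w ∧ G.degree w = 1))).card ≤
        m + m * Θ := by
      refine (Finset.card_le_card hsub).trans ((Finset.card_union_le _ _).trans ?_)
      refine Nat.add_le_add hm ?_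
      refine Finset.card_biUnion_le.trans ?_
      calc ∑ p ∈ Co.erase v, (G.neighborFinset p).card ≤ ∑ _p ∈ Co.erase v, Θ := by
            refine Finset.sum_le_sum fun p hp => ?_
            rw [SimpleGraph.card_neighborFinset_eq_degree]
            exact (hv p (Finset.ne_of_mem_erase hp)).le
        _ = (Co.erase v).card * Θ := by rw [Finset.sum_const, smul_eq_mul]
        _ ≤ m * Θ := Nat.mul_le_mul_right _ ((Finset.card_le_card (Finset.erase_subset _ _)).trans
            hm)
    exact hC V G hG hE hm v ((Nat.mul_le_mul_left C hcard).trans (by omega))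

end Pool.Agent.Helper67.Gr
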